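import Pool.Agent.N549.HG.Stm

/-!
# Hard spheres on the torus: further statements (project HG)
-/

set_option autoImplicit false

namespace Pool.Agent.N549.HG

open MeasureTheory Set Finset
open scoped ENNReal NNReal

/-- HG/CELLS: the torus is the union of `m` sets of volume at most `1 / m`. -/
def S_CELLS : Prop := ∀ (n : ℕ), 1 ≤ n → ∀ m : ℕ, 1 ≤ m → ∃ Q : Fin m → Set (Torus n),
  (∀ i, MeasurableSet (Q i)) ∧ (⋃ i, Q i) = univ ∧ ∀ i, (vol n).real (Q i) ≤ 1 / m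

/-- The volume of the set of configurations of `k` labelled points with mutual distances at
least `r`. -/
noncomputable def conf (n : ℕ) (r : ℝ) (k : ℕ) : ℝ :=
  (Measure.pi fun _ : Fin k => vol n).real {x | ∀ i j, i < j → r ^ 2 ≤ sqd (x i) (x j)}

/-- HG/CONF: `A` with weights `1` is the volume of the configurations. -/
def S_CONF : Prop := ∀ (n k : ℕ) (r : ℝ),
  A (vol n) (far n r) k (fun _ => 1) = ENNReal.ofReal (conf n r k)

/-- HG/ASM: the asymptotics.  `y x` is the mean number of points times the volume of the ball, `p x`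
the logarithm of the partition function times this volume, at the activity `exp (x n) / volume`. -/
def S_ASM : Prop := ∀ ε : ℝ, 0 < ε → ∃ n₀ : ℕ, ∀ n : ℕ, n₀ ≤ n → ∀ y p : ℝ → ℝ,
  (∀ x, 0 ≤ x → 0 < y x ∧ y x ≤ Real.exp (x * n)) →
  (∀ x, 0 ≤ x → 2 * (Real.sqrt 3 / 2) ^ n * Real.exp (x * n) ≤ 1 →
    (1 - 2 * (Real.sqrt 3 / 2) ^ n * Real.exp (x * n)) * Real.log (Real.exp (x * n) / y x) ≤ y x) →
  (∀ x, 0 ≤ x → 4 * (n + 1) * Real.exp (-(3 / 20) * n) * Real.exp (x * n) ≤ 1 / 4 →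
    p x ≤ Real.log (1 + Real.exp (x * n)) ^ 2 / 2 + 2 * Real.log (1 + Real.exp (x * n)) + 1) →
  (∀ x x', 0 ≤ x → x ≤ x' → (x' - x) * n * y x ≤ p x' - p x ∧ p x' - p x ≤ (x' - x) * n * y x') →
  0 ≤ p 0 →
  ∀ x, 0 ≤ x → x ≤ Real.log (2 / Real.sqrt 3) - ε →
    |y x - x * n| ≤ ε * n ∧ |p x - x ^ 2 * n ^ 2 / 2| ≤ ε * n ^ 2

end Pool.Agent.N549.HG
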