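import Pool.Agent.N549.HG.Low
import Pool.Agent.N549.HG.Stm2
import Pool.Agent.N342.HG.Loc
import Pool.Agent.N457.HG.Torus

/-!
# Hard spheres on the torus: translations, scaling, the lower bound
-/

set_option autoImplicit false

namespace Pool.Agent.N549.HG

open MeasureTheory Set Finset
open scoped ENNReal NNReal

variable {n : ℕ} {r : ℝ}

instance : IsProbabilityMeasure (vol n) := by unfold vol; infer_instance

instance : (vol n).IsAddHaarMeasure := by unfold vol; infer_instance

theorem sqd_add (x y a : Torus n) : sqd (x + a) (y + a) = sqd x y := by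
  simp [sqd]

theorem far_symm (x y : Torus n) : far n r x y = far n r y x := by
  unfold far
  rw [Pool.Agent.N342.HG.sqd_comm]

theorem far_adm (n : ℕ) (r : ℝ) : Adm (far n r) where
  meas := by
    have h : Measurable fun p : Torus n × Torus n => sqd p.1 p.2 :=
      (Pool.Agent.N342.HG.cont_sqd n).measurable
    exact Measurable.ite (measurableSet_le measurable_const h) measurable_const measurable_const
  symm := far_symm
  le_one := fun x y => by unfold far; split_ifs <;> simp

theorem far_add (x y a : Torus n) : far n r (x + a) (y + a) = far n r x y := by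
  unfold far; rw [sqd_add]

/-- the near points -/
def near (n : ℕ) (r : ℝ) (u : Torus n) : Set (Torus n) := {y | sqd y u < r ^ 2}

theorem meas_near (u : Torus n) : MeasurableSet (near n r u) :=
  Pool.Agent.N457.HG.Torus.measurableSet_near n u r

theorem one_sub_far (u : Torus n) : (fun y => 1 - far n r u y) =
    (near n r u).indicator fun _ => (1 : ℝ≥0∞) := by
  funext y
  unfold far near
  rw [Pool.Agent.N342.HG.sqd_comm u y]
  by_cases h : sqd y u < r ^ 2
  · rw [Set.indicator_of_mem (by exact h), if_neg (not_le.2 h), tsub_zero]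
  · rw [Set.indicator_of_notMem (by exact h), if_pos (not_lt.1 h), tsub_self]

theorem mul_far (T : Set (Torus n)) (c : ℝ≥0∞) (u : Torus n) :
    (fun y => T.indicator (fun _ => c) y * far n r u y) =
      (T \ near n r u).indicator fun _ => c := by
  funext y
  unfold far near
  rw [Pool.Agent.N342.HG.sqd_comm u y]
  by_cases h : sqd y u < r ^ 2
  · rw [if_neg (not_le.2 h), mul_zero, Set.indicator_of_notMem]
    exact fun h' => h'.2 h
  · rw [if_pos (not_lt.1 h), mul_one]
    by_cases hT : y ∈ T
    · rw [Set.indicator_of_mem hT, Set.indicator_of_mem]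
      exact ⟨hT, h⟩
    · rw [Set.indicator_of_notMem hT, Set.indicator_of_notMem]
      exact fun h' => hT h'.1

/-! ### scaling and translations -/

theorem A_smul {Ω : Type} [MeasurableSpace Ω] {μ : Measure Ω} [SFinite μ] {F : Ω → Ω → ℝ≥0∞}
    (hF : Adm F) (c : ℝ≥0∞) (k : ℕ) {φ : Ω → ℝ≥0∞} (hφ : Measurable φ) :
    A μ F k (fun y => c * φ y) = c ^ k * A μ F k φ := by
  induction k generalizing φ with
  | zero => simp [A]
  | succ k ih =>
    simp only [A]
    have h0 : Measurable fun u => φ u * A μ F k (fun y => φ y * F u y) :=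
      hφ.mul ((nice_A (μ := μ) hF k).meas hF hφ)
    rw [← lintegral_const_mul _ h0]
    refine lintegral_congr fun u => ?_
    have h1 : (fun y => c * φ y * F u y) = fun y => c * (φ y * F u y) := by
      funext y; rw [mul_assoc]
    rw [h1, ih (meas_mul hF hφ u), pow_succ]
    ring

theorem A_trans (k : ℕ) (φ : Torus n → ℝ≥0∞) (a : Torus n) :
    A (vol n) (far n r) k (fun y => φ (y + a)) = A (vol n) (far n r) k φ := by
  induction k generalizing φ with
  | zero => rfl
  | succ k ih =>
    simp only [A]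
    rw [← lintegral_add_right_eq_self (μ := vol n)
      (fun u => φ u * A (vol n) (far n r) k fun y => φ y * far n r u y) a]
    refine lintegral_congr fun u => ?_
    rw [← ih (fun y => φ y * far n r (u + a) y)]
    simp only [far_add]

theorem Z_trans (φ : Torus n → ℝ≥0∞) (a : Torus n) :
    Z (vol n) (far n r) (fun y => φ (y + a)) = Z (vol n) (far n r) φ := by
  unfold Z
  exact tsum_congr fun k => by rw [A_trans]

/-- the partition function with the points near the origin forbidden -/
noncomputable def Z1 (n : ℕ) (r : ℝ) (c : ℝ≥0∞) : ℝ≥0∞ :=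
  Z (vol n) (far n r) (fun y => c * far n r 0 y)

theorem Z_far (c : ℝ≥0∞) (u : Torus n) :
    Z (vol n) (far n r) (fun y => c * far n r u y) = Z1 n r c := by
  unfold Z1
  rw [← Z_trans (fun y => c * far n r u y) u]
  congr 1
  funext y
  rw [← far_add 0 y u, zero_add]

theorem Mn_const (c : ℝ≥0∞) : Mn (vol n) (far n r) (fun _ => c) = c * Z1 n r c := by
  unfold Mn
  simp only [Z_far]
  rw [lintegral_const, measure_univ, mul_one]

/-- **The lower bound on the torus.** -/
theorem low_torus (hn : 1 ≤ n) (hr : 0 < r) (hr4 : r ≤ 1 / 4) (lam : ℝ) (hlam : 0 < lam)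
    (w w1 D δ : ℝ) (hw : Z (vol n) (far n r) (fun _ => ENNReal.ofReal lam) = ENNReal.ofReal w)
    (hw1 : Z1 n r (ENNReal.ofReal lam) = ENNReal.ofReal w1) (hw0 : 1 ≤ w) (hw10 : 1 ≤ w1)
    (hD : D = ballVol n r) (hδ : δ = 2 * (Real.sqrt 3 / 2) ^ n * (lam * D)) (hδ1 : δ ≤ 1) :
    (1 - δ) * Real.log (w / w1) ≤ lam * D * w1 / w := by
  have hF := far_adm n r
  have hD0 : 0 ≤ D := by rw [hD]; exact ENNReal.toReal_nonneg
  have hδ0 : 0 ≤ δ := by rw [hδ]; positivity
  set c : ℝ≥0∞ := ENNReal.ofReal lam with hc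
  have hcne : c ≠ ∞ := ENNReal.ofReal_ne_top
  set B : Set (Torus n) := near n r 0 with hB
  have hBm : MeasurableSet B := meas_near 0
  have hBv : vol n B = ENNReal.ofReal D := by
    rw [hD]; exact (Pool.Agent.N457.HG.Torus.torus n hn r hr (by linarith)).1 0
  set φ : Torus n → ℝ≥0∞ := B.indicator fun _ => c with hφ
  set χ : Torus n → ℝ≥0∞ := Bᶜ.indicator fun _ => c with hχ
  have hφm : Measurable φ := measurable_const.indicator hBm
  have hχm : Measurable χ := measurable_const.indicator hBm.compl
  have hsum : ∀ y, χ y + φ y = c := by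
    intro y
    by_cases hy : y ∈ B
    · rw [hχ, hφ, Set.indicator_of_mem hy, Set.indicator_of_notMem (by simpa using hy), zero_add]
    · rw [hχ, hφ, Set.indicator_of_notMem hy, Set.indicator_of_mem (by simpa using hy), add_zero]
  have hχ1 : χ = fun y => c * far n r 0 y := by
    have h1 := mul_far (r := r) (univ : Set (Torus n)) c 0
    have h2 : (univ : Set (Torus n)) \ near n r 0 = Bᶜ := by
      rw [hB, Set.compl_eq_univ_sdiff]
    rw [h2] at h1
    rw [hχ, ← h1]
    funext y
    rw [Set.indicator_of_mem (mem_univ y)]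
  have hint : ∫⁻ y, φ y ∂(vol n) = c * ENNReal.ofReal D := by
    rw [hφ, lintegral_indicator_const hBm, hBv]
  have hfin : ∫⁻ y, φ y ∂(vol n) ≠ ∞ := by
    rw [hint]; exact ENNReal.mul_ne_top hcne ENNReal.ofReal_ne_top
  set P : (Torus n → ℝ≥0∞) → Prop := fun ψ => ∃ T : Set (Torus n), MeasurableSet T ∧ T ⊆ B ∧
    ψ = T.indicator fun _ => c with hP
  have hPF : ∀ ψ, P ψ → ∀ u, P (fun y => ψ y * far n r u y) := by
    rintro ψ ⟨T, hT, hTB, rfl⟩ u
    exact ⟨T \ near n r u, hT.diff (meas_near u), fun y hy => hTB hy.1, mul_far T c u⟩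
  have hPm : ∀ ψ, P ψ → Measurable ψ := by
    rintro ψ ⟨T, hT, _, rfl⟩
    exact measurable_const.indicator hT
  have hPle : ∀ ψ, P ψ → ∀ y, ψ y ≤ φ y := by
    rintro ψ ⟨T, _, hTB, rfl⟩ y
    exact Set.indicator_le_indicator_of_subset hTB (fun _ => by simp) y
  have hloc : ∀ ψ, P ψ → ∫⁻ u, ψ u * ∫⁻ y, ψ y * (1 - far n r u y) ∂(vol n) ∂(vol n) ≤
      ENNReal.ofReal δ * ∫⁻ y, ψ y ∂(vol n) := by
    rintro ψ ⟨T, hT, hTB, rfl⟩
    have h1 := Pool.Agent.N342.HG.loc Pool.Agent.N457.HG.Torus.torus n hn r hr hr4 0 T hT hTB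
    have h2 : ∀ u : Torus n, ∫⁻ y, T.indicator (fun _ => c) y * (1 - far n r u y) ∂(vol n) =
        c * vol n (T ∩ near n r u) := by
      intro u
      have h3 : (fun y => T.indicator (fun _ => c) y * (1 - far n r u y)) =
          (T ∩ near n r u).indicator fun _ => c := by
        have h4 := one_sub_far (r := r) u
        funext y
        rw [congrFun h4 y]
        by_cases hyT : y ∈ T <;> by_cases hyN : y ∈ near n r u <;>
          simp [hyT, hyN]
      rw [h3, lintegral_indicator_const (hT.inter (meas_near u))]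
    have h5 : ∫⁻ u, T.indicator (fun _ => c) u *
          ∫⁻ y, T.indicator (fun _ => c) y * (1 - far n r u y) ∂(vol n) ∂(vol n) =
        c * (c * ∫⁻ u in T, vol n (T ∩ near n r u) ∂(vol n)) := by
      simp only [h2]
      rw [← lintegral_const_mul' _ _ hcne, ← lintegral_const_mul' _ _ hcne,
        ← lintegral_indicator hT]
      refine lintegral_congr fun u => ?_
      by_cases hu : u ∈ T <;> simp [hu]
    rw [h5, lintegral_indicator_const hT]
    calc c * (c * ∫⁻ u in T, vol n (T ∩ near n r u) ∂(vol n))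
        ≤ c * (c * (ENNReal.ofReal (2 * (Real.sqrt 3 / 2) ^ n * ballVol n r) * vol n T)) := by
          gcongr
          exact h1
      _ = ENNReal.ofReal δ * (c * vol n T) := by
          rw [hδ, ← hD, show 2 * (Real.sqrt 3 / 2) ^ n * (lam * D) =
            lam * (2 * (Real.sqrt 3 / 2) ^ n * D) by ring, ENNReal.ofReal_mul hlam.le, ← hc]
          ring
  -- the real numbers
  have hsum' : (fun y => χ y + φ y) = fun _ => c := funext hsum
  have hE : ∫⁻ u, φ u * Z (vol n) (far n r) (fun y => (χ y + φ y) * far n r u y) ∂(vol n) =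
      ENNReal.ofReal (lam * D * w1) := by
    simp only [hsum, Z_far]
    rw [lintegral_mul_const _ hφm, hint, hw1, hc, ← ENNReal.ofReal_mul hlam.le,
      ← ENNReal.ofReal_mul (by positivity)]
  have hkey : ∀ q : ℝ, 0 ≤ q → ∃ N : ℝ, 0 ≤ N ∧ N ≤ lam * D * w1 + δ * N ∧
      Real.exp (-q) * (1 + q) * w ≤ w1 + Real.exp (-q) * N := by
    intro q hq
    obtain ⟨N, h1, h2, h3⟩ := low (μ := vol n) hF hχm P hPF hPm ⟨B, hBm, le_rfl, rfl⟩
      (ENNReal.ofReal δ) hloc hfin hPle q hq
    rw [hE] at h1
    rw [hsum', hw, hχ1, show Z (vol n) (far n r) (fun y => c * far n r 0 y) =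
      Z1 n r c from rfl, hw1] at h2
    rw [hsum', hw, hint] at h3
    have hN : N ≠ ∞ := (h3.trans_lt (ENNReal.mul_lt_top (ENNReal.mul_lt_top
      (lt_top_iff_ne_top.2 hcne) ENNReal.ofReal_lt_top) ENNReal.ofReal_lt_top)).ne
    refine ⟨N.toReal, ENNReal.toReal_nonneg, ?_, ?_⟩
    · rw [← ENNReal.ofReal_toReal hN, ← ENNReal.ofReal_mul hδ0,
        ← ENNReal.ofReal_add (by positivity) (by positivity)] at h1
      exact (ENNReal.ofReal_le_ofReal_iff (by positivity)).1 h1
    · rw [← ENNReal.ofReal_toReal hN, ← ENNReal.ofReal_mul (by positivity),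
        ← ENNReal.ofReal_mul (by positivity), ← ENNReal.ofReal_add (by positivity)
        (by positivity)] at h2
      exact (ENNReal.ofReal_le_ofReal_iff (by positivity)).1 h2
  -- choose `q = log (w / w1)`
  have hw1' : w1 ≤ w := by
    have h1 : Z1 n r c ≤ Z (vol n) (far n r) (fun _ => c) :=
      Z_mono fun y => mul_le_of_le_one_right (by simp) (hF.le_one 0 y)
    rw [hw, hw1] at h1
    exact (ENNReal.ofReal_le_ofReal_iff (by linarith)).1 h1
  have hq0 : 0 ≤ Real.log (w / w1) := Real.log_nonneg (by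
    rw [le_div_iff₀ (by linarith)]; linarith)
  obtain ⟨N, hN0, h1, h2⟩ := hkey _ hq0
  have hexp : Real.exp (-Real.log (w / w1)) = w1 / w := by
    rw [← Real.log_inv, Real.exp_log (by positivity), inv_div]
  rw [hexp] at h2
  have hwpos : 0 < w := by linarith
  have hw1pos : 0 < w1 := by linarith
  have h3 : w * Real.log (w / w1) ≤ N := by
    have h4 : w1 / w * (1 + Real.log (w / w1)) * w = w1 * (1 + Real.log (w / w1)) := by
      field_simp
    rw [h4] at h2
    have h5 : w1 * Real.log (w / w1) ≤ w1 / w * N := by linarith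
    have h6 : w1 * (w * Real.log (w / w1)) ≤ w1 * N := by
      have := mul_le_mul_of_nonneg_right h5 hwpos.le
      calc w1 * (w * Real.log (w / w1)) = w1 * Real.log (w / w1) * w := by ring
        _ ≤ w1 / w * N * w := this
        _ = w1 * N := by field_simp
    exact le_of_mul_le_mul_left h6 hw1pos
  rw [le_div_iff₀ hwpos]
  calc (1 - δ) * Real.log (w / w1) * w = (1 - δ) * (w * Real.log (w / w1)) := by ring
    _ ≤ (1 - δ) * N := mul_le_mul_of_nonneg_left h3 (by linarith)
    _ ≤ lam * D * w1 := by linarith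

end Pool.Agent.N549.HG
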