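import Pool.Agent.N549.HG.Rate3
import Pool.Agent.N424.HG.Canon

/-!
# Hard spheres on the torus: the number of configurations (canonical form)
-/

set_option autoImplicit false

namespace Pool.Agent.N549.HG

open MeasureTheory Set Finset Filter Topology
open scoped ENNReal NNReal

variable {n : ℕ} {r : ℝ}

theorem conf_anti (n : ℕ) (r : ℝ) : Antitone (conf n r) := by
  have hconf : S_CONF := Pool.Agent.N364.HG.conf_eq
  refine antitone_nat_of_succ_le fun k => ?_
  have h1 : A (vol n) (far n r) (k + 1) (fun _ => 1) ≤ A (vol n) (far n r) k (fun _ => 1) := by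
    simp only [A]
    calc ∫⁻ u, 1 * A (vol n) (far n r) k (fun y => 1 * far n r u y) ∂(vol n)
        ≤ ∫⁻ _u, A (vol n) (far n r) k (fun _ => 1) ∂(vol n) := by
          refine lintegral_mono fun u => ?_
          rw [one_mul]
          refine A_mono k fun y => ?_
          rw [one_mul]
          exact (far_adm n r).le_one u y
      _ = A (vol n) (far n r) k (fun _ => 1) := by simp
  rw [hconf, hconf] at h1
  exact (ENNReal.ofReal_le_ofReal_iff (conf_nonneg k)).1 h1

theorem ballVol_le (hn : 1 ≤ n) (hr : 0 < r) (hr4 : r ≤ 1 / 4) : ballVol n r ≤ (1 / 2) ^ n := by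
  have h1 : ballVol n (1 / 2) ≤ 1 := by
    have h2 := (Pool.Agent.N457.HG.Torus.torus n hn (1 / 2) (by norm_num) le_rfl).1 0
    have h3 : ENNReal.ofReal (ballVol n (1 / 2)) ≤ 1 := by rw [← h2]; exact prob_le_one
    exact ENNReal.ofReal_le_one.1 h3
  have h2 := Pool.Agent.N342.HG.ballVol_scale n (c := 2 * r) (by positivity) (1 / 2)
  have h3 : 2 * r * (1 / 2) = r := by ring
  rw [h3] at h2
  rw [h2]
  calc (2 * r) ^ n * ballVol n (1 / 2) ≤ (2 * r) ^ n * 1 :=
        mul_le_mul_of_nonneg_left h1 (by positivity)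
    _ = (2 * r) ^ n := mul_one _
    _ ≤ (1 / 2) ^ n := pow_le_pow_left₀ (by positivity) (by linarith) n

/-- **The canonical form.** -/
theorem canon_torus (hcont : S_CONT2) (ε : ℝ) (hε : 0 < ε) : ∃ n₀ : ℕ, ∀ n : ℕ, n₀ ≤ n →
    ∀ r : ℝ, 0 < r → r ≤ 1 / 4 → ∀ k : ℕ, ε ≤ k * ballVol n r →
      k * ballVol n r ≤ ((1 - Real.log 2) / 2 - ε) * n →
      0 < conf n r k ∧ |Real.log (conf n r k) + k ^ 2 * ballVol n r / 2| ≤
        ε * (k ^ 2 * ballVol n r) := by
  set X := (1 - Real.log 2) / 2 with hX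
  have hlog2 := Real.log_two_gt_d9
  have hlog2' := Real.log_two_lt_d9
  have hX0 : 0 < X := by rw [hX]; linarith
  have hX1 : X < 1 := by rw [hX]; linarith
  obtain ⟨ε₁, hε₁, D₀, hD₀, h1⟩ := Pool.Agent.N424.HG.canon ε hε
  -- choice of the margin
  obtain ⟨ε₂, hε₂, hm⟩ : ∃ ε₂ : ℝ, 0 < ε₂ ∧ (1 + ε) * (X - ε) ≤ X - 2 * ε₂ := by
    refine ⟨(ε * (1 - X) + ε ^ 2) / 2, by
      have : 0 < 1 - X := by linarith
      positivity, le_of_eq ?_⟩
    ring
  obtain ⟨n₁, h2⟩ := state2 hcont (min ε₁ ε₂) (lt_min hε₁ hε₂)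
  have t1 : Tendsto (fun n : ℕ => ((1 : ℝ) / 2) ^ n) atTop (𝓝 0) :=
    tendsto_pow_atTop_nhds_zero_of_lt_one (by norm_num) (by norm_num)
  have t2 : Tendsto (fun n : ℕ => (n : ℝ) * Real.exp (-ε₂) ^ n) atTop (𝓝 0) :=
    tendsto_self_mul_const_pow_of_lt_one (Real.exp_pos _).le (by
      rw [Real.exp_lt_one_iff]; linarith)
  obtain ⟨n₂, hn₂⟩ := Filter.eventually_atTop.1 ((t1.eventually_le_const hD₀).and
    (t2.eventually_le_const one_pos))
  refine ⟨max (max n₁ n₂) 1, fun n hn r hr hr4 k hk1 hk2 => ?_⟩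
  have hn1 : 1 ≤ n := (le_max_right _ _).trans hn
  have hnn1 : n₁ ≤ n := ((le_max_left _ _).trans (le_max_left _ _)).trans hn
  have hnn2 : n₂ ≤ n := ((le_max_right _ _).trans (le_max_left _ _)).trans hn
  obtain ⟨h3, h4⟩ := hn₂ n hnn2
  have hn0 : (0 : ℝ) < n := by exact_mod_cast hn1
  have hD := ballVol_pos (n := n) hr
  refine h1 (ballVol n r) ((X - 2 * ε₂) * n) hD ((ballVol_le hn1 hr hr4).trans h3) (conf n r)
    (conf_anti n r) (fun k => ⟨conf_nonneg k, conf_le_one k⟩) ?_ k hk1 ?_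
  · intro w hw hwX
    have h5 : w * Real.exp w ≤ Real.exp ((X - min ε₁ ε₂) * n) := by
      have h6 : w ≤ n := by
        have : (X - 2 * ε₂) * n ≤ 1 * n := mul_le_mul_of_nonneg_right (by linarith) hn0.le
        linarith
      have h7 : (n : ℝ) ≤ Real.exp (ε₂ * n) := by
        have h8 : Real.exp (-ε₂) ^ n = (Real.exp (ε₂ * n))⁻¹ := by
          rw [← Real.exp_nat_mul, ← Real.exp_neg]; congr 1; ring
        rw [h8, ← div_eq_mul_inv, div_le_one (Real.exp_pos _)] at h4
        exact h4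
      calc w * Real.exp w ≤ Real.exp (ε₂ * n) * Real.exp ((X - 2 * ε₂) * n) :=
            mul_le_mul (h6.trans h7) (Real.exp_le_exp.2 hwX) (Real.exp_pos _).le (Real.exp_pos _).le
        _ = Real.exp ((X - ε₂) * n) := by rw [← Real.exp_add]; congr 1; ring
        _ ≤ Real.exp ((X - min ε₁ ε₂) * n) := by
            apply Real.exp_le_exp.2
            have := min_le_right ε₁ ε₂
            exact mul_le_mul_of_nonneg_right (by linarith) hn0.le
    obtain ⟨-, h6⟩ := h2 n hnn1 r hr hr4 w hw h5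
    have h7 : Zr n r (act n r w) =
        ∑' k : ℕ, (w * Real.exp w / ballVol n r) ^ k / k.factorial * conf n r k := rfl
    rw [h7, abs_le] at h6
    have h8 : min ε₁ ε₂ ≤ ε₁ := min_le_left _ _
    have h9 : 0 ≤ w + w ^ 2 / 2 := by positivity
    have h10 := mul_le_mul_of_nonneg_right h8 h9
    constructor <;> linarith [h6.1, h6.2]
  · calc (1 + ε) * (k * ballVol n r) ≤ (1 + ε) * ((X - ε) * n) :=
          mul_le_mul_of_nonneg_left hk2 (by linarith)
      _ = (1 + ε) * (X - ε) * n := by ring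
      _ ≤ (X - 2 * ε₂) * n := mul_le_mul_of_nonneg_right hm hn0.le

end Pool.Agent.N549.HG
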