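import Mathlib

/-!
# Hard spheres on the torus: definitions
-/

set_option autoImplicit false

namespace Pool.Agent.N549.HG

open MeasureTheory Set Finset
open scoped ENNReal NNReal

/-! ### The hard sphere gas over an arbitrary measure space -/

/-- The integral over `k` points of `μ` with the weights `φ` of the points and `F` of the pairs. -/
noncomputable def A {Ω : Type} [MeasurableSpace Ω] (μ : Measure Ω) (F : Ω → Ω → ℝ≥0∞) :
    ℕ → (Ω → ℝ≥0∞) → ℝ≥0∞
  | 0, _ => 1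
  | k + 1, φ => ∫⁻ u, φ u * A μ F k (fun y => φ y * F u y) ∂μ

/-- The partition function. -/
noncomputable def Z {Ω : Type} [MeasurableSpace Ω] (μ : Measure Ω) (F : Ω → Ω → ℝ≥0∞)
    (φ : Ω → ℝ≥0∞) : ℝ≥0∞ := ∑' k : ℕ, A μ F k φ / (k.factorial : ℝ≥0∞)

/-- The integral over `j` outer points (weights `χ`) of a functional `Ψ` of the weight function `φ`
which is left over. -/
noncomputable def C {Ω : Type} [MeasurableSpace Ω] (μ : Measure Ω) (F : Ω → Ω → ℝ≥0∞)
    (Ψ : (Ω → ℝ≥0∞) → ℝ≥0∞) : ℕ → (Ω → ℝ≥0∞) → (Ω → ℝ≥0∞) → ℝ≥0∞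
  | 0, _, φ => Ψ φ
  | j + 1, χ, φ => ∫⁻ u, χ u * C μ F Ψ j (fun y => χ y * F u y) (fun y => φ y * F u y) ∂μ

/-- The sum over all outer configurations. -/
noncomputable def Ext {Ω : Type} [MeasurableSpace Ω] (μ : Measure Ω) (F : Ω → Ω → ℝ≥0∞)
    (Ψ : (Ω → ℝ≥0∞) → ℝ≥0∞) (χ φ : Ω → ℝ≥0∞) : ℝ≥0∞ :=
  ∑' j : ℕ, C μ F Ψ j χ φ / (j.factorial : ℝ≥0∞)

/-- Functionals which are measurable along measurable families. -/
def Nice {Ω : Type} [MeasurableSpace Ω] (Ψ : (Ω → ℝ≥0∞) → ℝ≥0∞) : Prop :=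
  ∀ (Θ : Type) [MeasurableSpace Θ] (φ : Θ → Ω → ℝ≥0∞), Measurable (Function.uncurry φ) →
    Measurable fun θ => Ψ (φ θ)

/-! ### The torus -/

/-- The flat torus of dimension `n` and volume one. -/
abbrev Torus (n : ℕ) : Type := Fin n → UnitAddCircle

/-- The volume on the torus. -/
noncomputable def vol (n : ℕ) : Measure (Torus n) :=
  Measure.pi fun _ => (AddCircle.haarAddCircle : Measure UnitAddCircle)

/-- The square of the distance of two points of the torus. -/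
noncomputable def sqd {n : ℕ} (x y : Torus n) : ℝ := ∑ i, ‖x i - y i‖ ^ 2

/-- The weight of a pair: `1` if the distance is at least `r`, `0` otherwise. -/
noncomputable def far (n : ℕ) (r : ℝ) (x y : Torus n) : ℝ≥0∞ :=
  if r ^ 2 ≤ sqd x y then 1 else 0

/-- The volume of the Euclidean ball of radius `r`. -/
noncomputable def ballVol (n : ℕ) (r : ℝ) : ℝ :=
  (volume (Metric.ball (0 : EuclideanSpace ℝ (Fin n)) r)).toReal

/-! ### The Fourier transform of the ball -/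

/-- `I_n(t) = ∫ cos (t sin φ) (cos φ)^n dφ` over `[-π/2, π/2]`. -/
noncomputable def In (n : ℕ) (t : ℝ) : ℝ :=
  ∫ φ in (-(Real.pi / 2))..(Real.pi / 2), Real.cos (t * Real.sin φ) * Real.cos φ ^ n

end Pool.Agent.N549.HG
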