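import Pool.Agent.N549.HG.Up2
import Pool.Agent.N755.HG.Link
import Pool.Agent.N27.HG.TP
import Pool.Agent.H818R2.Limit

/-!
# Hard spheres on the torus: the density of the gas at all activities and the packing density
-/

set_option autoImplicit false

namespace Pool.Agent.N549.HG

open MeasureTheory Set Finset Filter Topology
open scoped ENNReal NNReal

variable {n : ℕ} {r : ℝ}

/-- the expected fraction of the torus which is covered by the balls of radius `r / 2` around the
points of the gas at the activity `exp (x n) / ballVol n r` -/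
noncomputable def dens (n : ℕ) (r x : ℝ) : ℝ :=
  (1 / 2) ^ n * (ballVol n r * meanr n r (Real.exp (x * n) / ballVol n r))

theorem ballVol_half (hr : 0 < r) : ballVol n (r / 2) = (1 / 2) ^ n * ballVol n r := by
  have := Pool.Agent.N342.HG.ballVol_scale n (c := 1 / 2) (by norm_num) r
  rw [← this]; congr 1; ring

/-- configurations exist only up to the packing density -/
theorem conf_pos_le (hper : S_PER) (hn : 1 ≤ n) (hr : 0 < r) (hr1 : r ≤ 1) (k : ℕ)
    (h : 0 < conf n r k) : (k : ℝ) * ballVol n (r / 2) ≤ Pool.Agent.H818R2.rho n := by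
  unfold conf at h
  have h1 : {x : Fin k → Torus n | ∀ i j, i < j → r ^ 2 ≤ sqd (x i) (x j)}.Nonempty := by
    by_contra hne
    rw [Set.not_nonempty_iff_eq_empty] at hne
    rw [hne] at h
    simp at h
  obtain ⟨c, hc⟩ := h1
  refine hper n hn r hr hr1 k c fun i j hij => ?_
  rcases lt_or_gt_of_ne hij with h2 | h2
  · exact hc i j h2
  · rw [Pool.Agent.N342.HG.sqd_comm]
    exact hc j i h2

theorem mean_le (hper : S_PER) (hn : 1 ≤ n) (hr : 0 < r) (hr1 : r ≤ 1) (lam : ℝ)
    (hlam : 0 < lam) : (1 / 2) ^ n * (ballVol n r * meanr n r lam) ≤ Pool.Agent.H818R2.rho n := by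
  have hconf : S_CONF := Pool.Agent.N364.HG.conf_eq
  have hD := ballVol_pos (n := n) hr
  have hZ := Zr_ge_one (n := n) (r := r) hconf _ hlam.le
  have hb : 0 < ballVol n (r / 2) := ballVol_pos (by linarith)
  have h1 : ∀ k : ℕ, (k : ℝ) * (lam ^ k / k.factorial * conf n r k) ≤
      Pool.Agent.H818R2.rho n / ballVol n (r / 2) * (lam ^ k / k.factorial * conf n r k) := by
    intro k
    by_cases hk : 0 < conf n r k
    · refine mul_le_mul_of_nonneg_right ?_ (by positivity)
      rw [le_div_iff₀ hb]
      exact conf_pos_le hper hn hr hr1 k hk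
    · have : conf n r k = 0 := le_antisymm (not_lt.1 hk) (conf_nonneg k)
      rw [this]; simp
  have h2 := Summable.tsum_le_tsum h1 (summable_M lam hlam.le)
    ((summable_Z lam hlam.le).mul_left _)
  rw [tsum_mul_left] at h2
  have h3 : meanr n r lam ≤ Pool.Agent.H818R2.rho n / ballVol n (r / 2) := by
    unfold meanr
    rw [div_le_iff₀ (by linarith)]
    exact h2
  rw [← mul_assoc, ← ballVol_half hr]
  rw [le_div_iff₀ hb] at h3
  linarith

theorem dens_le_rho (hper : S_PER) (hn : 1 ≤ n) (hr : 0 < r) (hr1 : r ≤ 1) (x : ℝ) :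
    dens n r x ≤ Pool.Agent.H818R2.rho n :=
  mean_le hper hn hr hr1 _ (by have := ballVol_pos (n := n) hr; positivity)

/-- the mean is at least `L / (1 + L)` -/
theorem mean_ge_half (hr : 0 < r) (hn : 1 ≤ n) (hr2 : r ≤ 1 / 2) (lam : ℝ) (hlam : 0 < lam) :
    lam * ballVol n r / (1 + lam * ballVol n r) ≤ ballVol n r * meanr n r lam := by
  have hF := far_adm n r
  have hconf : S_CONF := Pool.Agent.N364.HG.conf_eq
  have hD := ballVol_pos (n := n) hr
  set D := ballVol n r with hDdef
  obtain ⟨w1, h1, h2, h3, h4⟩ := at_lam (n := n) (r := r) hconf _ hlam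
  have hZ := Zr_ge_one (n := n) (r := r) hconf _ hlam.le
  set w := Zr n r lam with hw
  have hw1 : 0 < w1 := by linarith
  have hwp : 0 < w := by linarith
  set c : ℝ≥0∞ := ENNReal.ofReal lam with hc
  set B : Set (Torus n) := near n r 0 with hB
  have hBm : MeasurableSet B := meas_near 0
  have hBv : vol n B = ENNReal.ofReal D := by
    rw [hDdef]; exact (Pool.Agent.N457.HG.Torus.torus n hn r hr hr2).1 0
  set φ : Torus n → ℝ≥0∞ := B.indicator fun _ => c with hφ
  set χ : Torus n → ℝ≥0∞ := Bᶜ.indicator fun _ => c with hχ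
  have hφm : Measurable φ := measurable_const.indicator hBm
  have hχm : Measurable χ := measurable_const.indicator hBm.compl
  have hsum : ∀ y, χ y + φ y = c := by
    intro y
    by_cases hy : y ∈ B
    · rw [hχ, hφ, Set.indicator_of_mem hy, Set.indicator_of_notMem (by simpa using hy), zero_add]
    · rw [hχ, hφ, Set.indicator_of_notMem hy, Set.indicator_of_mem (by simpa using hy), add_zero]
  have hχ1 : χ = fun y => c * far n r 0 y := by
    have h1 := mul_far (r := r) (univ : Set (Torus n)) c 0
    have h2 : (univ : Set (Torus n)) \ near n r 0 = Bᶜ := by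
      rw [hB, Set.compl_eq_univ_sdiff]
    rw [h2] at h1
    rw [hχ, ← h1]
    funext y
    rw [Set.indicator_of_mem (mem_univ y)]
  have hint : ∫⁻ y, φ y ∂(vol n) = c * ENNReal.ofReal D := by
    rw [hφ, lintegral_indicator_const hBm, hBv]
  have hsum' : (fun y => χ y + φ y) = fun _ => c := funext hsum
  have hE : ∫⁻ u, φ u * Z (vol n) (far n r) (fun y => (χ y + φ y) * far n r u y) ∂(vol n) =
      ENNReal.ofReal (lam * D * w1) := by
    simp only [hsum, Z_far]
    rw [lintegral_mul_const _ hφm, hint, h3, hc, ← ENNReal.ofReal_mul hlam.le,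
      ← ENNReal.ofReal_mul (by positivity)]
  have hχZ : Z (vol n) (far n r) χ = ENNReal.ofReal w1 := by
    rw [hχ1, ← h3]; rfl
  have h5 := Z_add_le (μ := vol n) hF hχm hφm
  rw [hE, hsum', Z_const hconf lam hlam.le, ← hw, hχZ,
    ← ENNReal.ofReal_add hw1.le (by positivity)] at h5
  have h6 := (ENNReal.ofReal_le_ofReal_iff (by positivity)).1 h5
  rw [h4, div_le_iff₀ (by positivity)]
  have h7 : 1 ≤ w1 / w * (1 + lam * D) := by
    rw [div_mul_eq_mul_div, le_div_iff₀ hwp]
    linarith
  calc lam * D = lam * D * 1 := by ring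
    _ ≤ lam * D * (w1 / w * (1 + lam * D)) := mul_le_mul_of_nonneg_left h7 (by positivity)
    _ = D * (lam * w1 / w) * (1 + lam * D) := by field_simp

theorem dens_ge_half (hr : 0 < r) (hn : 1 ≤ n) (hr2 : r ≤ 1 / 2) (x : ℝ) (hx : 0 ≤ x) :
    (1 / 2) ^ (n + 1) ≤ dens n r x := by
  have hD := ballVol_pos (n := n) hr
  have h1 := mean_ge_half hr hn hr2 (Real.exp (x * n) / ballVol n r) (by positivity)
  have h2 : Real.exp (x * n) / ballVol n r * ballVol n r = Real.exp (x * n) := by field_simp
  rw [h2] at h1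
  have h3 : (1 : ℝ) / 2 ≤ Real.exp (x * n) / (1 + Real.exp (x * n)) := by
    have h4 : 1 ≤ Real.exp (x * n) := Real.one_le_exp (by positivity)
    rw [le_div_iff₀ (by positivity)]
    linarith
  unfold dens
  rw [pow_succ]
  exact mul_le_mul_of_nonneg_left (h3.trans h1) (by positivity)

/-- from a packing with larger distances to the gas -/
theorem dens_ge_pack (hn : 1 ≤ n) (hr : 0 < r) (hr2 : r ≤ 1 / 2) (s x : ℝ) (hs : 1 < s)
    (hs2 : s ≤ 3) (hx : 0 < x) (hxs : 0 ≤ x + Real.log ((s - 1) / 2)) (N : ℕ)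
    (c : Fin N → Torus n) (hc : ∀ i j, i ≠ j → (s * r) ^ 2 ≤ sqd (c i) (c j)) :
    (N : ℝ) * ballVol n (s * r / 2) * (1 / s) ^ n * ((x + Real.log ((s - 1) / 2)) / x) -
      (1 / 2) ^ n / (x * n) ≤ dens n r x := by
  have hconf : S_CONF := Pool.Agent.N364.HG.conf_eq
  have hD := ballVol_pos (n := n) hr
  set D := ballVol n r with hDdef
  have hn0 : (0 : ℝ) < n := by exact_mod_cast hn
  set ρ := (s - 1) / 2 * r with hρ
  have hs0 : 0 < (s - 1) / 2 := by linarith
  have hρ0 : 0 < ρ := by positivity
  have hρ2 : ρ ≤ 1 / 2 := by rw [hρ]; nlinarith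
  have h1 := Pool.Agent.N755.HG.link n hn r ρ hr hρ0 hρ2 N c (by
    intro i j hij
    have : r + 2 * ρ = s * r := by rw [hρ]; ring
    rw [this]; exact hc i j hij)
  set lam := Real.exp (x * n) / D with hlam
  have hlam0 : 0 < lam := by positivity
  have hZ := Zr_ge_one (n := n) (r := r) hconf _ hlam0.le
  -- one term of the series
  have h2 : lam ^ N / N.factorial * conf n r N ≤ Zr n r lam := by
    unfold Zr
    exact (summable_Z lam hlam0.le).le_tsum N fun k _ => mul_nonneg (by positivity) (conf_nonneg k)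
  have hN : (0 : ℝ) < N.factorial := by exact_mod_cast N.factorial_pos
  have h3 : (lam * ballVol n ρ) ^ N ≤ Zr n r lam := by
    refine le_trans ?_ h2
    calc (lam * ballVol n ρ) ^ N = lam ^ N / N.factorial * (N.factorial * ballVol n ρ ^ N) := by
          rw [mul_pow]; field_simp
      _ ≤ _ := mul_le_mul_of_nonneg_left h1 (by positivity)
  have h4 : lam * ballVol n ρ = Real.exp (n * (x + Real.log ((s - 1) / 2))) := by
    rw [hρ, Pool.Agent.N342.HG.ballVol_scale n hs0 r, hlam, ← hDdef, mul_add, Real.exp_add,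
      show (n : ℝ) * Real.log ((s - 1) / 2) = Real.log (((s - 1) / 2) ^ n) by
        rw [Real.log_pow], Real.exp_log (by positivity)]
    rw [mul_comm (n : ℝ) x]
    field_simp
  have h5 : (N : ℝ) * (n * (x + Real.log ((s - 1) / 2))) ≤ Real.log (Zr n r lam) := by
    rw [h4, ← Real.exp_nat_mul] at h3
    have := Real.log_le_log (Real.exp_pos _) h3
    rwa [Real.log_exp] at this
  -- the partition function and the mean
  have h6 := conv_gas (n := n) (r := r) hconf lam (1 / D) hlam0 (by positivity)
  have h7 : Real.log (1 / D / lam) = -(x * n) := by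
    have : 1 / D / lam = Real.exp (-(x * n)) := by
      rw [hlam, Real.exp_neg]; field_simp
    rw [this, Real.log_exp]
  have h8 : Real.log (Zr n r (1 / D)) ≤ 1 / D := by
    have h9 := Z_le_exp (μ := vol n) (far_adm n r) (fun _ => ENNReal.ofReal (1 / D)) (1 / D)
      (by positivity) (by simp)
    rw [Z_const hconf _ (by positivity)] at h9
    have h10 := (ENNReal.ofReal_le_ofReal_iff (Real.exp_pos _).le).1 h9
    have h11 := Zr_ge_one (n := n) (r := r) hconf (1 / D) (by positivity)
    have := Real.log_le_log (by linarith) h10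
    rwa [Real.log_exp] at this
  rw [h7] at h6
  have h9 : Real.log (Zr n r lam) ≤ 1 / D + x * n * meanr n r lam := by linarith
  have h10 : (N : ℝ) * (n * (x + Real.log ((s - 1) / 2))) ≤ 1 / D + x * n * meanr n r lam :=
    h5.trans h9
  have h11 : (N : ℝ) * D * ((x + Real.log ((s - 1) / 2)) / x) - 1 / (x * n) ≤
      D * meanr n r lam := by
    have h12 := mul_le_mul_of_nonneg_left h10 (show 0 ≤ D / (x * n) by positivity)
    have e1 : D / (x * n) * (N * (n * (x + Real.log ((s - 1) / 2)))) =
        N * D * ((x + Real.log ((s - 1) / 2)) / x) := by field_simp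
    have e2 : D / (x * n) * (1 / D + x * n * meanr n r lam) =
        1 / (x * n) + D * meanr n r lam := by field_simp
    rw [e1, e2] at h12
    linarith
  have e3 : ballVol n (s * r / 2) * (1 / s) ^ n = (1 / 2) ^ n * D := by
    have h12 := Pool.Agent.N342.HG.ballVol_scale n (c := s / 2) (by positivity) r
    rw [show s * r / 2 = s / 2 * r by ring, h12, ← hDdef]
    rw [show (1 / 2 : ℝ) ^ n = (s / 2) ^ n * (1 / s) ^ n by
      rw [← mul_pow]; congr 1; field_simp]
    ring
  unfold dens
  rw [← hDdef, ← hlam]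
  have h13 := mul_le_mul_of_nonneg_left h11 (show (0 : ℝ) ≤ (1 / 2) ^ n by positivity)
  refine le_trans (le_of_eq ?_) h13
  rw [show (N : ℝ) * ballVol n (s * r / 2) * (1 / s) ^ n =
    N * (ballVol n (s * r / 2) * (1 / s) ^ n) by ring, e3]
  field_simp

end Pool.Agent.N549.HG
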