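import Pool.Agent.N549.HG.Stm

/-!
# Hard spheres: the algebra of the gas
-/

set_option autoImplicit false

namespace Pool.Agent.N549.HG

open MeasureTheory Set Finset
open scoped ENNReal NNReal

variable {Ω : Type} [MeasurableSpace Ω] {μ : Measure Ω} {F : Ω → Ω → ℝ≥0∞}

theorem nice_one : Nice (Ω := Ω) (fun _ => 1) := fun _ _ _ _ => measurable_const

theorem nice_A [SFinite μ] (hF : Adm F) (k : ℕ) : Nice (A μ F k) := by
  induction k with
  | zero => exact nice_one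
  | succ k ih =>
    intro Θ _ φ hφ
    simp only [A]
    have h1 : Measurable (Function.uncurry fun (p : Θ × Ω) (y : Ω) => φ p.1 y * F p.2 y) := by
      have h2 : Measurable fun q : (Θ × Ω) × Ω => φ q.1.1 q.2 :=
        hφ.comp ((measurable_fst.comp measurable_fst).prodMk measurable_snd)
      have h3 : Measurable fun q : (Θ × Ω) × Ω => F q.1.2 q.2 :=
        hF.meas.comp ((measurable_snd.comp measurable_fst).prodMk measurable_snd)
      exact h2.mul h3
    have h2 := ih (Θ × Ω) _ h1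
    have h3 : Measurable fun p : Θ × Ω => φ p.1 p.2 * A μ F k (fun y => φ p.1 y * F p.2 y) :=
      hφ.mul h2
    exact h3.lintegral_prod_right'

theorem nice_tsum {Ψ : ℕ → (Ω → ℝ≥0∞) → ℝ≥0∞} (h : ∀ k, Nice (Ψ k)) :
    Nice (fun φ => ∑' k, Ψ k φ) := fun Θ _ φ hφ =>
  Measurable.tsum fun k => h k Θ φ hφ

theorem nice_div {Ψ : (Ω → ℝ≥0∞) → ℝ≥0∞} (h : Nice Ψ) (c : ℝ≥0∞) : Nice (fun φ => Ψ φ / c) :=
  fun Θ _ φ hφ => (h Θ φ hφ).div_const c

theorem nice_Z [SFinite μ] (hF : Adm F) : Nice (Z μ F) :=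
  nice_tsum fun k => nice_div (nice_A hF k) _

theorem Nice.meas {Ψ : (Ω → ℝ≥0∞) → ℝ≥0∞} (h : Nice Ψ) (hF : Adm F) {φ : Ω → ℝ≥0∞}
    (hφ : Measurable φ) : Measurable fun u => Ψ (fun y => φ y * F u y) := by
  refine h Ω (fun u y => φ y * F u y) ?_
  exact (hφ.comp measurable_snd).mul hF.meas

theorem meas_mul (hF : Adm F) {φ : Ω → ℝ≥0∞} (hφ : Measurable φ) (u : Ω) :
    Measurable fun y => φ y * F u y :=
  hφ.mul (hF.meas.comp (measurable_const.prodMk measurable_id))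

/-- joint niceness of `C` in both weights -/
theorem nice_C [SFinite μ] (hF : Adm F) {Ψ : (Ω → ℝ≥0∞) → ℝ≥0∞} (hΨ : Nice Ψ) (j : ℕ) :
    ∀ (Θ : Type) [MeasurableSpace Θ] (χ φ : Θ → Ω → ℝ≥0∞), Measurable (Function.uncurry χ) →
      Measurable (Function.uncurry φ) → Measurable fun θ => C μ F Ψ j (χ θ) (φ θ) := by
  induction j with
  | zero => intro Θ _ χ φ _ hφ; exact hΨ Θ φ hφ
  | succ j ih =>
    intro Θ _ χ φ hχ hφ
    simp only [C]
    have h3 : Measurable fun q : (Θ × Ω) × Ω => F q.1.2 q.2 :=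
      hF.meas.comp ((measurable_snd.comp measurable_fst).prodMk measurable_snd)
    have h1 : ∀ ψ : Θ → Ω → ℝ≥0∞, Measurable (Function.uncurry ψ) →
        Measurable (Function.uncurry fun (p : Θ × Ω) (y : Ω) => ψ p.1 y * F p.2 y) := by
      intro ψ hψ
      have h2 : Measurable fun q : (Θ × Ω) × Ω => ψ q.1.1 q.2 :=
        hψ.comp ((measurable_fst.comp measurable_fst).prodMk measurable_snd)
      exact h2.mul h3
    have h2 := ih (Θ × Ω) _ _ (h1 χ hχ) (h1 φ hφ)
    have h4 : Measurable fun p : Θ × Ω => χ p.1 p.2 *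
        C μ F Ψ j (fun y => χ p.1 y * F p.2 y) (fun y => φ p.1 y * F p.2 y) := hχ.mul h2
    exact h4.lintegral_prod_right'

theorem C_meas [SFinite μ] (hF : Adm F) {Ψ : (Ω → ℝ≥0∞) → ℝ≥0∞} (hΨ : Nice Ψ) (j : ℕ)
    {χ φ : Ω → ℝ≥0∞} (hχ : Measurable χ) (hφ : Measurable φ) :
    Measurable fun u => C μ F Ψ j (fun y => χ y * F u y) (fun y => φ y * F u y) :=
  nice_C hF hΨ j Ω (fun u y => χ y * F u y) (fun u y => φ y * F u y)
    ((hχ.comp measurable_snd).mul hF.meas) ((hφ.comp measurable_snd).mul hF.meas)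

theorem C_meas' [SFinite μ] (hF : Adm F) {Ψ : (Ω → ℝ≥0∞) → ℝ≥0∞} (hΨ : Nice Ψ) (j : ℕ)
    {χ φ : Ω → ℝ≥0∞} (hχ : Measurable χ) (hφ : Measurable φ) :
    Measurable fun u => χ u * C μ F Ψ j (fun y => χ y * F u y) (fun y => φ y * F u y) :=
  hχ.mul (C_meas hF hΨ j hχ hφ)

theorem C_mono {Ψ Ψ' : (Ω → ℝ≥0∞) → ℝ≥0∞} 
    (P : (Ω → ℝ≥0∞) → Prop) (hP : ∀ φ, P φ → ∀ u, P (fun y => φ y * F u y))
    (h : ∀ φ, P φ → Ψ φ ≤ Ψ' φ) (j : ℕ) (χ φ : Ω → ℝ≥0∞) (hφ : P φ) :
    C μ F Ψ j χ φ ≤ C μ F Ψ' j χ φ := by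
  induction j generalizing χ φ with
  | zero => exact h φ hφ
  | succ j ih =>
    simp only [C]
    exact lintegral_mono fun u => mul_le_mul' le_rfl (ih _ _ (hP φ hφ u))

theorem C_add [SFinite μ] (hF : Adm F) {Ψ Ψ' : (Ω → ℝ≥0∞) → ℝ≥0∞} (h : Nice Ψ) (j : ℕ)
    (χ φ : Ω → ℝ≥0∞) (hχ : Measurable χ) (hφ : Measurable φ) :
    C μ F (fun ψ => Ψ ψ + Ψ' ψ) j χ φ = C μ F Ψ j χ φ + C μ F Ψ' j χ φ := by
  induction j generalizing χ φ with
  | zero => rfl
  | succ j ih =>
    simp only [C]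
    have h1 := C_meas' (μ := μ) hF h j hχ hφ
    rw [← lintegral_add_left h1]
    refine lintegral_congr fun u => ?_
    rw [ih _ _ (meas_mul hF hχ u) (meas_mul hF hφ u), mul_add]

theorem C_const_mul [SFinite μ] (hF : Adm F) {Ψ : (Ω → ℝ≥0∞) → ℝ≥0∞} (h : Nice Ψ) (c : ℝ≥0∞)
    (j : ℕ) (χ φ : Ω → ℝ≥0∞) (hχ : Measurable χ) (hφ : Measurable φ) :
    C μ F (fun ψ => c * Ψ ψ) j χ φ = c * C μ F Ψ j χ φ := by
  induction j generalizing χ φ with
  | zero => rfl
  | succ j ih =>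
    simp only [C]
    have h1 := C_meas' (μ := μ) hF h j hχ hφ
    rw [← lintegral_const_mul _ h1]
    refine lintegral_congr fun u => ?_
    rw [ih _ _ (meas_mul hF hχ u) (meas_mul hF hφ u)]
    ring

theorem C_tsum [SFinite μ] (hF : Adm F) {Ψ : ℕ → (Ω → ℝ≥0∞) → ℝ≥0∞} (h : ∀ k, Nice (Ψ k))
    (j : ℕ) (χ φ : Ω → ℝ≥0∞) (hχ : Measurable χ) (hφ : Measurable φ) :
    C μ F (fun ψ => ∑' k, Ψ k ψ) j χ φ = ∑' k, C μ F (Ψ k) j χ φ := by
  induction j generalizing χ φ with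
  | zero => rfl
  | succ j ih =>
    simp only [C]
    have h1 := fun k => C_meas' (μ := μ) hF (h k) j hχ hφ
    rw [← lintegral_tsum fun k => (h1 k).aemeasurable]
    refine lintegral_congr fun u => ?_
    rw [ih _ _ (meas_mul hF hχ u) (meas_mul hF hφ u), ENNReal.tsum_mul_left]

theorem C_one (j : ℕ) (χ φ : Ω → ℝ≥0∞) : C μ F (fun _ => 1) j χ φ = A μ F j χ := by
  induction j generalizing χ φ with
  | zero => rfl
  | succ j ih => simp only [C, A, ih]

/-- an inner point may be chosen first -/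
theorem C_swap [SFinite μ] (hF : Adm F) {Ψ : (Ω → ℝ≥0∞) → ℝ≥0∞} (h : Nice Ψ) (j : ℕ)
    (χ φ : Ω → ℝ≥0∞) (hχ : Measurable χ) (hφ : Measurable φ) :
    ∫⁻ u, φ u * C μ F Ψ j (fun y => χ y * F u y) (fun y => φ y * F u y) ∂μ =
      C μ F (fun ψ => ∫⁻ u, ψ u * Ψ (fun y => ψ y * F u y) ∂μ) j χ φ := by
  induction j generalizing χ φ with
  | zero => rfl
  | succ j ih =>
    simp only [C]
    have h1 : ∀ u : Ω, ∫⁻ v, χ v * C μ F (fun ψ => ∫⁻ u, ψ u * Ψ (fun y => ψ y * F u y) ∂μ) j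
          (fun y => χ y * F v y) (fun y => φ y * F v y) ∂μ =
        ∫⁻ v, χ v * ∫⁻ u, (φ u * F v u) * C μ F Ψ j (fun y => χ y * F v y * F u y)
          (fun y => φ y * F v y * F u y) ∂μ ∂μ := by
      intro u
      refine lintegral_congr fun v => ?_
      rw [← ih _ _ (meas_mul hF hχ v) (meas_mul hF hφ v)]
    by_cases hΩ : Nonempty Ω
    swap
    · rw [not_nonempty_iff] at hΩ
      simp
    obtain ⟨u₀⟩ := hΩ
    rw [h1 u₀]
    have h3 : Measurable fun q : Ω × Ω => C μ F Ψ j (fun y => χ y * F q.1 y * F q.2 y)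
        (fun y => φ y * F q.1 y * F q.2 y) := by
      have h4 : Measurable fun p : (Ω × Ω) × Ω => F p.1.1 p.2 :=
        hF.meas.comp ((measurable_fst.comp measurable_fst).prodMk measurable_snd)
      have h5 : Measurable fun p : (Ω × Ω) × Ω => F p.1.2 p.2 :=
        hF.meas.comp ((measurable_snd.comp measurable_fst).prodMk measurable_snd)
      exact nice_C hF h j (Ω × Ω) (fun q y => χ y * F q.1 y * F q.2 y)
        (fun q y => φ y * F q.1 y * F q.2 y)
        (((hχ.comp measurable_snd).mul h4).mul h5) (((hφ.comp measurable_snd).mul h4).mul h5)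
    have h6 : ∀ v : Ω, χ v * ∫⁻ u, (φ u * F v u) * C μ F Ψ j (fun y => χ y * F v y * F u y)
          (fun y => φ y * F v y * F u y) ∂μ =
        ∫⁻ u, χ v * ((φ u * F v u) * C μ F Ψ j (fun y => χ y * F v y * F u y)
          (fun y => φ y * F v y * F u y)) ∂μ := by
      intro v
      rw [lintegral_const_mul]
      exact (meas_mul hF hφ v).mul (h3.comp (measurable_const.prodMk measurable_id))
    have h7 : ∀ u : Ω, φ u * ∫⁻ v, χ v * F u v * C μ F Ψ j (fun y => χ y * F u y * F v y)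
          (fun y => φ y * F u y * F v y) ∂μ =
        ∫⁻ v, φ u * (χ v * F u v * C μ F Ψ j (fun y => χ y * F u y * F v y)
          (fun y => φ y * F u y * F v y)) ∂μ := by
      intro u
      rw [lintegral_const_mul]
      exact (meas_mul hF hχ u).mul (h3.comp (measurable_const.prodMk measurable_id))
    simp only [h6, h7]
    rw [lintegral_lintegral_swap]
    · refine lintegral_congr fun v => lintegral_congr fun u => ?_
      rw [hF.symm u v]
      have e1 : (fun y => χ y * F u y * F v y) = fun y => χ y * F v y * F u y := by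
        funext y; ring
      have e2 : (fun y => φ y * F u y * F v y) = fun y => φ y * F v y * F u y := by
        funext y; ring
      rw [e1, e2]
      ring
    · apply Measurable.aemeasurable
      have h8 : Measurable fun q : Ω × Ω => χ q.2 * F q.1 q.2 :=
        (hχ.comp measurable_snd).mul hF.meas
      exact (hφ.comp measurable_fst).mul (h8.mul h3)

end Pool.Agent.N549.HG
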