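import Pool.Agent.N549.HG.Split

/-!
# Hard spheres: basic inequalities and the lower bound for the density
-/

set_option autoImplicit false

namespace Pool.Agent.N549.HG

open MeasureTheory Set Finset
open scoped ENNReal NNReal

variable {Ω : Type} [MeasurableSpace Ω] {μ : Measure Ω} {F : Ω → Ω → ℝ≥0∞}

theorem A_mono (k : ℕ) {φ ψ : Ω → ℝ≥0∞} (h : ∀ y, φ y ≤ ψ y) : A μ F k φ ≤ A μ F k ψ := by
  induction k generalizing φ ψ with
  | zero => exact le_rfl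
  | succ k ih =>
    simp only [A]
    exact lintegral_mono fun u => mul_le_mul' (h u) (ih fun y => mul_le_mul' (h y) le_rfl)

theorem Z_mono {φ ψ : Ω → ℝ≥0∞} (h : ∀ y, φ y ≤ ψ y) : Z μ F φ ≤ Z μ F ψ :=
  ENNReal.tsum_le_tsum fun k => ENNReal.div_le_div_right (A_mono k h) _

theorem one_le_Z (φ : Ω → ℝ≥0∞) : 1 ≤ Z μ F φ := by
  have h := ENNReal.le_tsum (f := fun k : ℕ => A μ F k φ / (k.factorial : ℝ≥0∞)) 0
  simpa [A, Z] using h

theorem A_le_pow (hF : Adm F) (k : ℕ) (φ : Ω → ℝ≥0∞) : A μ F k φ ≤ (∫⁻ y, φ y ∂μ) ^ k := by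
  induction k generalizing φ with
  | zero => simp [A]
  | succ k ih =>
    simp only [A]
    calc ∫⁻ u, φ u * A μ F k (fun y => φ y * F u y) ∂μ
        ≤ ∫⁻ u, φ u * (∫⁻ y, φ y ∂μ) ^ k ∂μ := by
          refine lintegral_mono fun u => mul_le_mul' le_rfl ?_
          refine (A_mono k fun y => ?_).trans (ih φ)
          exact mul_le_of_le_one_right (by simp) (hF.le_one u y)
      _ ≤ (∫⁻ y, φ y ∂μ) ^ (k + 1) := by
          by_cases hφ : (∫⁻ y, φ y ∂μ) = ∞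
          · rw [hφ, ENNReal.top_pow (Nat.succ_ne_zero k)]; exact le_top
          · rw [lintegral_mul_const' _ _ (ENNReal.pow_ne_top hφ), pow_succ, mul_comm]

theorem tsum_pow_fac (x : ℝ) (hx : 0 ≤ x) :
    ∑' k : ℕ, ENNReal.ofReal x ^ k / (k.factorial : ℝ≥0∞) = ENNReal.ofReal (Real.exp x) := by
  have h1 : ∀ k : ℕ, ENNReal.ofReal x ^ k / (k.factorial : ℝ≥0∞) =
      ENNReal.ofReal (x ^ k / k.factorial) := by
    intro k
    rw [ENNReal.ofReal_div_of_pos (by positivity), ENNReal.ofReal_pow hx, ENNReal.ofReal_natCast]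
  simp only [h1]
  rw [← ENNReal.ofReal_tsum_of_nonneg (fun k => by positivity) (Real.summable_pow_div_factorial x),
    Real.exp_eq_exp_ℝ, NormedSpace.exp_eq_tsum_div]

theorem Z_le_exp (hF : Adm F) (φ : Ω → ℝ≥0∞) (x : ℝ) (hx : 0 ≤ x)
    (h : ∫⁻ y, φ y ∂μ ≤ ENNReal.ofReal x) : Z μ F φ ≤ ENNReal.ofReal (Real.exp x) := by
  rw [← tsum_pow_fac x hx]
  exact ENNReal.tsum_le_tsum fun k => ENNReal.div_le_div_right
    ((A_le_pow hF k φ).trans (pow_le_pow_left' h k)) _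

/-- the mean number of points times `Z` -/
noncomputable def Mn (μ : Measure Ω) (F : Ω → Ω → ℝ≥0∞) (φ : Ω → ℝ≥0∞) : ℝ≥0∞ :=
  ∫⁻ u, φ u * Z μ F (fun y => φ y * F u y) ∂μ

theorem Mn_eq [SFinite μ] (hF : Adm F) {φ : Ω → ℝ≥0∞} (hφ : Measurable φ) :
    Mn μ F φ = ∑' k : ℕ, A μ F (k + 1) φ / (k.factorial : ℝ≥0∞) := by
  have h1 : ∀ k : ℕ, Measurable fun u => φ u *
      (A μ F k (fun y => φ y * F u y) / (k.factorial : ℝ≥0∞)) := fun k =>
    hφ.mul (((nice_A (μ := μ) hF k).meas hF hφ).div_const _)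
  simp only [Mn, Z, ← ENNReal.tsum_mul_left]
  rw [lintegral_tsum fun k => (h1 k).aemeasurable]
  refine tsum_congr fun k => ?_
  simp only [A]
  rw [ENNReal.div_eq_inv_mul, ← lintegral_const_mul' _ _ (ENNReal.inv_ne_top.2 (fac_ne k))]
  refine lintegral_congr fun u => ?_
  rw [ENNReal.div_eq_inv_mul]
  ring

theorem Z_le_one_add [SFinite μ] (hF : Adm F) {φ : Ω → ℝ≥0∞} (hφ : Measurable φ) :
    Z μ F φ ≤ 1 + Mn μ F φ := by
  rw [Mn_eq hF hφ, Z, tsum_eq_zero_add' ENNReal.summable]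
  refine add_le_add (by simp [A]) ?_
  refine ENNReal.tsum_le_tsum fun k => ENNReal.div_le_div_left ?_ _
  exact_mod_cast Nat.factorial_le (Nat.le_succ k)

theorem Ext_mono {Ψ Ψ' : (Ω → ℝ≥0∞) → ℝ≥0∞} (P : (Ω → ℝ≥0∞) → Prop)
    (hP : ∀ φ, P φ → ∀ u, P (fun y => φ y * F u y)) (h : ∀ φ, P φ → Ψ φ ≤ Ψ' φ)
    (χ φ : Ω → ℝ≥0∞) (hφ : P φ) : Ext μ F Ψ χ φ ≤ Ext μ F Ψ' χ φ :=
  ENNReal.tsum_le_tsum fun j => ENNReal.div_le_div_right (C_mono P hP h j χ φ hφ) _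

theorem Ext_add [SFinite μ] (hF : Adm F) {Ψ Ψ' : (Ω → ℝ≥0∞) → ℝ≥0∞} (h : Nice Ψ)
    {χ φ : Ω → ℝ≥0∞} (hχ : Measurable χ) (hφ : Measurable φ) :
    Ext μ F (fun ψ => Ψ ψ + Ψ' ψ) χ φ = Ext μ F Ψ χ φ + Ext μ F Ψ' χ φ := by
  simp only [Ext]
  rw [← ENNReal.tsum_add]
  refine tsum_congr fun j => ?_
  rw [C_add (μ := μ) hF h j χ φ hχ hφ, ENNReal.add_div]

theorem Ext_const_mul [SFinite μ] (hF : Adm F) {Ψ : (Ω → ℝ≥0∞) → ℝ≥0∞} (h : Nice Ψ)
    (c : ℝ≥0∞) {χ φ : Ω → ℝ≥0∞} (hχ : Measurable χ) (hφ : Measurable φ) :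
    Ext μ F (fun ψ => c * Ψ ψ) χ φ = c * Ext μ F Ψ χ φ := by
  simp only [Ext]
  rw [← ENNReal.tsum_mul_left]
  refine tsum_congr fun j => ?_
  rw [C_const_mul (μ := μ) hF h c j χ φ hχ hφ, ENNReal.div_eq_inv_mul, ENNReal.div_eq_inv_mul]
  ring

/-- the union bound -/
theorem Z_add_le [SFinite μ] (hF : Adm F) {χ φ : Ω → ℝ≥0∞} (hχ : Measurable χ)
    (hφ : Measurable φ) : Z μ F (fun y => χ y + φ y) ≤
      Z μ F χ + ∫⁻ u, φ u * Z μ F (fun y => (χ y + φ y) * F u y) ∂μ := by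
  rw [split_Z hF χ φ hχ hφ, split_mean hF χ φ hχ hφ, split_one (μ := μ) (F := F) χ φ,
    ← Ext_add hF nice_one hχ hφ]
  exact Ext_mono (fun ψ => Measurable ψ) (fun ψ hψ u => meas_mul hF hψ u)
    (fun ψ hψ => Z_le_one_add hF hψ) χ φ hφ

/-- removing the points near `u` -/
theorem Z_le_near [SFinite μ] (hF : Adm F) {ψ : Ω → ℝ≥0∞} (hψ : Measurable ψ) (u : Ω) :
    Z μ F ψ ≤ Z μ F (fun y => ψ y * F u y) +
      Z μ F ψ * ∫⁻ y, ψ y * (1 - F u y) ∂μ := by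
  have hFu : Measurable (F u) := hF.meas.comp (measurable_const.prodMk measurable_id)
  have h2 : Measurable fun y => ψ y * (1 - F u y) := hψ.mul (measurable_const.sub hFu)
  have h3 : (fun y => ψ y * F u y + ψ y * (1 - F u y)) = ψ := by
    funext y
    rw [← mul_add, add_tsub_cancel_of_le (hF.le_one u y), mul_one]
  have h1 := Z_add_le (μ := μ) hF (meas_mul hF hψ u) h2
  rw [h3] at h1
  have h4 : ∀ y, ψ y * F u y + ψ y * (1 - F u y) = ψ y := fun y => congrFun h3 y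
  simp only [h4] at h1
  refine h1.trans (add_le_add le_rfl ?_)
  calc ∫⁻ w, ψ w * (1 - F u w) * Z μ F (fun y => ψ y * F w y) ∂μ
      ≤ ∫⁻ w, Z μ F ψ * (ψ w * (1 - F u w)) ∂μ := by
        refine lintegral_mono fun w => ?_
        rw [mul_comm]
        exact mul_le_mul' (Z_mono fun y => mul_le_of_le_one_right (by simp) (hF.le_one w y))
          le_rfl
    _ = Z μ F ψ * ∫⁻ y, ψ y * (1 - F u y) ∂μ := lintegral_const_mul _ h2

theorem nice_lint [SFinite μ] : Nice (Ω := Ω) (fun ψ => ∫⁻ y, ψ y ∂μ) := fun Θ _ φ hφ => by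
  have := hφ.lintegral_prod_right' (ν := μ)
  exact this

/-- **The lower bound.** -/
theorem low [SFinite μ] (hF : Adm F) {χ φ : Ω → ℝ≥0∞} (hχ : Measurable χ)
    (P : (Ω → ℝ≥0∞) → Prop) (hP : ∀ ψ, P ψ → ∀ u, P (fun y => ψ y * F u y))
    (hPm : ∀ ψ, P ψ → Measurable ψ) (hPφ : P φ) (δ : ℝ≥0∞)
    (hloc : ∀ ψ, P ψ → ∫⁻ u, ψ u * ∫⁻ y, ψ y * (1 - F u y) ∂μ ∂μ ≤ δ * ∫⁻ y, ψ y ∂μ)
    (hfin : ∫⁻ y, φ y ∂μ ≠ ∞) (hPle : ∀ ψ, P ψ → ∀ y, ψ y ≤ φ y)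
    (q : ℝ) (hq : 0 ≤ q) :
    ∃ N : ℝ≥0∞, N ≤ (∫⁻ u, φ u * Z μ F (fun y => (χ y + φ y) * F u y) ∂μ) + δ * N ∧
      ENNReal.ofReal (Real.exp (-q) * (1 + q)) * Z μ F (fun y => χ y + φ y) ≤
        Z μ F χ + ENNReal.ofReal (Real.exp (-q)) * N ∧
      N ≤ (∫⁻ y, φ y ∂μ) * Z μ F (fun y => χ y + φ y) := by
  have hφ : Measurable φ := hPm φ hPφ
  have hZn := nice_Z (μ := μ) hF
  have hΨ : Nice (Ω := Ω) (fun ψ => Z μ F ψ * ∫⁻ y, ψ y ∂μ) := fun Θ _ ψ hψ =>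
    (hZn Θ ψ hψ).mul (nice_lint (μ := μ) Θ ψ hψ)
  refine ⟨Ext μ F (fun ψ => Z μ F ψ * ∫⁻ y, ψ y ∂μ) χ φ, ?_, ?_, ?_⟩
  · rw [split_mean hF χ φ hχ hφ, ← Ext_const_mul hF hΨ δ hχ hφ, ← Ext_add hF _ hχ hφ]
    · refine Ext_mono P hP (fun ψ hψ => ?_) χ φ hPφ
      have hψm := hPm ψ hψ
      have h1 : ∫⁻ u, ψ u * Z μ F ψ ∂μ ≤ ∫⁻ u, (ψ u * Z μ F (fun y => ψ y * F u y) +
          Z μ F ψ * (ψ u * ∫⁻ y, ψ y * (1 - F u y) ∂μ)) ∂μ := by
        refine lintegral_mono fun u => ?_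
        have h2 := mul_le_mul' (le_refl (ψ u)) (Z_le_near (μ := μ) hF hψm u)
        rw [mul_add] at h2
        refine h2.trans (le_of_eq ?_)
        ring
      have h3 : Measurable fun u => ψ u * Z μ F (fun y => ψ y * F u y) :=
        hψm.mul (hZn.meas hF hψm)
      rw [lintegral_mul_const _ hψm, lintegral_add_left h3, lintegral_const_mul'] at h1
      · rw [mul_comm]
        refine h1.trans (add_le_add le_rfl ?_)
        calc Z μ F ψ * ∫⁻ u, ψ u * ∫⁻ y, ψ y * (1 - F u y) ∂μ ∂μ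
            ≤ Z μ F ψ * (δ * ∫⁻ y, ψ y ∂μ) := mul_le_mul' le_rfl (hloc ψ hψ)
          _ = δ * ((∫⁻ y, ψ y ∂μ) * Z μ F ψ) := by ring
      · have h4 : ∫⁻ y, ψ y ∂μ ≤ ENNReal.ofReal (∫⁻ y, φ y ∂μ).toReal := by
          rw [ENNReal.ofReal_toReal hfin]
          exact lintegral_mono fun y => hPle ψ hψ y
        exact ((Z_le_exp hF ψ _ ENNReal.toReal_nonneg h4).trans_lt ENNReal.ofReal_lt_top).ne
    · intro Θ _ ψ hψ
      have h3 : Measurable fun q : Θ × Ω => ψ q.1 q.2 *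
          Z μ F (fun y => ψ q.1 y * F q.2 y) := by
        refine hψ.mul (hZn (Θ × Ω) (fun q y => ψ q.1 y * F q.2 y) ?_)
        have h5 : Measurable fun p : (Θ × Ω) × Ω => F p.1.2 p.2 :=
          hF.meas.comp ((measurable_snd.comp measurable_fst).prodMk measurable_snd)
        exact (hψ.comp ((measurable_fst.comp measurable_fst).prodMk measurable_snd)).mul h5
      exact h3.lintegral_prod_right'
  · rw [split_Z hF χ φ hχ hφ, split_one (μ := μ) (F := F) χ φ,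
      ← Ext_const_mul hF hΨ _ hχ hφ, ← Ext_const_mul hF hZn _ hχ hφ, ← Ext_add hF nice_one hχ hφ]
    refine Ext_mono P hP (fun ψ hψ => ?_) χ φ hPφ
    have hψf : ∫⁻ y, ψ y ∂μ ≠ ∞ :=
      ((lintegral_mono fun y => hPle ψ hψ y).trans_lt (lt_top_iff_ne_top.2 hfin)).ne
    set m : ℝ := (∫⁻ y, ψ y ∂μ).toReal with hm
    have hm0 : 0 ≤ m := ENNReal.toReal_nonneg
    have hm1 : ∫⁻ y, ψ y ∂μ = ENNReal.ofReal m := (ENNReal.ofReal_toReal hψf).symm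
    have h1 := Z_le_exp (μ := μ) hF ψ m hm0 hm1.le
    have hZf : Z μ F ψ ≠ ∞ := (h1.trans_lt ENNReal.ofReal_lt_top).ne
    set z : ℝ := (Z μ F ψ).toReal with hz
    have hz0 : 0 ≤ z := ENNReal.toReal_nonneg
    have hz1 : Z μ F ψ = ENNReal.ofReal z := (ENNReal.ofReal_toReal hZf).symm
    have hzm : z ≤ Real.exp m := by
      have := ENNReal.toReal_mono ENNReal.ofReal_ne_top h1
      rwa [ENNReal.toReal_ofReal (Real.exp_pos m).le] at this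
    rw [hz1, hm1, ← ENNReal.ofReal_mul (by positivity), ← ENNReal.ofReal_mul hz0,
      ← ENNReal.ofReal_mul (Real.exp_pos _).le, ← ENNReal.ofReal_one,
      ← ENNReal.ofReal_add zero_le_one (by positivity)]
    apply ENNReal.ofReal_le_ofReal
    have h5 : 1 + (q - m) ≤ Real.exp (q - m) := by
      have := Real.add_one_le_exp (q - m); linarith
    have h6 : z * Real.exp (-m) ≤ 1 := by
      calc z * Real.exp (-m) ≤ Real.exp m * Real.exp (-m) := by gcongr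
        _ = 1 := by rw [← Real.exp_add]; simp
    have h7 : Real.exp (-q) * (1 + (q - m)) ≤ Real.exp (-m) := by
      calc Real.exp (-q) * (1 + (q - m)) ≤ Real.exp (-q) * Real.exp (q - m) := by gcongr
        _ = Real.exp (-m) := by rw [← Real.exp_add]; ring_nf
    have h8 := mul_le_mul_of_nonneg_left h7 hz0
    nlinarith
  · rw [split_Z hF χ φ hχ hφ, ← Ext_const_mul hF hZn _ hχ hφ]
    refine Ext_mono P hP (fun ψ hψ => ?_) χ φ hPφ
    rw [mul_comm]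
    exact mul_le_mul' (lintegral_mono fun y => hPle ψ hψ y) le_rfl

end Pool.Agent.N549.HG
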