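import Pool.Agent.N549.HG.Stm3

/-!
# Hard spheres: the lower bound for the density in the extended range
-/

set_option autoImplicit false

namespace Pool.Agent.N549.HG

open MeasureTheory Set Finset
open scoped ENNReal NNReal

variable {Ω : Type} [MeasurableSpace Ω] {μ : Measure Ω} {F : Ω → Ω → ℝ≥0∞}

/-- a pointwise inequality for the inner gas gives an inequality for the full gas -/
theorem low2 [SFinite μ] (hF : Adm F) {χ φ : Ω → ℝ≥0∞} (hχ : Measurable χ) (hφ : Measurable φ)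
    (P : (Ω → ℝ≥0∞) → Prop) (hP : ∀ ψ, P ψ → ∀ u, P (fun y => ψ y * F u y))
    (hPφ : P φ) (a b : ℝ≥0∞)
    (hpt : ∀ ψ, P ψ → a * Z μ F ψ ≤ 1 + b * Mn μ F ψ) :
    a * Z μ F (fun y => χ y + φ y) ≤
      Z μ F χ + b * ∫⁻ u, φ u * Z μ F (fun y => (χ y + φ y) * F u y) ∂μ := by
  have hMn : Nice (Ω := Ω) (Mn μ F) := by
    intro Θ _ ψ hψ
    have h3 : Measurable fun q : Θ × Ω => ψ q.1 q.2 * Z μ F (fun y => ψ q.1 y * F q.2 y) := by
      refine hψ.mul (nice_Z hF (Θ × Ω) (fun q y => ψ q.1 y * F q.2 y) ?_)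
      have h5 : Measurable fun p : (Θ × Ω) × Ω => F p.1.2 p.2 :=
        hF.meas.comp ((measurable_snd.comp measurable_fst).prodMk measurable_snd)
      exact (hψ.comp ((measurable_fst.comp measurable_fst).prodMk measurable_snd)).mul h5
    exact h3.lintegral_prod_right'
  rw [split_Z hF χ φ hχ hφ, split_mean hF χ φ hχ hφ, split_one (μ := μ) (F := F) χ φ,
    ← Ext_const_mul hF (nice_Z hF) _ hχ hφ]
  have h1 : b * Ext μ F (fun ψ => ∫⁻ u, ψ u * Z μ F (fun y => ψ y * F u y) ∂μ) χ φ =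
      Ext μ F (fun ψ => b * Mn μ F ψ) χ φ := (Ext_const_mul hF hMn b hχ hφ).symm
  rw [h1, ← Ext_add hF nice_one hχ hφ]
  exact Ext_mono P hP hpt χ φ hPφ

/-! ### the series with a factor `s` -/

/-- the coefficients -/
noncomputable def cf (μ : Measure Ω) (F : Ω → Ω → ℝ≥0∞) (φ : Ω → ℝ≥0∞) (k : ℕ) : ℝ :=
  (A μ F k φ).toReal / k.factorial

theorem cf_nonneg (φ : Ω → ℝ≥0∞) (k : ℕ) : 0 ≤ cf μ F φ k := by
  unfold cf; positivity

theorem cf_le (hF : Adm F) {φ : Ω → ℝ≥0∞} (m : ℝ) (hm : 0 ≤ m)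
    (h : ∫⁻ y, φ y ∂μ ≤ ENNReal.ofReal m) (k : ℕ) : cf μ F φ k ≤ m ^ k / k.factorial := by
  unfold cf
  have h1 : A μ F k φ ≤ ENNReal.ofReal (m ^ k) := by
    rw [ENNReal.ofReal_pow hm]
    exact (A_le_pow hF k φ).trans (pow_le_pow_left' h k)
  have h2 := ENNReal.toReal_mono ENNReal.ofReal_ne_top h1
  rw [ENNReal.toReal_ofReal (by positivity)] at h2
  exact div_le_div_of_nonneg_right h2 (by positivity)

theorem cf_ofReal (hF : Adm F) {φ : Ω → ℝ≥0∞} (m : ℝ)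
    (h : ∫⁻ y, φ y ∂μ ≤ ENNReal.ofReal m) (k : ℕ) :
    A μ F k φ = ENNReal.ofReal (k.factorial * cf μ F φ k) := by
  unfold cf
  have h1 : A μ F k φ ≠ ∞ := ((A_le_pow hF k φ).trans_lt (ENNReal.pow_lt_top
    (h.trans_lt ENNReal.ofReal_lt_top))).ne
  have h2 : ((k.factorial : ℕ) : ℝ) ≠ 0 := by exact_mod_cast k.factorial_ne_zero
  rw [mul_div_cancel₀ _ h2, ENNReal.ofReal_toReal h1]

theorem cf_summable (hF : Adm F) {φ : Ω → ℝ≥0∞} (m : ℝ) (hm : 0 ≤ m)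
    (h : ∫⁻ y, φ y ∂μ ≤ ENNReal.ofReal m) (s : ℝ) (hs : 0 ≤ s) :
    Summable fun k : ℕ => s ^ k * cf μ F φ k := by
  refine Summable.of_nonneg_of_le (fun k => mul_nonneg (by positivity) (cf_nonneg φ k))
    (fun k => ?_) (Real.summable_pow_div_factorial (s * m))
  rw [mul_pow, mul_div_assoc]
  exact mul_le_mul_of_nonneg_left (cf_le hF m hm h k) (by positivity)

theorem cf_summable1 (hF : Adm F) {φ : Ω → ℝ≥0∞} (m : ℝ) (hm : 0 ≤ m)
    (h : ∫⁻ y, φ y ∂μ ≤ ENNReal.ofReal m) (s : ℝ) (hs : 0 ≤ s) :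
    Summable fun k : ℕ => (k : ℝ) * (s ^ k * cf μ F φ k) := by
  have h1 : Summable fun k : ℕ => (k : ℝ) * ((s * m) ^ k / k.factorial) := by
    rw [← summable_nat_add_iff 1]
    have h2 : (fun k : ℕ => ((k + 1 : ℕ) : ℝ) * ((s * m) ^ (k + 1) / (k + 1).factorial)) =
        fun k : ℕ => (s * m) * ((s * m) ^ k / k.factorial) := by
      funext k
      rw [Nat.factorial_succ]
      push_cast
      have : (k.factorial : ℝ) ≠ 0 := by exact_mod_cast k.factorial_ne_zero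
      field_simp
      ring
    rw [h2]
    exact (Real.summable_pow_div_factorial (s * m)).mul_left _
  refine Summable.of_nonneg_of_le (fun k => ?_) (fun k => ?_) h1
  · exact mul_nonneg (by positivity) (mul_nonneg (by positivity) (cf_nonneg φ k))
  · rw [mul_pow, mul_div_assoc]
    exact mul_le_mul_of_nonneg_left (mul_le_mul_of_nonneg_left (cf_le hF m hm h k)
      (by positivity)) (by positivity)

theorem Z_scale [SFinite μ] (hF : Adm F) {φ : Ω → ℝ≥0∞} (hφ : Measurable φ) (m : ℝ) (hm : 0 ≤ m)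
    (h : ∫⁻ y, φ y ∂μ ≤ ENNReal.ofReal m) (s : ℝ) (hs : 0 ≤ s) :
    Z μ F (fun y => ENNReal.ofReal s * φ y) =
      ENNReal.ofReal (∑' k : ℕ, s ^ k * cf μ F φ k) := by
  unfold Z
  rw [ENNReal.ofReal_tsum_of_nonneg (fun k => mul_nonneg (by positivity) (cf_nonneg φ k))
    (cf_summable hF m hm h s hs)]
  refine tsum_congr fun k => ?_
  rw [A_smul hF _ k hφ, cf_ofReal hF m h k, ← ENNReal.ofReal_pow hs,
    ← ENNReal.ofReal_mul (by positivity), ← ENNReal.ofReal_natCast, ← ENNReal.ofReal_div_of_pos (by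
    exact_mod_cast k.factorial_pos)]
  congr 1
  have : (k.factorial : ℝ) ≠ 0 := by exact_mod_cast k.factorial_ne_zero
  field_simp

theorem Mn_scale [SFinite μ] (hF : Adm F) {φ : Ω → ℝ≥0∞} (hφ : Measurable φ) (m : ℝ) (hm : 0 ≤ m)
    (h : ∫⁻ y, φ y ∂μ ≤ ENNReal.ofReal m) (s : ℝ) (hs : 0 ≤ s) :
    Mn μ F (fun y => ENNReal.ofReal s * φ y) =
      ENNReal.ofReal (∑' k : ℕ, k * (s ^ k * cf μ F φ k)) := by
  have hsφ : Measurable fun y => ENNReal.ofReal s * φ y := hφ.const_mul _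
  rw [Mn_eq hF hsφ, ENNReal.ofReal_tsum_of_nonneg
    (fun k => mul_nonneg (by positivity) (mul_nonneg (by positivity) (cf_nonneg φ k)))
    (cf_summable1 hF m hm h s hs), tsum_eq_zero_add' (f := fun k : ℕ =>
      ENNReal.ofReal (k * (s ^ k * cf μ F φ k))) ENNReal.summable]
  simp only [Nat.cast_zero, zero_mul, ENNReal.ofReal_zero, zero_add]
  refine tsum_congr fun k => ?_
  rw [A_smul hF _ (k + 1) hφ, cf_ofReal hF m h (k + 1), ← ENNReal.ofReal_pow hs,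
    ← ENNReal.ofReal_mul (by positivity), ← ENNReal.ofReal_natCast, ← ENNReal.ofReal_div_of_pos (by
    exact_mod_cast k.factorial_pos)]
  congr 1
  rw [Nat.factorial_succ]
  push_cast
  have : (k.factorial : ℝ) ≠ 0 := by exact_mod_cast k.factorial_ne_zero
  field_simp

/-- convexity of the logarithm of the partition function, for arbitrary weights -/
theorem conv_gen [SFinite μ] (hF : Adm F) {φ : Ω → ℝ≥0∞} (hφ : Measurable φ) (m : ℝ) (hm : 0 ≤ m)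
    (h : ∫⁻ y, φ y ∂μ ≤ ENNReal.ofReal m) (s s' : ℝ) (hs : 0 < s) (hs' : 0 < s') :
    Real.log (s' / s) * ((Mn μ F (fun y => ENNReal.ofReal s * φ y)).toReal /
      (Z μ F (fun y => ENNReal.ofReal s * φ y)).toReal) ≤
    Real.log (Z μ F (fun y => ENNReal.ofReal s' * φ y)).toReal -
      Real.log (Z μ F (fun y => ENNReal.ofReal s * φ y)).toReal := by
  have hnn : ∀ t : ℝ, 0 ≤ t → 0 ≤ ∑' k : ℕ, t ^ k * cf μ F φ k := fun t ht =>
    tsum_nonneg fun k => mul_nonneg (by positivity) (cf_nonneg φ k)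
  have hnn1 : ∀ t : ℝ, 0 ≤ t → 0 ≤ ∑' k : ℕ, (k : ℝ) * (t ^ k * cf μ F φ k) := fun t ht =>
    tsum_nonneg fun k => mul_nonneg (by positivity) (mul_nonneg (by positivity) (cf_nonneg φ k))
  have hpos : 0 < ∑' k : ℕ, s ^ k * cf μ F φ k := by
    have h1 := one_le_Z (μ := μ) (F := F) (fun y => ENNReal.ofReal s * φ y)
    rw [Z_scale hF hφ m hm h s hs.le, ENNReal.one_le_ofReal] at h1
    linarith
  rw [Z_scale hF hφ m hm h s hs.le, Z_scale hF hφ m hm h s' hs'.le, Mn_scale hF hφ m hm h s hs.le,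
    ENNReal.toReal_ofReal (hnn s hs.le), ENNReal.toReal_ofReal (hnn s' hs'.le),
    ENNReal.toReal_ofReal (hnn1 s hs.le)]
  exact conv _ (cf_nonneg φ) s s' hs hs' (cf_summable hF m hm h s hs.le)
    (cf_summable1 hF m hm h s hs.le) (cf_summable hF m hm h s' hs'.le) hpos

/-! ### few close pairs -/

theorem one_smul_fun (φ : Ω → ℝ≥0∞) : (fun y => ENNReal.ofReal 1 * φ y) = φ := by
  funext y; simp

/-- few close pairs: the gas is nearly a Poisson process -/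
theorem mean_ge [SFinite μ] (hF : Adm F) {ψ : Ω → ℝ≥0∞} (hψ : Measurable ψ) (δ : ℝ≥0∞)
    (hloc : ∫⁻ u, ψ u * ∫⁻ y, ψ y * (1 - F u y) ∂μ ∂μ ≤ δ * ∫⁻ y, ψ y ∂μ)
    (hfin : ∫⁻ y, ψ y ∂μ ≠ ∞) :
    (∫⁻ y, ψ y ∂μ) * Z μ F ψ ≤ Mn μ F ψ + δ * ((∫⁻ y, ψ y ∂μ) * Z μ F ψ) := by
  have hZn := nice_Z (μ := μ) hF
  have h1 : ∫⁻ u, ψ u * Z μ F ψ ∂μ ≤ ∫⁻ u, (ψ u * Z μ F (fun y => ψ y * F u y) +
      Z μ F ψ * (ψ u * ∫⁻ y, ψ y * (1 - F u y) ∂μ)) ∂μ := by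
    refine lintegral_mono fun u => ?_
    have h2 := mul_le_mul' (le_refl (ψ u)) (Z_le_near (μ := μ) hF hψ u)
    rw [mul_add] at h2
    refine h2.trans (le_of_eq ?_)
    ring
  have h3 : Measurable fun u => ψ u * Z μ F (fun y => ψ y * F u y) :=
    hψ.mul (hZn.meas hF hψ)
  rw [lintegral_mul_const _ hψ, lintegral_add_left h3, lintegral_const_mul'] at h1
  · refine h1.trans (add_le_add le_rfl ?_)
    calc Z μ F ψ * ∫⁻ u, ψ u * ∫⁻ y, ψ y * (1 - F u y) ∂μ ∂μ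
        ≤ Z μ F ψ * (δ * ∫⁻ y, ψ y ∂μ) := mul_le_mul' le_rfl hloc
      _ = δ * ((∫⁻ y, ψ y ∂μ) * Z μ F ψ) := by ring
  · have h4 : ∫⁻ y, ψ y ∂μ ≤ ENNReal.ofReal (∫⁻ y, ψ y ∂μ).toReal := by
      rw [ENNReal.ofReal_toReal hfin]
    exact ((Z_le_exp hF ψ _ ENNReal.toReal_nonneg h4).trans_lt ENNReal.ofReal_lt_top).ne

theorem Mn_ne_top [SFinite μ] (hF : Adm F) {ψ : Ω → ℝ≥0∞} (m : ℝ) (hm : 0 ≤ m)
    (h : ∫⁻ y, ψ y ∂μ ≤ ENNReal.ofReal m) : Mn μ F ψ ≠ ∞ := by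
  have h1 : Mn μ F ψ ≤ ∫⁻ u, ψ u * Z μ F ψ ∂μ := by
    refine lintegral_mono fun u => mul_le_mul' le_rfl (Z_mono fun y => ?_)
    exact mul_le_of_le_one_right (by simp) (hF.le_one u y)
  have h2 := Z_le_exp (μ := μ) hF ψ m hm h
  have h3 : Z μ F ψ ≠ ∞ := (h2.trans_lt ENNReal.ofReal_lt_top).ne
  rw [lintegral_mul_const' _ _ h3] at h1
  exact (h1.trans_lt (ENNReal.mul_lt_top (h.trans_lt ENNReal.ofReal_lt_top)
    (lt_top_iff_ne_top.2 h3))).ne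

/-- real version of `mean_ge` -/
theorem mean_ge' [SFinite μ] (hF : Adm F) {ψ : Ω → ℝ≥0∞} (hψ : Measurable ψ) (δ m : ℝ)
    (hδ : 0 ≤ δ) (hm : 0 ≤ m) (h : ∫⁻ y, ψ y ∂μ = ENNReal.ofReal m)
    (hloc : ∫⁻ u, ψ u * ∫⁻ y, ψ y * (1 - F u y) ∂μ ∂μ ≤ ENNReal.ofReal (δ * m)) :
    (1 - δ) * m * (Z μ F ψ).toReal ≤ (Mn μ F ψ).toReal := by
  have hZ : Z μ F ψ ≠ ∞ := ((Z_le_exp hF ψ m hm h.le).trans_lt ENNReal.ofReal_lt_top).ne
  have hM := Mn_ne_top (μ := μ) hF m hm h.le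
  have h1 := mean_ge (μ := μ) hF hψ (ENNReal.ofReal δ) (by
    rw [h, ← ENNReal.ofReal_mul hδ]; exact hloc) (by rw [h]; exact ENNReal.ofReal_ne_top)
  rw [h] at h1
  have h2 := ENNReal.toReal_mono (ENNReal.add_ne_top.2 ⟨hM, ENNReal.mul_ne_top
    ENNReal.ofReal_ne_top (ENNReal.mul_ne_top ENNReal.ofReal_ne_top hZ)⟩) h1
  rw [ENNReal.toReal_add hM (ENNReal.mul_ne_top ENNReal.ofReal_ne_top
    (ENNReal.mul_ne_top ENNReal.ofReal_ne_top hZ)), ENNReal.toReal_mul, ENNReal.toReal_mul,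
    ENNReal.toReal_mul, ENNReal.toReal_ofReal hm, ENNReal.toReal_ofReal hδ] at h2
  linarith

theorem log_Z_nonneg (ψ : Ω → ℝ≥0∞) : 0 ≤ Real.log (Z μ F ψ).toReal := by
  by_cases h : Z μ F ψ = ∞
  · rw [h]; simp
  · apply Real.log_nonneg
    have h1 := ENNReal.toReal_mono h (one_le_Z (μ := μ) (F := F) ψ)
    simpa using h1

/-- the partition function of a gas with few close pairs is large -/
theorem Z_big [SFinite μ] (hF : Adm F) {ψ : Ω → ℝ≥0∞} (hψ : Measurable ψ) (δ m : ℝ)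
    (hδ : 0 ≤ δ) (hδ2 : δ ≤ 1 / 2) (hm : 0 ≤ m) (h : ∫⁻ y, ψ y ∂μ = ENNReal.ofReal m)
    (hloc : ∫⁻ u, ψ u * ∫⁻ y, ψ y * (1 - F u y) ∂μ ∂μ ≤ ENNReal.ofReal (δ * m)) :
    m / 6 ≤ Real.log (Z μ F ψ).toReal := by
  have h1 := conv_gen (μ := μ) hF hψ m hm h.le (1 / 2) 1 (by norm_num) one_pos
  rw [one_smul_fun] at h1
  set φ : Ω → ℝ≥0∞ := fun y => ENNReal.ofReal (1 / 2) * ψ y with hφ
  have hφm : Measurable φ := hψ.const_mul _
  have hi : ∫⁻ y, φ y ∂μ = ENNReal.ofReal (m / 2) := by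
    rw [hφ, lintegral_const_mul' _ _ ENNReal.ofReal_ne_top, h,
      ← ENNReal.ofReal_mul (by norm_num)]
    congr 1; ring
  have hl : ∫⁻ u, φ u * ∫⁻ y, φ y * (1 - F u y) ∂μ ∂μ ≤ ENNReal.ofReal (δ * (m / 2)) := by
    have e1 : ∀ u, ∫⁻ y, φ y * (1 - F u y) ∂μ =
        ENNReal.ofReal (1 / 2) * ∫⁻ y, ψ y * (1 - F u y) ∂μ := by
      intro u
      rw [← lintegral_const_mul' _ _ ENNReal.ofReal_ne_top]
      exact lintegral_congr fun y => by rw [hφ]; ring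
    have e2 : ∫⁻ u, φ u * ∫⁻ y, φ y * (1 - F u y) ∂μ ∂μ =
        ENNReal.ofReal (1 / 4) * ∫⁻ u, ψ u * ∫⁻ y, ψ y * (1 - F u y) ∂μ ∂μ := by
      rw [← lintegral_const_mul' _ _ ENNReal.ofReal_ne_top]
      refine lintegral_congr fun u => ?_
      rw [e1, hφ, show (1 / 4 : ℝ) = 1 / 2 * (1 / 2) by norm_num,
        ENNReal.ofReal_mul (by norm_num)]
      ring
    rw [e2]
    calc ENNReal.ofReal (1 / 4) * ∫⁻ u, ψ u * ∫⁻ y, ψ y * (1 - F u y) ∂μ ∂μ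
        ≤ ENNReal.ofReal (1 / 4) * ENNReal.ofReal (δ * m) := mul_le_mul' le_rfl hloc
      _ = ENNReal.ofReal (1 / 4 * (δ * m)) := by rw [← ENNReal.ofReal_mul (by norm_num)]
      _ ≤ ENNReal.ofReal (δ * (m / 2)) := by
          apply ENNReal.ofReal_le_ofReal
          nlinarith [mul_nonneg hδ hm]
  have h2 := mean_ge' (μ := μ) hF hφm δ (m / 2) hδ (by positivity) hi hl
  have hZ : Z μ F φ ≠ ∞ :=
    ((Z_le_exp hF φ (m / 2) (by positivity) hi.le).trans_lt ENNReal.ofReal_lt_top).ne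
  have hZ1 : 1 ≤ (Z μ F φ).toReal := by
    have := ENNReal.toReal_mono hZ (one_le_Z (μ := μ) (F := F) φ)
    simpa using this
  have h3 : m / 4 ≤ (Mn μ F φ).toReal / (Z μ F φ).toReal := by
    rw [le_div_iff₀ (by linarith)]
    refine le_trans ?_ h2
    have : (1 / 2 : ℝ) ≤ 1 - δ := by linarith
    have h4 : m / 4 ≤ (1 - δ) * (m / 2) := by nlinarith
    exact mul_le_mul_of_nonneg_right h4 (by linarith)
  have h5 : (0.6931471803 : ℝ) ≤ Real.log (1 / (1 / 2)) := by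
    rw [show (1 / (1 / 2) : ℝ) = 2 by norm_num]
    exact Real.log_two_gt_d9.le
  have h6 := log_Z_nonneg (μ := μ) (F := F) φ
  have h7 : 0.6931471803 * (m / 4) ≤
      Real.log (1 / (1 / 2)) * ((Mn μ F φ).toReal / (Z μ F φ).toReal) :=
    mul_le_mul h5 h3 (by positivity) (by linarith)
  linarith

/-- the partition function is bounded in terms of the mean -/
theorem log_Z_le [SFinite μ] (hF : Adm F) {ψ : Ω → ℝ≥0∞} (hψ : Measurable ψ) (m : ℝ)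
    (hm : 0 < m) (h : ∫⁻ y, ψ y ∂μ ≤ ENNReal.ofReal m) :
    Real.log (Z μ F ψ).toReal ≤ 1 + Real.log m * ((Mn μ F ψ).toReal / (Z μ F ψ).toReal) := by
  have h1 := conv_gen (μ := μ) hF hψ m hm.le h 1 (1 / m) one_pos (by positivity)
  rw [one_smul_fun, div_one, one_div, Real.log_inv] at h1
  set φ : Ω → ℝ≥0∞ := fun y => ENNReal.ofReal m⁻¹ * ψ y with hφ
  have hi : ∫⁻ y, φ y ∂μ ≤ ENNReal.ofReal 1 := by
    rw [hφ, lintegral_const_mul' _ _ ENNReal.ofReal_ne_top]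
    calc ENNReal.ofReal m⁻¹ * ∫⁻ y, ψ y ∂μ ≤ ENNReal.ofReal m⁻¹ * ENNReal.ofReal m :=
          mul_le_mul' le_rfl h
      _ = ENNReal.ofReal 1 := by
          rw [← ENNReal.ofReal_mul (by positivity), inv_mul_cancel₀ hm.ne']
  have h2 := Z_le_exp (μ := μ) hF φ 1 zero_le_one hi
  have h3 := ENNReal.toReal_mono ENNReal.ofReal_ne_top h2
  rw [ENNReal.toReal_ofReal (Real.exp_pos _).le] at h3
  have h4 : 0 < (Z μ F φ).toReal := by
    refine ENNReal.toReal_pos (lt_of_lt_of_le one_pos (one_le_Z _)).ne' ?_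
    exact (h2.trans_lt ENNReal.ofReal_lt_top).ne
  have h5 := Real.log_le_log h4 h3
  rw [Real.log_exp] at h5
  linarith

end Pool.Agent.N549.HG
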