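import Pool.Agent.N549.HG.Low2

/-!
# Hard spheres on the torus: the lower bound in the extended range
-/

set_option autoImplicit false

namespace Pool.Agent.N549.HG

open MeasureTheory Set Finset
open scoped ENNReal NNReal

variable {n : ℕ} {r : ℝ}

/-- a subset of intermediate measure -/
theorem exists_between (hcells : S_CELLS) (hn : 1 ≤ n) (T : Set (Torus n)) (hT : MeasurableSet T)
    (x : ℝ) (hx : 0 < x) (h : x < (vol n).real T) :
    ∃ T' ⊆ T, MeasurableSet T' ∧ x / 2 < (vol n).real T' ∧ (vol n).real T' ≤ x := by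
  obtain ⟨m, hm⟩ := exists_nat_gt (2 / x)
  have hm0 : 0 < (m : ℝ) := lt_trans (by positivity) hm
  have hm1 : 1 ≤ m := by exact_mod_cast hm0
  obtain ⟨Q, hQm, hQu, hQ⟩ := hcells n hn m hm1
  set S : ℕ → Set (Torus n) := fun j => T ∩ ⋃ i : Fin m, ⋃ _ : (i : ℕ) < j, Q i with hS
  have hSm : ∀ j, MeasurableSet (S j) := fun j =>
    hT.inter (MeasurableSet.iUnion fun i => MeasurableSet.iUnion fun _ => hQm i)
  have hS0 : (vol n).real (S 0) ≤ x := by
    have : S 0 = ∅ := by rw [hS]; simp
    rw [this]; simp [hx.le]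
  have hSfull : x < (vol n).real (S m) := by
    have : S m = T := by
      rw [hS]
      simp only [Fin.is_lt, iUnion_true, hQu, inter_univ]
    rw [this]; exact h
  have hstep : ∀ j, (vol n).real (S (j + 1)) ≤ (vol n).real (S j) + 1 / m := by
    intro j
    by_cases hj : j < m
    · have h1 : S (j + 1) ⊆ S j ∪ Q ⟨j, hj⟩ := by
        rintro y ⟨hyT, hy⟩
        simp only [mem_iUnion] at hy
        obtain ⟨i, hi, hyi⟩ := hy
        rcases Nat.lt_succ_iff_lt_or_eq.1 hi with h2 | h2
        · left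
          refine ⟨hyT, ?_⟩
          simp only [mem_iUnion]
          exact ⟨i, h2, hyi⟩
        · right
          have : i = ⟨j, hj⟩ := Fin.ext h2
          rw [← this]; exact hyi
      calc (vol n).real (S (j + 1)) ≤ (vol n).real (S j ∪ Q ⟨j, hj⟩) := measureReal_mono h1
        _ ≤ (vol n).real (S j) + (vol n).real (Q ⟨j, hj⟩) := measureReal_union_le _ _
        _ ≤ _ := by linarith [hQ ⟨j, hj⟩]
    · have h1 : S (j + 1) ⊆ S j := by
        rintro y ⟨hyT, hy⟩
        refine ⟨hyT, ?_⟩
        simp only [mem_iUnion] at hy ⊢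
        obtain ⟨i, hi, hyi⟩ := hy
        exact ⟨i, by omega, hyi⟩
      have h2 : (vol n).real (S (j + 1)) ≤ (vol n).real (S j) := measureReal_mono h1
      have : (0 : ℝ) ≤ 1 / m := by positivity
      linarith
  -- the first index beyond `x`
  have hex : ∃ j, x < (vol n).real (S j) := ⟨m, hSfull⟩
  classical
  obtain ⟨j, hj, hmin⟩ : ∃ j, x < (vol n).real (S j) ∧ ∀ i < j, ¬ x < (vol n).real (S i) :=
    ⟨Nat.find hex, Nat.find_spec hex, fun i hi => Nat.find_min hex hi⟩
  have hj0 : j ≠ 0 := by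
    rintro rfl
    linarith
  obtain ⟨i, rfl⟩ := Nat.exists_eq_succ_of_ne_zero hj0
  have h1 := hmin i (Nat.lt_succ_self i)
  have h2 := hstep i
  have h3 : 1 / (m : ℝ) < x / 2 := by
    rw [div_lt_iff₀ hm0]
    rw [div_lt_iff₀ hx] at hm
    linarith
  refine ⟨S i, inter_subset_left, hSm i, ?_, not_lt.1 h1⟩
  rw [Nat.succ_eq_add_one] at hj
  linarith

/-- close pairs of a subset of the ball -/
theorem close_le (hloc2 : S_LOC2) (hn : 1 ≤ n) (hr : 0 < r) (hr4 : r ≤ 1 / 4) (T : Set (Torus n))
    (hT : MeasurableSet T) (hTB : T ⊆ near n r 0) (lam m M δ : ℝ) (hlam : 0 < lam)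
    (hm : m = lam * (vol n).real T) (hmM : m ≤ M) (hδ : 0 ≤ δ)
    (hδ2 : 4 * (lam * ballVol n r) * (M * Real.sqrt 0.7045 ^ n +
      3 * (lam * ballVol n r) * Real.sqrt 0.54 ^ n) ≤ δ ^ 2) :
    ∫⁻ u, T.indicator (fun _ => ENNReal.ofReal lam) u *
      ∫⁻ y, T.indicator (fun _ => ENNReal.ofReal lam) y * (1 - far n r u y) ∂(vol n) ∂(vol n) ≤
      ENNReal.ofReal (δ * m) := by
  set c : ℝ≥0∞ := ENNReal.ofReal lam with hc
  have hcne : c ≠ ∞ := ENNReal.ofReal_ne_top
  set D := ballVol n r with hD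
  have hD0 : 0 < D := ballVol_pos hr
  set t := (vol n).real T with ht
  have ht0 : 0 ≤ t := measureReal_nonneg
  have hvT : vol n T = ENNReal.ofReal t := by
    rw [ht, measureReal_def, ENNReal.ofReal_toReal (measure_ne_top _ _)]
  set I : ℝ≥0∞ := ∫⁻ u in T, vol n (T ∩ near n r u) ∂(vol n) with hI
  have h2 : ∀ u : Torus n, ∫⁻ y, T.indicator (fun _ => c) y * (1 - far n r u y) ∂(vol n) =
      c * vol n (T ∩ near n r u) := by
    intro u
    have h3 : (fun y => T.indicator (fun _ => c) y * (1 - far n r u y)) =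
        (T ∩ near n r u).indicator fun _ => c := by
      have h4 := one_sub_far (r := r) u
      funext y
      rw [congrFun h4 y]
      by_cases hyT : y ∈ T <;> by_cases hyN : y ∈ near n r u <;>
        simp [hyT, hyN]
    rw [h3, lintegral_indicator_const (hT.inter (meas_near u))]
  have h5 : ∫⁻ u, T.indicator (fun _ => c) u *
        ∫⁻ y, T.indicator (fun _ => c) y * (1 - far n r u y) ∂(vol n) ∂(vol n) = c * (c * I) := by
    simp only [h2]
    rw [hI, ← lintegral_const_mul' _ _ hcne, ← lintegral_const_mul' _ _ hcne,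
      ← lintegral_indicator hT]
    refine lintegral_congr fun u => ?_
    by_cases hu : u ∈ T <;> simp [hu]
  rw [h5]
  have h1 : I ^ 2 ≤ ENNReal.ofReal (4 * D) * vol n T ^ 2 *
      (vol n T * ENNReal.ofReal (Real.sqrt 0.7045 ^ n) +
        ENNReal.ofReal (3 * D * Real.sqrt 0.54 ^ n)) := hloc2 n hn r hr hr4 0 T hT hTB
  rw [hvT, ← ENNReal.ofReal_mul ht0, ← ENNReal.ofReal_add (by positivity) (by positivity),
    ← ENNReal.ofReal_pow ht0, ← ENNReal.ofReal_mul (by positivity),
    ← ENNReal.ofReal_mul (by positivity)] at h1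
  have hIne : I ≠ ∞ := by
    intro h
    rw [h] at h1
    simp at h1
  set i := I.toReal with hi
  have hi0 : 0 ≤ i := ENNReal.toReal_nonneg
  have hI' : I = ENNReal.ofReal i := (ENNReal.ofReal_toReal hIne).symm
  rw [hI', ← ENNReal.ofReal_pow hi0, ENNReal.ofReal_le_ofReal_iff (by positivity)] at h1
  rw [hI', hc, ← ENNReal.ofReal_mul hlam.le, ← ENNReal.ofReal_mul hlam.le]
  apply ENNReal.ofReal_le_ofReal
  have hm0 : 0 ≤ m := by rw [hm]; positivity
  refine abs_le_of_sq_le_sq' ?_ (by positivity) |>.2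
  calc (lam * (lam * i)) ^ 2 = lam ^ 4 * i ^ 2 := by ring
    _ ≤ lam ^ 4 * (4 * D * t ^ 2 * (t * Real.sqrt 0.7045 ^ n + 3 * D * Real.sqrt 0.54 ^ n)) :=
        mul_le_mul_of_nonneg_left h1 (by positivity)
    _ = m ^ 2 * (4 * (lam * D) * (m * Real.sqrt 0.7045 ^ n +
          3 * (lam * D) * Real.sqrt 0.54 ^ n)) := by rw [hm]; ring
    _ ≤ m ^ 2 * (4 * (lam * D) * (M * Real.sqrt 0.7045 ^ n +
          3 * (lam * D) * Real.sqrt 0.54 ^ n)) := by gcongr
    _ ≤ m ^ 2 * δ ^ 2 := mul_le_mul_of_nonneg_left hδ2 (by positivity)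
    _ = (δ * m) ^ 2 := by ring

/-- the pointwise inequality -/
theorem pt_ineq (hloc2 : S_LOC2) (hcells : S_CELLS) (hn : 1 ≤ n) (hr : 0 < r) (hr4 : r ≤ 1 / 4)
    (T : Set (Torus n)) (hT : MeasurableSet T) (hTB : T ⊆ near n r 0) (lam M δ q : ℝ)
    (hlam : 0 < lam) (hM : 1 ≤ M) (hδ : 0 ≤ δ) (hδ1 : δ ≤ 1 / 2)
    (hδ2 : 4 * (lam * ballVol n r) * (M * Real.sqrt 0.7045 ^ n +
      3 * (lam * ballVol n r) * Real.sqrt 0.54 ^ n) ≤ δ ^ 2) (hq : 0 ≤ q)
    (hqM : 1 < lam * ballVol n r → (1 + q) * Real.log (lam * ballVol n r) ≤ M / 12 - 1) :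
    ENNReal.ofReal (Real.exp (-q) * (1 + q)) *
        Z (vol n) (far n r) (T.indicator fun _ => ENNReal.ofReal lam) ≤
      1 + ENNReal.ofReal (Real.exp (-q) / (1 - δ)) *
        Mn (vol n) (far n r) (T.indicator fun _ => ENNReal.ofReal lam) := by
  have hF := far_adm n r
  set c : ℝ≥0∞ := ENNReal.ofReal lam with hc
  set D := ballVol n r with hD
  have hD0 : 0 < D := ballVol_pos hr
  set m : ℝ := lam * (vol n).real T with hm
  have hm0 : 0 ≤ m := by rw [hm]; positivity
  set ψ : Torus n → ℝ≥0∞ := T.indicator fun _ => c with hψ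
  have hψm : Measurable ψ := measurable_const.indicator hT
  have hint : ∫⁻ y, ψ y ∂(vol n) = ENNReal.ofReal m := by
    rw [hψ, lintegral_indicator_const hT, hc, hm, ENNReal.ofReal_mul hlam.le, measureReal_def,
      ENNReal.ofReal_toReal (measure_ne_top _ _)]
  have hZe := Z_le_exp (μ := vol n) hF ψ m hm0 hint.le
  have hZf : Z (vol n) (far n r) ψ ≠ ∞ := (hZe.trans_lt ENNReal.ofReal_lt_top).ne
  have hMf : Mn (vol n) (far n r) ψ ≠ ∞ := Mn_ne_top (μ := vol n) hF m hm0 hint.le
  set z : ℝ := (Z (vol n) (far n r) ψ).toReal with hz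
  set a : ℝ := (Mn (vol n) (far n r) ψ).toReal with ha
  have ha0 : 0 ≤ a := ENNReal.toReal_nonneg
  have hz1 : 1 ≤ z := by
    have := ENNReal.toReal_mono hZf (one_le_Z (μ := vol n) (F := far n r) ψ)
    simpa using this
  have hδ' : 0 < 1 - δ := by linarith
  have hreal : Real.exp (-q) * (1 + q) * z ≤ 1 + Real.exp (-q) / (1 - δ) * a := by
    by_cases hmM : m ≤ M
    · -- small sets
      have h1 := close_le hloc2 hn hr hr4 T hT hTB lam m M δ hlam hm hmM hδ hδ2
      have h2 := mean_ge' (μ := vol n) hF hψm δ m hδ hm0 hint h1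
      have h3 : m * z ≤ a / (1 - δ) := by
        rw [le_div_iff₀ hδ']
        linarith
      have h4 : z * Real.exp (-m) ≤ 1 := by
        have h5 := ENNReal.toReal_mono ENNReal.ofReal_ne_top hZe
        rw [ENNReal.toReal_ofReal (Real.exp_pos m).le] at h5
        calc z * Real.exp (-m) ≤ Real.exp m * Real.exp (-m) := by gcongr
          _ = 1 := by rw [← Real.exp_add]; simp
      have h7 : Real.exp (-q) * (1 + (q - m)) ≤ Real.exp (-m) := by
        have h5 : 1 + (q - m) ≤ Real.exp (q - m) := by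
          have := Real.add_one_le_exp (q - m); linarith
        calc Real.exp (-q) * (1 + (q - m)) ≤ Real.exp (-q) * Real.exp (q - m) := by gcongr
          _ = Real.exp (-m) := by rw [← Real.exp_add]; ring_nf
      have h8 := mul_le_mul_of_nonneg_left h7 (by linarith : (0 : ℝ) ≤ z)
      have h9 := mul_le_mul_of_nonneg_left h3 (Real.exp_pos (-q)).le
      have h10 : Real.exp (-q) / (1 - δ) * a = Real.exp (-q) * (a / (1 - δ)) := by
        field_simp
      rw [h10]
      nlinarith
    · -- large sets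
      push Not at hmM
      have hmL : m ≤ lam * D := by
        rw [hm]
        refine mul_le_mul_of_nonneg_left ?_ hlam.le
        have h1 : (vol n).real T ≤ (vol n).real (near n r 0) := measureReal_mono hTB
        have h2 : (vol n).real (near n r 0) = D := by
          rw [measureReal_def]
          have h3 := (Pool.Agent.N457.HG.Torus.torus n hn r hr (by linarith)).1 0
          have h4 : vol n (near n r 0) = ENNReal.ofReal D := h3
          rw [h4, ENNReal.toReal_ofReal hD0.le]
        linarith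
      have hm1 : 1 < m := by linarith
      obtain ⟨T', hT'T, hT'm, h1, h2⟩ := exists_between hcells hn T hT (M / lam) (by positivity) (by
        rw [div_lt_iff₀ hlam]
        linarith)
      set m' : ℝ := lam * (vol n).real T' with hm'
      have h3 : M / 2 < m' := by
        rw [hm']
        calc M / 2 = lam * (M / lam / 2) := by field_simp
          _ < lam * (vol n).real T' := mul_lt_mul_of_pos_left h1 hlam
      have h4 : m' ≤ M := by
        rw [hm']
        calc lam * (vol n).real T' ≤ lam * (M / lam) := mul_le_mul_of_nonneg_left h2 hlam.le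
          _ = M := by field_simp
      set ψ' : Torus n → ℝ≥0∞ := T'.indicator fun _ => c with hψ'
      have hint' : ∫⁻ y, ψ' y ∂(vol n) = ENNReal.ofReal m' := by
        rw [hψ', lintegral_indicator_const hT'm, hc, hm', ENNReal.ofReal_mul hlam.le,
          measureReal_def, ENNReal.ofReal_toReal (measure_ne_top _ _)]
      have h5 := close_le hloc2 hn hr hr4 T' hT'm (hT'T.trans hTB) lam m' M δ hlam hm' h4 hδ hδ2
      have h6 := Z_big (μ := vol n) hF (measurable_const.indicator hT'm : Measurable ψ') δ m' hδ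
        hδ1 (by linarith) hint' h5
      have h7 : Z (vol n) (far n r) ψ' ≤ Z (vol n) (far n r) ψ :=
        Z_mono fun y => Set.indicator_le_indicator_of_subset hT'T (fun _ => by simp) y
      have h8 : 0 < (Z (vol n) (far n r) ψ').toReal := by
        refine ENNReal.toReal_pos (lt_of_lt_of_le one_pos (one_le_Z _)).ne' ?_
        exact (h7.trans_lt (lt_top_iff_ne_top.2 hZf)).ne
      have h9 := Real.log_le_log h8 (ENNReal.toReal_mono hZf h7)
      have h10 := log_Z_le (μ := vol n) hF hψm m (by linarith) hint.le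
      have hlogm : Real.log m ≤ Real.log (lam * D) := Real.log_le_log (by linarith) hmL
      have hlogm0 : 0 < Real.log m := Real.log_pos hm1
      have h11 : M / 12 - 1 ≤ Real.log (lam * D) * (a / z) := by
        have h12 : 0 ≤ a / z := by positivity
        have h13 := mul_le_mul_of_nonneg_right hlogm h12
        linarith
      have h12 := hqM (by linarith)
      have h13 : (1 + q) * z ≤ a := by
        have h14 : Real.log (lam * D) * (1 + q) ≤ Real.log (lam * D) * (a / z) := by linarith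
        have h15 := le_of_mul_le_mul_left h14 (by linarith)
        rwa [le_div_iff₀ (by linarith)] at h15
      have h14 : a ≤ a / (1 - δ) := by
        rw [le_div_iff₀ hδ']
        nlinarith
      have h15 : Real.exp (-q) / (1 - δ) * a = Real.exp (-q) * (a / (1 - δ)) := by
        field_simp
      have h16 := mul_le_mul_of_nonneg_left (h13.trans h14) (Real.exp_pos (-q)).le
      rw [h15]
      linarith
  have e1 : Z (vol n) (far n r) ψ = ENNReal.ofReal z := (ENNReal.ofReal_toReal hZf).symm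
  have e2 : Mn (vol n) (far n r) ψ = ENNReal.ofReal a := (ENNReal.ofReal_toReal hMf).symm
  have hq1 : 0 ≤ Real.exp (-q) / (1 - δ) := by positivity
  rw [e1, e2, ← ENNReal.ofReal_mul (by positivity), ← ENNReal.ofReal_mul hq1,
    ← ENNReal.ofReal_one, ← ENNReal.ofReal_add zero_le_one (by positivity)]
  exact ENNReal.ofReal_le_ofReal hreal

/-- **The lower bound on the torus, extended range.** -/
theorem low_torus2 (hloc2 : S_LOC2) (hcells : S_CELLS) (hn : 1 ≤ n) (hr : 0 < r)
    (hr4 : r ≤ 1 / 4) (lam M δ w w1 : ℝ) (hlam : 0 < lam) (hM : 1 ≤ M) (hδ : 0 ≤ δ)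
    (hδ1 : δ ≤ 1 / 2)
    (hδ2 : 4 * (lam * ballVol n r) * (M * Real.sqrt 0.7045 ^ n +
      3 * (lam * ballVol n r) * Real.sqrt 0.54 ^ n) ≤ δ ^ 2)
    (hqM : (1 + Real.log (1 + lam * ballVol n r)) * Real.log (lam * ballVol n r) ≤ M / 12 - 1)
    (hw : Z (vol n) (far n r) (fun _ => ENNReal.ofReal lam) = ENNReal.ofReal w)
    (hw1 : Z1 n r (ENNReal.ofReal lam) = ENNReal.ofReal w1) (hw0 : 1 ≤ w) (hw10 : 1 ≤ w1) :
    (1 - δ) * Real.log (w / w1) ≤ lam * ballVol n r * w1 / w := by
  have hF := far_adm n r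
  set D := ballVol n r with hD
  have hD0 : 0 < D := ballVol_pos hr
  set c : ℝ≥0∞ := ENNReal.ofReal lam with hc
  have hcne : c ≠ ∞ := ENNReal.ofReal_ne_top
  set B : Set (Torus n) := near n r 0 with hB
  have hBm : MeasurableSet B := meas_near 0
  have hBv : vol n B = ENNReal.ofReal D := by
    rw [hD]; exact (Pool.Agent.N457.HG.Torus.torus n hn r hr (by linarith)).1 0
  set φ : Torus n → ℝ≥0∞ := B.indicator fun _ => c with hφ
  set χ : Torus n → ℝ≥0∞ := Bᶜ.indicator fun _ => c with hχ
  have hφm : Measurable φ := measurable_const.indicator hBm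
  have hχm : Measurable χ := measurable_const.indicator hBm.compl
  have hsum : ∀ y, χ y + φ y = c := by
    intro y
    by_cases hy : y ∈ B
    · rw [hχ, hφ, Set.indicator_of_mem hy, Set.indicator_of_notMem (by simpa using hy), zero_add]
    · rw [hχ, hφ, Set.indicator_of_notMem hy, Set.indicator_of_mem (by simpa using hy), add_zero]
  have hχ1 : χ = fun y => c * far n r 0 y := by
    have h1 := mul_far (r := r) (univ : Set (Torus n)) c 0
    have h2 : (univ : Set (Torus n)) \ near n r 0 = Bᶜ := by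
      rw [hB, Set.compl_eq_univ_sdiff]
    rw [h2] at h1
    rw [hχ, ← h1]
    funext y
    rw [Set.indicator_of_mem (mem_univ y)]
  have hint : ∫⁻ y, φ y ∂(vol n) = c * ENNReal.ofReal D := by
    rw [hφ, lintegral_indicator_const hBm, hBv]
  have hsum' : (fun y => χ y + φ y) = fun _ => c := funext hsum
  have hE : ∫⁻ u, φ u * Z (vol n) (far n r) (fun y => (χ y + φ y) * far n r u y) ∂(vol n) =
      ENNReal.ofReal (lam * D * w1) := by
    simp only [hsum, Z_far]
    rw [lintegral_mul_const _ hφm, hint, hw1, hc, ← ENNReal.ofReal_mul hlam.le,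
      ← ENNReal.ofReal_mul (by positivity)]
  have hχZ : Z (vol n) (far n r) χ = ENNReal.ofReal w1 := by
    rw [hχ1, ← hw1]; rfl
  have hwpos : 0 < w := by linarith
  have hw1pos : 0 < w1 := by linarith
  -- `q`
  have hw1' : w1 ≤ w := by
    have h1 : Z1 n r c ≤ Z (vol n) (far n r) (fun _ => c) :=
      Z_mono fun y => mul_le_of_le_one_right (by simp) (hF.le_one 0 y)
    rw [hw, hw1] at h1
    exact (ENNReal.ofReal_le_ofReal_iff (by linarith)).1 h1
  have hww : w / w1 ≤ 1 + lam * D := by
    have h1 := Z_add_le (μ := vol n) hF hχm hφm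
    rw [hE, hsum', hw, hχZ, ← ENNReal.ofReal_add hw1pos.le (by positivity)] at h1
    have h2 := (ENNReal.ofReal_le_ofReal_iff (by positivity)).1 h1
    rw [div_le_iff₀ hw1pos]
    linarith
  set q := Real.log (w / w1) with hq
  have hq0 : 0 ≤ q := Real.log_nonneg (by
    rw [le_div_iff₀ (by linarith)]; linarith)
  have hqle : q ≤ Real.log (1 + lam * D) := Real.log_le_log (by positivity) hww
  have hqM' : 1 < lam * D → (1 + q) * Real.log (lam * D) ≤ M / 12 - 1 := by
    intro h
    exact (mul_le_mul_of_nonneg_right (by linarith) (Real.log_pos h).le).trans hqM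
  set P : (Torus n → ℝ≥0∞) → Prop := fun ψ => ∃ T : Set (Torus n), MeasurableSet T ∧ T ⊆ B ∧
    ψ = T.indicator fun _ => c with hP
  have hPF : ∀ ψ, P ψ → ∀ u, P (fun y => ψ y * far n r u y) := by
    rintro ψ ⟨T, hT, hTB, rfl⟩ u
    exact ⟨T \ near n r u, hT.diff (meas_near u), fun y hy => hTB hy.1, mul_far T c u⟩
  have key := low2 (μ := vol n) hF hχm hφm P hPF ⟨B, hBm, le_rfl, rfl⟩
    (ENNReal.ofReal (Real.exp (-q) * (1 + q))) (ENNReal.ofReal (Real.exp (-q) / (1 - δ))) (by
      rintro ψ ⟨T, hT, hTB, rfl⟩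
      exact pt_ineq hloc2 hcells hn hr hr4 T hT hTB lam M δ q hlam hM hδ hδ1 hδ2 hq0 hqM')
  have hδ' : 0 < 1 - δ := by linarith
  have hq1 : 0 ≤ Real.exp (-q) / (1 - δ) := by positivity
  rw [hE, hsum', hw, hχZ, ← ENNReal.ofReal_mul (by positivity), ← ENNReal.ofReal_mul hq1,
    ← ENNReal.ofReal_add hw1pos.le (by positivity)] at key
  have key2 := (ENNReal.ofReal_le_ofReal_iff (by positivity)).1 key
  have hexp : Real.exp (-q) = w1 / w := by
    rw [hq, ← Real.log_inv, Real.exp_log (by positivity), inv_div]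
  rw [hexp] at key2
  have h1 : w1 / w * (1 + q) * w = w1 * (1 + q) := by field_simp
  have h2 : w1 / w / (1 - δ) * (lam * D * w1) = w1 * (lam * D * w1 / w / (1 - δ)) := by
    field_simp
  rw [h1, h2] at key2
  have h3 : w1 * q ≤ w1 * (lam * D * w1 / w / (1 - δ)) := by linarith
  have h4 := le_of_mul_le_mul_left h3 hw1pos
  rw [le_div_iff₀ hδ'] at h4
  linarith

end Pool.Agent.N549.HG
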