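import Pool.Agent.N549.HG.Canon2
import Pool.Agent.N42.HG.Cont2
import Pool.Agent.N424.HG.Per

/-!
# Hard spheres on the torus: the theorems without hypotheses
-/

set_option autoImplicit false

namespace Pool.Agent.N549.HG

open MeasureTheory Set Finset Filter Topology
open scoped ENNReal NNReal

variable {n : ℕ} {r : ℝ}

theorem cont2 : S_CONT2 := Pool.Agent.N42.HG.cont2

theorem per : S_PER := Pool.Agent.N424.HG.per

/-- explicit lower bound for the density -/
theorem density_ge_explicit (hn : 1 ≤ n) (hr : 0 < r) (hr4 : r ≤ 1 / 4) (s δ : ℝ) (hs : 0 < s)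
    (hδ : δ = 2 * (Real.sqrt 3 / 2) ^ n * (s * Real.exp s)) (hδ1 : δ ≤ 1) :
    (1 - δ) * s ≤ ballVol n r * meanr n r (act n r s) := by
  have hconf : S_CONF := Pool.Agent.N364.HG.conf_eq
  have hD := ballVol_pos (n := n) hr
  have hl := act_pos (n := n) hr hs
  obtain ⟨w1, h1, h2, h3, h4⟩ := at_lam (n := n) (r := r) hconf _ hl
  have hZ := Zr_ge_one (n := n) (r := r) hconf _ hl.le
  have hw1 : 0 < w1 := by linarith
  have hw : 0 < Zr n r (act n r s) := by linarith
  have key := low_torus hn hr hr4 _ hl _ w1 (ballVol n r) δ (Z_const hconf _ hl.le) h3 hZ h1 rfl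
    (by rw [act_mul hr]; exact hδ) hδ1
  rw [act_mul hr] at key
  have e2 : ballVol n r * meanr n r (act n r s) = s * Real.exp s * w1 / Zr n r (act n r s) := by
    rw [h4, ← act_mul (n := n) hr s]; ring
  rw [e2]
  set y := s * Real.exp s * w1 / Zr n r (act n r s) with hy
  have hy0 : 0 < y := by rw [hy]; positivity
  have e3 : Zr n r (act n r s) / w1 = s * Real.exp s / y := by
    rw [hy]; field_simp
  rw [e3] at key
  have hδ0 : 0 ≤ δ := by rw [hδ]; positivity
  by_contra hcon
  push Not at hcon
  have h5 : 0 < 1 - δ := by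
    by_contra h
    have : (1 - δ) * s ≤ 0 := mul_nonpos_of_nonpos_of_nonneg (not_lt.1 h) hs.le
    linarith
  have h6 : y < s := by nlinarith
  have h7 : s < Real.log (s * Real.exp s / y) := by
    rw [Real.lt_log_iff_exp_lt (by positivity), lt_div_iff₀ hy0]
    calc Real.exp s * y < Real.exp s * s := mul_lt_mul_of_pos_left h6 (Real.exp_pos s)
      _ = s * Real.exp s := by ring
  have h8 : (1 - δ) * s < (1 - δ) * Real.log (s * Real.exp s / y) :=
    mul_lt_mul_of_pos_left h7 h5
  linarith

/-- convexity in the parameter `s` -/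
theorem conv_act (hr : 0 < r) (a b : ℝ) (ha : 0 < a) (hb : 0 < b) :
    (Real.log (b / a) + (b - a)) * (ballVol n r * meanr n r (act n r a)) ≤
      ballVol n r * Real.log (Zr n r (act n r b)) -
        ballVol n r * Real.log (Zr n r (act n r a)) := by
  have hconf : S_CONF := Pool.Agent.N364.HG.conf_eq
  have hD := ballVol_pos (n := n) hr
  have hA := act_pos (n := n) hr ha
  have hB := act_pos (n := n) hr hb
  have e1 : Real.log (act n r b / act n r a) = Real.log (b / a) + (b - a) := by
    have : act n r b / act n r a = b / a * Real.exp (b - a) := by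
      unfold act
      rw [Real.exp_sub]
      field_simp
    rw [this, Real.log_mul (by positivity) (Real.exp_pos _).ne', Real.log_exp]
  have c1 := conv_gas (n := n) (r := r) hconf _ _ hA hB
  rw [e1] at c1
  have := mul_le_mul_of_nonneg_left c1 hD.le
  linarith

/-- explicit lower bound for the pressure -/
theorem pressure_ge_explicit (hn : 1 ≤ n) (hr : 0 < r) (hr4 : r ≤ 1 / 4) (s δ : ℝ) (hs : 0 < s)
    (hδ : δ = 2 * (Real.sqrt 3 / 2) ^ n * (s * Real.exp s)) (hδ1 : δ ≤ 1) :
    (1 - δ) * (s + s ^ 2 / 2) ≤ ballVol n r * Real.log (Zr n r (act n r s)) := by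
  have hconf : S_CONF := Pool.Agent.N364.HG.conf_eq
  have hD := ballVol_pos (n := n) hr
  have hδ0 : 0 ≤ δ := by rw [hδ]; positivity
  refine Pool.Agent.N490.HG.lower (y := fun s => ballVol n r * meanr n r (act n r s))
    (p := fun s => ballVol n r * Real.log (Zr n r (act n r s))) (W := s) hδ0 hδ1 ?_ ?_ ?_ hs le_rfl
  · intro w hw
    exact mul_nonneg hD.le (Real.log_nonneg (Zr_ge_one (n := n) (r := r) hconf _
      (act_pos (n := n) hr hw).le))
  · intro w hw hws
    have h1 : 2 * (Real.sqrt 3 / 2) ^ n * (w * Real.exp w) ≤ δ := by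
      rw [hδ]
      have : w * Real.exp w ≤ s * Real.exp s :=
        mul_le_mul hws (Real.exp_le_exp.2 hws) (Real.exp_pos _).le hs.le
      exact mul_le_mul_of_nonneg_left this (by positivity)
    have h2 := density_ge_explicit hn hr hr4 w _ hw rfl (h1.trans hδ1)
    refine le_trans ?_ h2
    exact mul_le_mul_of_nonneg_right (by linarith) hw.le
  · intro a b ha hab
    exact conv_act hr a b ha (lt_of_lt_of_le ha hab)

end Pool.Agent.N549.HG
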