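import Pool.Agent.N549.HG.Dens

/-!
# Hard spheres on the torus: exponents of the density of the gas
-/

set_option autoImplicit false

namespace Pool.Agent.N549.HG

open MeasureTheory Set Finset Filter Topology
open scoped ENNReal NNReal

variable {n : ℕ} {r : ℝ}

theorem exists_W (L : ℝ) (hL : 0 < L) : ∃ s : ℝ, 0 < s ∧ s * Real.exp s = L := by
  have hc : ContinuousOn (fun s : ℝ => s * Real.exp s) (Icc 0 L) := by fun_prop
  have h1 : L ∈ Icc ((0 : ℝ) * Real.exp 0) (L * Real.exp L) := by
    constructor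
    · simp [hL.le]
    · have := Real.one_le_exp hL.le
      nlinarith
  obtain ⟨s, hs, he⟩ := intermediate_value_Icc hL.le hc h1
  refine ⟨s, ?_, he⟩
  rcases hs.1.lt_or_eq with h2 | h2
  · exact h2
  · exfalso
    rw [← h2] at he
    simp at he
    linarith

/-- an upper bound at all activities -/
theorem dens_le_gen (hcont : S_CONT2) (hn : 1 ≤ n) (hr : 0 < r) (hr2 : r ≤ 1 / 2) (x : ℝ)
    (hx : 0 ≤ x) : dens n r x ≤ (1 / 2) ^ n * ((1 + x * n) + (1 + x * n) ^ 2 / 2 +
      kap n * (Real.exp 1 * Real.exp (x * n))) := by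
  have hconf : S_CONF := Pool.Agent.N364.HG.conf_eq
  have hD := ballVol_pos (n := n) hr
  set D := ballVol n r with hDdef
  obtain ⟨s, hs, hse⟩ := exists_W (Real.exp 1 * Real.exp (x * n)) (by positivity)
  have h1 := pressure_le hcont hn hr hr2 s hs
  rw [hse, ← hDdef] at h1
  set lam := Real.exp (x * n) / D with hlam
  have hlam0 : 0 < lam := by positivity
  have h2 : act n r s = Real.exp 1 * lam := by
    unfold act; rw [hse, ← hDdef, hlam]; ring
  have h3 := conv_gas (n := n) (r := r) hconf lam (Real.exp 1 * lam) hlam0 (by positivity)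
  have h4 : Real.log (Real.exp 1 * lam / lam) = 1 := by
    rw [mul_div_assoc, div_self hlam0.ne', mul_one, Real.log_exp]
  have h5 := Real.log_nonneg (Zr_ge_one (n := n) (r := r) hconf _ hlam0.le)
  rw [h4, one_mul] at h3
  rw [h2] at h1
  have h6 : D * meanr n r lam ≤ s + s ^ 2 / 2 + kap n * (Real.exp 1 * Real.exp (x * n)) := by
    have h7 : meanr n r lam ≤ Real.log (Zr n r (Real.exp 1 * lam)) := by linarith
    exact (mul_le_mul_of_nonneg_left h7 hD.le).trans h1
  have h7 : s ≤ 1 + x * n := by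
    by_contra hcon
    push Not at hcon
    have h8 : 1 < s := lt_of_le_of_lt (by have : 0 ≤ x * n := by positivity
                                          linarith) hcon
    have h9 : Real.exp (1 + x * n) < s * Real.exp s := by
      calc Real.exp (1 + x * n) < Real.exp s := Real.exp_lt_exp.2 hcon
        _ = 1 * Real.exp s := (one_mul _).symm
        _ ≤ s * Real.exp s := mul_le_mul_of_nonneg_right h8.le (Real.exp_pos s).le
    rw [hse, Real.exp_add] at h9
    exact lt_irrefl _ h9
  unfold dens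
  refine mul_le_mul_of_nonneg_left (h6.trans ?_) (by positivity)
  have h8 : s ^ 2 ≤ (1 + x * n) ^ 2 := pow_le_pow_left₀ hs.le h7 2
  linarith

/-- the asymptotics of the density -/
theorem dens_asymp (hcont : S_CONT2) (ε : ℝ) (hε : 0 < ε) : ∃ n₀ : ℕ, ∀ n : ℕ, n₀ ≤ n →
    ∀ r : ℝ, 0 < r → r ≤ 1 / 4 → ∀ x : ℝ, 0 ≤ x → x ≤ (1 - Real.log 2) / 2 - ε →
      |2 ^ n * dens n r x - x * n| ≤ ε * n := by
  obtain ⟨n₁, h1⟩ := state2 hcont (min ε 1 / 2) (by positivity)
  have hlog : Tendsto (fun n : ℕ => (Real.log n + 3) / n) atTop (𝓝 0) := by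
    have h2 : Tendsto (fun n : ℕ => Real.log n / n) atTop (𝓝 0) := by
      have := Real.isLittleO_log_id_atTop.tendsto_div_nhds_zero.comp tendsto_natCast_atTop_atTop
      exact this
    have h3 : Tendsto (fun n : ℕ => 3 / (n : ℝ)) atTop (𝓝 0) :=
      tendsto_const_div_atTop_nhds_zero_nat 3
    have := h2.add h3
    rw [add_zero] at this
    refine this.congr fun n => ?_
    ring
  obtain ⟨n₂, hn₂⟩ := Filter.eventually_atTop.1
    (hlog.eventually_le_const (show (0 : ℝ) < ε / 2 by positivity))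
  refine ⟨max (max n₁ n₂) 1, fun n hn r hr hr4 x hx hxX => ?_⟩
  have hn1 : 1 ≤ n := (le_max_right _ _).trans hn
  have hnn1 : n₁ ≤ n := ((le_max_left _ _).trans (le_max_left _ _)).trans hn
  have hnn2 : n₂ ≤ n := ((le_max_right _ _).trans (le_max_left _ _)).trans hn
  have hnR : (1 : ℝ) ≤ n := by exact_mod_cast hn1
  have hD := ballVol_pos (n := n) hr
  obtain ⟨s, hs, hse⟩ := exists_W (Real.exp (x * n)) (Real.exp_pos _)
  have hmin : min ε 1 / 2 ≤ ε / 2 := by have := min_le_left ε 1; linarith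
  have hmin1 : min ε 1 / 2 ≤ 1 / 2 := by have := min_le_right ε 1; linarith
  obtain ⟨h3, -⟩ := h1 n hnn1 r hr hr4 s hs (by
    rw [hse]
    apply Real.exp_le_exp.2
    have h4 : min ε 1 / 2 ≤ ε := by linarith
    have h5 : x ≤ (1 - Real.log 2) / 2 - min ε 1 / 2 := by linarith
    exact mul_le_mul_of_nonneg_right h5 (by positivity))
  have hact : act n r s = Real.exp (x * n) / ballVol n r := by unfold act; rw [hse]
  rw [hact] at h3
  have h2d : 2 ^ n * dens n r x = ballVol n r * meanr n r (Real.exp (x * n) / ballVol n r) := by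
    unfold dens
    rw [← mul_assoc, ← mul_pow]
    norm_num
  rw [h2d]
  set y := ballVol n r * meanr n r (Real.exp (x * n) / ballVol n r) with hy
  -- `s` and `x n`
  have hlogs : Real.log s + s = x * n := by
    have := congrArg Real.log hse
    rwa [Real.log_mul hs.ne' (Real.exp_pos _).ne', Real.log_exp, Real.log_exp] at this
  have hlog2 := Real.log_two_gt_d9
  have hxn : x * n ≤ n := by
    have : x ≤ 1 := by linarith
    nlinarith
  have hsn : s ≤ n := by
    by_contra hcon
    push Not at hcon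
    have h5 : 0 < Real.log s := Real.log_pos (by linarith)
    linarith
  have hs2 : 1 / 2 ≤ s := by
    by_contra hcon
    push Not at hcon
    have h5 : Real.log s < 0 := Real.log_neg hs (by linarith)
    have h6 : 0 ≤ x * n := by positivity
    have h7 : Real.log s ≤ Real.log (1 / 2) := Real.log_le_log hs hcon.le
    rw [one_div, Real.log_inv] at h7
    linarith
  have h5 : |s - x * n| ≤ Real.log n + 1 := by
    have h6 : s - x * n = -Real.log s := by linarith
    rw [h6, abs_neg, abs_le]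
    constructor
    · have h7 : Real.log (1 / 2) ≤ Real.log s := Real.log_le_log (by norm_num) hs2
      rw [one_div, Real.log_inv] at h7
      have h8 := Real.log_two_lt_d9
      have h9 : 0 ≤ Real.log n := Real.log_nonneg hnR
      linarith
    · have h7 : Real.log s ≤ Real.log n := Real.log_le_log hs hsn
      linarith
  have h6 : (Real.log n + 3) / n ≤ ε / 2 := hn₂ n hnn2
  rw [div_le_iff₀ (by linarith)] at h6
  have h7 : min ε 1 / 2 * s ≤ ε / 2 * n := mul_le_mul hmin hsn hs.le (by positivity)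
  calc |y - x * n| = |(y - s) + (s - x * n)| := by congr 1; ring
    _ ≤ |y - s| + |s - x * n| := abs_add_le _ _
    _ ≤ ε * n := by linarith

/-! ### small balls -/

/-- the density of the gas for small balls (large torus) -/
noncomputable def gasDens (n : ℕ) (x : ℝ) : ℝ := limsup (fun r => dens n r x) (𝓝[>] 0)

/-- its exponent -/
noncomputable def gasRate (x : ℝ) (n : ℕ) : ℝ := -(Real.logb 2 (gasDens n x)) / n

theorem ev_small (r₀ : ℝ) (h : 0 < r₀) : ∀ᶠ r in 𝓝[>] (0 : ℝ), 0 < r ∧ r ≤ r₀ := by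
  filter_upwards [Ioc_mem_nhdsGT h] with r hr using hr

theorem dens_nonneg (hr : 0 < r) (x : ℝ) : 0 ≤ dens n r x := by
  have hconf : S_CONF := Pool.Agent.N364.HG.conf_eq
  have hD := ballVol_pos (n := n) hr
  obtain ⟨w1, h1, h2, h3, h4⟩ := at_lam (n := n) (r := r) hconf (Real.exp (x * n) / ballVol n r)
    (by positivity)
  have hZ := Zr_ge_one (n := n) (r := r) hconf (Real.exp (x * n) / ballVol n r) (by positivity)
  unfold dens
  rw [h4]
  positivity

theorem bdd_above (hper : S_PER) (hn : 1 ≤ n) (x : ℝ) :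
    IsBoundedUnder (· ≤ ·) (𝓝[>] (0 : ℝ)) fun r => dens n r x := by
  refine isBoundedUnder_of_eventually_le (a := Pool.Agent.H818R2.rho n) ?_
  filter_upwards [ev_small 1 one_pos] with r hr
  exact dens_le_rho hper hn hr.1 hr.2 x

theorem bdd_below (x : ℝ) :
    IsBoundedUnder (· ≥ ·) (𝓝[>] (0 : ℝ)) fun r => dens n r x := by
  refine isBoundedUnder_of_eventually_ge (a := 0) ?_
  filter_upwards [ev_small 1 one_pos] with r hr
  exact dens_nonneg hr.1 x

theorem gasDens_le (x a : ℝ) (r₀ : ℝ) (h0 : 0 < r₀) (h : ∀ r, 0 < r → r ≤ r₀ → dens n r x ≤ a) :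
    gasDens n x ≤ a := by
  unfold gasDens
  refine limsup_le_of_le (bdd_below x).isCoboundedUnder_le ?_
  filter_upwards [ev_small r₀ h0] with r hr
  exact h r hr.1 hr.2

theorem le_gasDens (hper : S_PER) (hn : 1 ≤ n) (x a : ℝ) (r₀ : ℝ) (h0 : 0 < r₀)
    (h : ∀ r, 0 < r → r ≤ r₀ → a ≤ dens n r x) : a ≤ gasDens n x := by
  unfold gasDens
  refine le_limsup_of_frequently_le (Filter.Eventually.frequently ?_) (bdd_above hper hn x)
  filter_upwards [ev_small r₀ h0] with r hr
  exact h r hr.1 hr.2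

theorem gasDens_le_rho (hper : S_PER) (hn : 1 ≤ n) (x : ℝ) :
    gasDens n x ≤ Pool.Agent.H818R2.rho n :=
  gasDens_le x _ 1 one_pos fun _ hr hr1 => dens_le_rho hper hn hr hr1 x

theorem gasDens_ge_half (hper : S_PER) (hn : 1 ≤ n) (x : ℝ) (hx : 0 ≤ x) :
    (1 / 2) ^ (n + 1) ≤ gasDens n x :=
  le_gasDens hper hn x _ (1 / 2) (by norm_num) fun _ hr hr2 => dens_ge_half hr hn hr2 x hx

theorem gasDens_le_gen (hcont : S_CONT2) (hn : 1 ≤ n) (x : ℝ) (hx : 0 ≤ x) :
    gasDens n x ≤ (1 / 2) ^ n * ((1 + x * n) + (1 + x * n) ^ 2 / 2 +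
      kap n * (Real.exp 1 * Real.exp (x * n))) :=
  gasDens_le x _ (1 / 2) (by norm_num) fun _ hr hr2 => dens_le_gen hcont hn hr hr2 x hx

theorem gasDens_ge_pack (hper : S_PER) (hn : 1 ≤ n) (s x : ℝ) (hs : 1 < s) (hs2 : s ≤ 3)
    (hx : 0 < x) (hxs : 0 ≤ x + Real.log ((s - 1) / 2)) :
    Pool.Agent.H818R2.rho n * (1 / s) ^ n * ((x + Real.log ((s - 1) / 2)) / x) -
      (1 / 2) ^ n / (x * n) ≤ gasDens n x := by
  set K := (1 / s) ^ n * ((x + Real.log ((s - 1) / 2)) / x) with hK
  have hK0 : 0 ≤ K := by rw [hK]; positivity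
  have key : ∀ c : ℝ, c < Pool.Agent.H818R2.rho n → c * K - (1 / 2) ^ n / (x * n) ≤
      gasDens n x := by
    intro c hc
    obtain ⟨r₀, hr0, h⟩ := Pool.Agent.N27.HG.tp n hn c hc
    refine le_gasDens hper hn x _ (min (1 / 2) (r₀ / s)) (lt_min (by norm_num) (by positivity))
      fun r hr hrr => ?_
    have h1 : r ≤ 1 / 2 := hrr.trans (min_le_left _ _)
    have h2 : s * r ≤ r₀ := by
      have := hrr.trans (min_le_right _ _)
      rw [le_div_iff₀ (by linarith)] at this
      linarith
    obtain ⟨N, p, hp, hN⟩ := h (s * r) (by positivity) h2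
    have h3 := dens_ge_pack hn hr h1 s x hs hs2 hx hxs N p hp
    refine le_trans ?_ h3
    have h4 := mul_le_mul_of_nonneg_right hN hK0
    rw [hK] at h4 ⊢
    linarith
  have h5 : Pool.Agent.H818R2.rho n * (1 / s) ^ n * ((x + Real.log ((s - 1) / 2)) / x) =
      Pool.Agent.H818R2.rho n * K := by rw [hK]; ring
  rw [h5]
  refine le_of_forall_pos_le_add fun e he => ?_
  have h6 := key (Pool.Agent.H818R2.rho n - e / (K + 1)) (by
    have : 0 < e / (K + 1) := by positivity
    linarith)
  have h7 : e / (K + 1) * K ≤ e := by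
    rw [div_mul_eq_mul_div, div_le_iff₀ (by positivity)]
    nlinarith
  nlinarith

/-! ### exponents -/

theorem rate_le_gasRate (hper : S_PER) (hn : 1 ≤ n) (x : ℝ) (hx : 0 ≤ x) :
    Pool.Agent.H818R2.rate n ≤ gasRate x n := by
  have hn0 : (0 : ℝ) < n := by exact_mod_cast hn
  have h1 := gasDens_ge_half hper hn x hx
  have h2 : 0 < gasDens n x := lt_of_lt_of_le (by positivity) h1
  unfold Pool.Agent.H818R2.rate gasRate
  rw [div_le_div_iff_of_pos_right hn0, neg_le_neg_iff]
  exact Real.logb_le_logb_of_le (by norm_num) h2 (gasDens_le_rho hper hn x)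

theorem gasRate_le (hper : S_PER) (hn : 1 ≤ n) (x : ℝ) (hx : 0 < x) (hnx : 1 ≤ x * n) :
    gasRate x n ≤ Pool.Agent.H818R2.rate n + Real.logb 2 (1 + 2 * Real.exp (-x)) +
      Real.logb 2 (Real.exp 1 * (n * x + 2)) / n := by
  have hn0 : (0 : ℝ) < n := by exact_mod_cast hn
  set s := 1 + 2 * Real.exp (-x) * Real.exp (1 / n) with hs
  have hs1 : 1 < s := by rw [hs]; have : 0 < 2 * Real.exp (-x) * Real.exp (1 / n) := by positivity
                         linarith
  have hexp : Real.exp (-x) * Real.exp (1 / n) ≤ 1 := by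
    rw [← Real.exp_add, Real.exp_le_one_iff]
    have : 1 / (n : ℝ) ≤ x := by rw [div_le_iff₀ hn0]; exact hnx
    linarith
  have hs3 : s ≤ 3 := by rw [hs]; linarith
  have hlog : Real.log ((s - 1) / 2) = -x + 1 / n := by
    have : (s - 1) / 2 = Real.exp (-x + 1 / n) := by rw [hs, Real.exp_add]; ring
    rw [this, Real.log_exp]
  have hxs : x + Real.log ((s - 1) / 2) = 1 / n := by rw [hlog]; ring
  have h1 := gasDens_ge_pack hper hn s x hs1 hs3 hx (by rw [hxs]; positivity)
  rw [hxs] at h1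
  have h2 := gasDens_ge_half hper hn x hx.le
  set G := gasDens n x with hG
  have hG0 : 0 < G := lt_of_lt_of_le (by positivity) h2
  set R := Pool.Agent.H818R2.rho n with hR
  have hR0 : 0 < R := Pool.Agent.H818R2.rho_pos hn
  -- `s ^ n ≤ e (1 + 2 exp (-x)) ^ n`
  set b := 1 + 2 * Real.exp (-x) with hb
  have hb0 : 0 < b := by positivity
  have hsb : s ≤ Real.exp (1 / n) * b := by
    have : 1 ≤ Real.exp (1 / (n : ℝ)) := Real.one_le_exp (by positivity)
    rw [hs, hb]
    nlinarith
  have hsn : s ^ n ≤ Real.exp 1 * b ^ n := by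
    calc s ^ n ≤ (Real.exp (1 / n) * b) ^ n := pow_le_pow_left₀ (by linarith) hsb n
      _ = Real.exp 1 * b ^ n := by
        rw [mul_pow, ← Real.exp_nat_mul]
        congr 2; field_simp
  have h3 : (1 / 2 : ℝ) ^ n ≤ 2 * G := by
    rw [pow_succ] at h2
    linarith
  have h4 : R * (1 / s) ^ n * (1 / n / x) ≤ G * (1 + 2 / (x * n)) := by
    have h5 : (1 / 2 : ℝ) ^ n / (x * n) ≤ 2 * G / (x * n) :=
      div_le_div_of_nonneg_right h3 (by positivity)
    have e : G * (1 + 2 / (x * n)) = G + 2 * G / (x * n) := by ring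
    rw [e]
    linarith
  have h5 : R ≤ G * (Real.exp 1 * (n * x + 2)) * b ^ n := by
    have h6 : R * (1 / s) ^ n * (1 / n / x) * (s ^ n * (n * x)) = R := by
      rw [div_pow, one_pow]
      have : s ≠ 0 := by linarith
      field_simp
    have h7 : R ≤ G * (1 + 2 / (x * n)) * (s ^ n * (n * x)) := by
      have h8 := mul_le_mul_of_nonneg_right h4 (show 0 ≤ s ^ n * (n * x) by positivity)
      rwa [h6] at h8
    have h8 : G * (1 + 2 / (x * n)) * (s ^ n * (n * x)) = G * (n * x + 2) * s ^ n := by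
      field_simp
    rw [h8] at h7
    calc R ≤ G * (n * x + 2) * s ^ n := h7
      _ ≤ G * (n * x + 2) * (Real.exp 1 * b ^ n) :=
          mul_le_mul_of_nonneg_left hsn (by positivity)
      _ = _ := by ring
  have h6 := Real.logb_le_logb_of_le (b := 2) (by norm_num) hR0 h5
  rw [Real.logb_mul (by positivity) (by positivity), Real.logb_mul hG0.ne' (by positivity),
    Real.logb_pow] at h6
  unfold gasRate Pool.Agent.H818R2.rate
  rw [← hG, ← hR]
  have h7 : -(Real.logb 2 R) / n + Real.logb 2 b + Real.logb 2 (Real.exp 1 * (n * x + 2)) / n =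
      (-(Real.logb 2 R) + n * Real.logb 2 b + Real.logb 2 (Real.exp 1 * (n * x + 2))) / n := by
    field_simp
  rw [h7]
  apply div_le_div_of_nonneg_right _ hn0.le
  linarith

end Pool.Agent.N549.HG
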