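import Pool.Agent.N549.HG.Rate2

/-!
# Hard spheres on the torus: limits of the exponents
-/

set_option autoImplicit false

namespace Pool.Agent.N549.HG

open MeasureTheory Set Finset Filter Topology
open scoped ENNReal NNReal

variable {n : ℕ} {r : ℝ}

theorem tendsto_logb_lin (a b : ℝ) (ha : 0 < a) (hb : 0 < b) :
    Tendsto (fun n : ℕ => Real.logb 2 (a * n + b) / n) atTop (𝓝 0) := by
  have h1 : Tendsto (fun n : ℕ => Real.log (a * n + b) / (a * n + b)) atTop (𝓝 0) := by
    have h2 : Tendsto (fun n : ℕ => a * (n : ℝ) + b) atTop atTop :=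
      tendsto_atTop_add_const_right _ _ (tendsto_natCast_atTop_atTop.const_mul_atTop ha)
    exact Real.isLittleO_log_id_atTop.tendsto_div_nhds_zero.comp h2
  have h3 : Tendsto (fun n : ℕ => (a + b / n) / Real.log 2) atTop (𝓝 ((a + 0) / Real.log 2)) :=
    (tendsto_const_nhds.add (tendsto_const_div_atTop_nhds_zero_nat b)).div_const _
  have h4 := h1.mul h3
  rw [zero_mul] at h4
  refine h4.congr' ?_
  filter_upwards [eventually_gt_atTop 0] with n hn
  have hn0 : (0 : ℝ) < n := by exact_mod_cast hn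
  have : 0 < a * (n : ℝ) + b := by positivity
  have h2 : Real.log 2 ≠ 0 := (Real.log_pos (by norm_num)).ne'
  unfold Real.logb
  field_simp

theorem gasRate_le_ev (hper : S_PER) (x ε : ℝ) (hx : 0 < x) (hε : 0 < ε) :
    ∀ᶠ n : ℕ in atTop, gasRate x n ≤
      Pool.Agent.H818R2.rate n + Real.logb 2 (1 + 2 * Real.exp (-x)) + ε := by
  have h1 := tendsto_logb_lin (Real.exp 1 * x) (Real.exp 1 * 2) (by positivity) (by positivity)
  have h2 : ∀ᶠ n : ℕ in atTop, 1 / x ≤ (n : ℝ) :=
    tendsto_natCast_atTop_atTop.eventually_ge_atTop _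
  filter_upwards [h1.eventually_le_const hε, h2, eventually_ge_atTop 1] with n hn h3 h4
  have h5 := gasRate_le hper h4 x hx (by
    rw [div_le_iff₀ hx] at h3
    linarith)
  have h6 : Real.exp 1 * (n * x + 2) = Real.exp 1 * x * n + Real.exp 1 * 2 := by ring
  rw [h6] at h5
  linarith

/-- a lower bound for the exponent at all activities -/
theorem le_gasRate_ev (hcont : S_CONT2) (hper : S_PER) (x ε : ℝ) (hx : 0 ≤ x) (hε : 0 < ε) :
    ∀ᶠ n : ℕ in atTop, 1 - max 0 (x - (1 - Real.log 2) / 2) / Real.log 2 - ε ≤ gasRate x n := by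
  set X := (1 - Real.log 2) / 2 with hX
  set m := max 0 (x - X) with hm
  have hm0 : 0 ≤ m := le_max_left _ _
  have hmx : x - X ≤ m := le_max_right _ _
  -- the polynomial factor
  have hpoly : Tendsto (fun n : ℕ => 2 * (Real.logb 2 ((x + 6) * n + 6) / n)) atTop (𝓝 0) := by
    simpa using (tendsto_logb_lin (x + 6) 6 (by positivity) (by norm_num)).const_mul 2
  filter_upwards [hpoly.eventually_le_const hε, eventually_ge_atTop 1] with n hn h1
  have hn0 : (0 : ℝ) < n := by exact_mod_cast h1
  have hnR : (1 : ℝ) ≤ n := by exact_mod_cast h1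
  have h2 := gasDens_le_gen hcont h1 x hx
  have h3 := gasDens_ge_half hper h1 x hx
  have hG0 : 0 < gasDens n x := lt_of_lt_of_le (by positivity) h3
  have hlog2 : 0 < Real.log 2 := Real.log_pos (by norm_num)
  -- everything is at most `P ^ 2 * exp (m n)`
  set P := (x + 6) * n + 6 with hP
  have hP0 : 0 < P := by rw [hP]; positivity
  have h4 : (1 + x * n) + (1 + x * n) ^ 2 / 2 + kap n * (Real.exp 1 * Real.exp (x * n)) ≤
      P ^ 2 * Real.exp (m * n) := by
    have h5 : kap n * (Real.exp 1 * Real.exp (x * n)) ≤ 12 * (n + 1) * Real.exp (m * n) := by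
      unfold kap
      have h6 : Real.exp (-((1 - Real.log 2) / 2) * n) * Real.exp (x * n) ≤ Real.exp (m * n) := by
        rw [← Real.exp_add]
        apply Real.exp_le_exp.2
        have := mul_le_mul_of_nonneg_right hmx hn0.le
        rw [← hX]
        linarith
      have h7 : Real.pi * Real.exp 1 ≤ 12 := by
        have a1 := Real.pi_lt_d2
        have a2 := Real.exp_one_lt_d9
        nlinarith [Real.pi_pos, Real.exp_pos 1]
      calc Real.pi * (n + 1) * Real.exp (-((1 - Real.log 2) / 2) * n) *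
            (Real.exp 1 * Real.exp (x * n)) = Real.pi * Real.exp 1 * (n + 1) *
            (Real.exp (-((1 - Real.log 2) / 2) * n) * Real.exp (x * n)) := by ring
        _ ≤ 12 * (n + 1) * Real.exp (m * n) := by gcongr
    have h6 : 1 ≤ Real.exp (m * n) := Real.one_le_exp (by positivity)
    have h7 : (1 + x * n) + (1 + x * n) ^ 2 / 2 ≤
        ((1 + x * n) + (1 + x * n) ^ 2 / 2) * Real.exp (m * n) :=
      le_mul_of_one_le_right (by positivity) h6
    have h8 : (1 + x * n) + (1 + x * n) ^ 2 / 2 + 12 * (n + 1) ≤ P ^ 2 := by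
      rw [hP]
      have hxn : 0 ≤ x * n := by positivity
      nlinarith [mul_nonneg hxn hn0.le, mul_nonneg hn0.le hn0.le]
    nlinarith [mul_le_mul_of_nonneg_right h8 (Real.exp_pos (m * n)).le]
  have h5 : gasDens n x ≤ (1 / 2) ^ n * (P ^ 2 * Real.exp (m * n)) :=
    h2.trans (mul_le_mul_of_nonneg_left h4 (by positivity))
  have h6 := Real.logb_le_logb_of_le (b := 2) (by norm_num) hG0 h5
  rw [Real.logb_mul (by positivity) (by positivity), Real.logb_mul (by positivity) (by positivity),
    Real.logb_pow, Real.logb_pow] at h6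
  have h7 : Real.logb 2 (1 / 2) = -1 := by
    rw [one_div, Real.logb_inv, Real.logb_self_eq_one (by norm_num)]
  have h8 : Real.logb 2 (Real.exp (m * n)) = m * n / Real.log 2 := by
    unfold Real.logb; rw [Real.log_exp]
  rw [h7, h8] at h6
  unfold gasRate
  rw [le_div_iff₀ hn0]
  have h9 : 2 * Real.logb 2 P ≤ ε * n := by
    have : 2 * (Real.logb 2 P / n) ≤ ε := hn
    rw [← mul_div_assoc, div_le_iff₀ hn0] at this
    exact this
  have h10 : (1 - m / Real.log 2 - ε) * n = n - m * n / Real.log 2 - ε * n := by ring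
  rw [h10]
  push_cast at h6
  linarith

/-- the asymptotics of the density for large tori -/
theorem gasDens_asymp (hcont : S_CONT2) (hper : S_PER) (x : ℝ) (hx : 0 < x)
    (hxX : x < (1 - Real.log 2) / 2) :
    Tendsto (fun n : ℕ => 2 ^ n * gasDens n x / n) atTop (𝓝 x) := by
  rw [Metric.tendsto_atTop]
  intro e he
  set ε := min (e / 2) ((1 - Real.log 2) / 2 - x) with hε
  have hε0 : 0 < ε := lt_min (by linarith) (by linarith)
  obtain ⟨n₀, h⟩ := dens_asymp hcont ε hε0
  refine ⟨max n₀ 1, fun n hn => ?_⟩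
  have hn1 : 1 ≤ n := (le_max_right _ _).trans hn
  have hn0 : (0 : ℝ) < n := by exact_mod_cast hn1
  have h1 : ∀ r, 0 < r → r ≤ 1 / 4 → |2 ^ n * dens n r x - x * n| ≤ ε * n := fun r hr hr4 =>
    h n ((le_max_left _ _).trans hn) r hr hr4 x hx.le (by
      have := min_le_right (e / 2) ((1 - Real.log 2) / 2 - x); linarith)
  have h2 : gasDens n x ≤ (1 / 2) ^ n * ((x + ε) * n) :=
    gasDens_le x _ (1 / 4) (by norm_num) fun r hr hr4 => by
      have h3 := (abs_le.1 (h1 r hr hr4)).2
      have h4 : dens n r x = (1 / 2) ^ n * (2 ^ n * dens n r x) := by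
        rw [← mul_assoc, ← mul_pow]; norm_num
      rw [h4]
      exact mul_le_mul_of_nonneg_left (by linarith) (by positivity)
  have h3 : (1 / 2) ^ n * ((x - ε) * n) ≤ gasDens n x :=
    le_gasDens hper hn1 x _ (1 / 4) (by norm_num) fun r hr hr4 => by
      have h3 := (abs_le.1 (h1 r hr hr4)).1
      have h4 : dens n r x = (1 / 2) ^ n * (2 ^ n * dens n r x) := by
        rw [← mul_assoc, ← mul_pow]; norm_num
      rw [h4]
      exact mul_le_mul_of_nonneg_left (by linarith) (by positivity)
  have h4 : (2 : ℝ) ^ n * (1 / 2) ^ n = 1 := by rw [← mul_pow]; norm_num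
  have h5 : 2 ^ n * gasDens n x ≤ (x + ε) * n := by
    calc 2 ^ n * gasDens n x ≤ 2 ^ n * ((1 / 2) ^ n * ((x + ε) * n)) :=
          mul_le_mul_of_nonneg_left h2 (by positivity)
      _ = (x + ε) * n := by rw [← mul_assoc, h4, one_mul]
  have h6 : (x - ε) * n ≤ 2 ^ n * gasDens n x := by
    calc (x - ε) * n = 2 ^ n * ((1 / 2) ^ n * ((x - ε) * n)) := by rw [← mul_assoc, h4, one_mul]
      _ ≤ 2 ^ n * gasDens n x := mul_le_mul_of_nonneg_left h3 (by positivity)
  have h7 : 2 ^ n * gasDens n x / n ≤ x + ε := by rw [div_le_iff₀ hn0]; exact h5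
  have h8 : x - ε ≤ 2 ^ n * gasDens n x / n := by rw [le_div_iff₀ hn0]; exact h6
  rw [Real.dist_eq, abs_lt]
  have h9 : ε ≤ e / 2 := min_le_left _ _
  constructor <;> linarith

/-! ### the exponents as the activity grows -/

theorem gasRate_nonneg (hper : S_PER) (hn : 1 ≤ n) (x : ℝ) (hx : 0 ≤ x) : 0 ≤ gasRate x n :=
  (Pool.Agent.H818R2.rate_nonneg n).trans (rate_le_gasRate hper hn x hx)

theorem gasRate_le_two (hper : S_PER) (hn : 1 ≤ n) (x : ℝ) (hx : 0 ≤ x) : gasRate x n ≤ 2 := by
  have hn0 : (0 : ℝ) < n := by exact_mod_cast hn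
  have hnR : (1 : ℝ) ≤ n := by exact_mod_cast hn
  have h1 := gasDens_ge_half hper hn x hx
  have h2 := Real.logb_le_logb_of_le (b := 2) (by norm_num) (by positivity) h1
  rw [Real.logb_pow, one_div, Real.logb_inv, Real.logb_self_eq_one (by norm_num)] at h2
  unfold gasRate
  rw [div_le_iff₀ hn0]
  push_cast at h2
  linarith

theorem limsup_close (hper : S_PER) (x : ℝ) (hx : 0 < x) :
    limsup Pool.Agent.H818R2.rate atTop ≤ limsup (gasRate x) atTop ∧
    limsup (gasRate x) atTop ≤ limsup Pool.Agent.H818R2.rate atTop +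
      Real.logb 2 (1 + 2 * Real.exp (-x)) := by
  have hb1 := Pool.Agent.H818R2.rate_bdd atTop
  have hb2 := Pool.Agent.H818R2.rate_bdd' atTop
  have hg1 : IsBoundedUnder (· ≤ ·) atTop (gasRate x) := by
    refine isBoundedUnder_of_eventually_le (a := 2) ?_
    filter_upwards [eventually_ge_atTop 1] with n hn using gasRate_le_two hper hn x hx.le
  have hg2 : IsBoundedUnder (· ≥ ·) atTop (gasRate x) := by
    refine isBoundedUnder_of_eventually_ge (a := 0) ?_
    filter_upwards [eventually_ge_atTop 1] with n hn using gasRate_nonneg hper hn x hx.le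
  constructor
  · refine limsup_le_limsup ?_ hb2.isCoboundedUnder_le hg1
    filter_upwards [eventually_ge_atTop 1] with n hn using rate_le_gasRate hper hn x hx.le
  · refine le_of_forall_pos_le_add fun ε hε => ?_
    refine limsup_le_of_le hg2.isCoboundedUnder_le ?_
    have h1 : ∀ᶠ n in atTop, Pool.Agent.H818R2.rate n <
        limsup Pool.Agent.H818R2.rate atTop + ε / 2 :=
      eventually_lt_of_limsup_lt (by linarith) hb1
    filter_upwards [gasRate_le_ev hper x (ε / 2) hx (by positivity), h1] with n h2 h3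
    linarith

theorem liminf_close (hper : S_PER) (x : ℝ) (hx : 0 < x) :
    liminf Pool.Agent.H818R2.rate atTop ≤ liminf (gasRate x) atTop ∧
    liminf (gasRate x) atTop ≤ liminf Pool.Agent.H818R2.rate atTop +
      Real.logb 2 (1 + 2 * Real.exp (-x)) := by
  have hb1 := Pool.Agent.H818R2.rate_bdd atTop
  have hb2 := Pool.Agent.H818R2.rate_bdd' atTop
  have hg1 : IsBoundedUnder (· ≤ ·) atTop (gasRate x) := by
    refine isBoundedUnder_of_eventually_le (a := 2) ?_
    filter_upwards [eventually_ge_atTop 1] with n hn using gasRate_le_two hper hn x hx.le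
  have hg2 : IsBoundedUnder (· ≥ ·) atTop (gasRate x) := by
    refine isBoundedUnder_of_eventually_ge (a := 0) ?_
    filter_upwards [eventually_ge_atTop 1] with n hn using gasRate_nonneg hper hn x hx.le
  constructor
  · refine liminf_le_liminf ?_ hb2 hg1.isCoboundedUnder_ge
    filter_upwards [eventually_ge_atTop 1] with n hn using rate_le_gasRate hper hn x hx.le
  · refine le_of_forall_pos_le_add fun ε hε => ?_
    have h1 : ∃ᶠ n in atTop, Pool.Agent.H818R2.rate n <
        liminf Pool.Agent.H818R2.rate atTop + ε / 2 :=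
      frequently_lt_of_liminf_lt hb1.isCoboundedUnder_ge (by linarith)
    refine liminf_le_of_frequently_le ?_ hg2
    refine (h1.and_eventually (gasRate_le_ev hper x (ε / 2) hx (by positivity))).mono ?_
    rintro n ⟨h2, h3⟩
    linarith

end Pool.Agent.N549.HG
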