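import Pool.Agent.N549.HG.Up

/-!
# Hard spheres on the torus: the series of the partition function
-/

set_option autoImplicit false

namespace Pool.Agent.N549.HG

open MeasureTheory Set Finset
open scoped ENNReal NNReal

variable {n : ℕ} {r : ℝ}

/-! ### power series with non-negative coefficients -/

/-- a convexity inequality -/
theorem conv (c : ℕ → ℝ) (hc : ∀ k, 0 ≤ c k) (lam lam' : ℝ) (h0 : 0 < lam) (h0' : 0 < lam')
    (hs : Summable fun k : ℕ => lam ^ k * c k) (hs1 : Summable fun k : ℕ => k * (lam ^ k * c k))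
    (hs' : Summable fun k : ℕ => lam' ^ k * c k) (hpos : 0 < ∑' k : ℕ, lam ^ k * c k) :
    Real.log (lam' / lam) * ((∑' k : ℕ, k * (lam ^ k * c k)) / ∑' k : ℕ, lam ^ k * c k) ≤
      Real.log (∑' k : ℕ, lam' ^ k * c k) - Real.log (∑' k : ℕ, lam ^ k * c k) := by
  set Z0 := ∑' k : ℕ, lam ^ k * c k with hZ0
  set M0 := ∑' k : ℕ, k * (lam ^ k * c k) with hM0
  set t := Real.log (lam' / lam) with ht
  set m := M0 / Z0 with hm
  have hexp : Real.exp t = lam' / lam := Real.exp_log (by positivity)
  have h1 : ∀ k : ℕ, Real.exp (t * m) * (1 - t * m) * (lam ^ k * c k) +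
      Real.exp (t * m) * t * (k * (lam ^ k * c k)) ≤ lam' ^ k * c k := by
    intro k
    have h2 : lam' ^ k = Real.exp (t * k) * lam ^ k := by
      rw [mul_comm t, Real.exp_nat_mul, hexp, div_pow]
      field_simp
    have h3 : 1 + (t * k - t * m) ≤ Real.exp (t * k - t * m) := by
      have := Real.add_one_le_exp (t * k - t * m); linarith
    have h4 : Real.exp (t * m) * (1 + (t * k - t * m)) ≤ Real.exp (t * k) := by
      calc Real.exp (t * m) * (1 + (t * k - t * m))
          ≤ Real.exp (t * m) * Real.exp (t * k - t * m) := by gcongr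
        _ = Real.exp (t * k) := by rw [← Real.exp_add]; ring_nf
    have h5 : 0 ≤ lam ^ k * c k := mul_nonneg (by positivity) (hc k)
    have h6 := mul_le_mul_of_nonneg_right h4 h5
    rw [h2]
    linarith
  have h7 := Summable.tsum_le_tsum h1 ((hs.mul_left _).add (hs1.mul_left _)) hs'
  rw [Summable.tsum_add (hs.mul_left _) (hs1.mul_left _), tsum_mul_left, tsum_mul_left,
    ← hZ0, ← hM0] at h7
  have h8 : Real.exp (t * m) * (1 - t * m) * Z0 + Real.exp (t * m) * t * M0 =
      Real.exp (t * m) * Z0 := by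
    have : M0 = m * Z0 := by rw [hm]; field_simp
    rw [this]; ring
  rw [h8] at h7
  have h9 : 0 < Real.exp (t * m) * Z0 := by positivity
  have h10 := Real.log_le_log h9 h7
  rw [Real.log_mul (Real.exp_pos _).ne' hpos.ne', Real.log_exp] at h10
  linarith

/-! ### the series -/

theorem conf_nonneg (k : ℕ) : 0 ≤ conf n r k := measureReal_nonneg

theorem conf_le_one (k : ℕ) : conf n r k ≤ 1 := measureReal_le_one

/-- the partition function -/
noncomputable def Zr (n : ℕ) (r lam : ℝ) : ℝ := ∑' k : ℕ, lam ^ k / k.factorial * conf n r k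

/-- the mean number of points -/
noncomputable def meanr (n : ℕ) (r lam : ℝ) : ℝ :=
  (∑' k : ℕ, k * (lam ^ k / k.factorial * conf n r k)) / Zr n r lam

theorem summable_Z (lam : ℝ) (h : 0 ≤ lam) :
    Summable fun k : ℕ => lam ^ k / k.factorial * conf n r k := by
  refine Summable.of_nonneg_of_le (fun k => ?_) (fun k => ?_) (Real.summable_pow_div_factorial lam)
  · exact mul_nonneg (by positivity) (conf_nonneg k)
  · exact mul_le_of_le_one_right (by positivity) (conf_le_one k)

theorem summable_M (lam : ℝ) (h : 0 ≤ lam) :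
    Summable fun k : ℕ => k * (lam ^ k / k.factorial * conf n r k) := by
  have h1 : Summable fun k : ℕ => (k : ℝ) * (lam ^ k / k.factorial) := by
    rw [← summable_nat_add_iff 1]
    have h2 : (fun k : ℕ => ((k + 1 : ℕ) : ℝ) * (lam ^ (k + 1) / (k + 1).factorial)) =
        fun k : ℕ => lam * (lam ^ k / k.factorial) := by
      funext k
      rw [Nat.factorial_succ]
      push_cast
      have : (k.factorial : ℝ) ≠ 0 := by exact_mod_cast k.factorial_ne_zero
      field_simp
      ring
    rw [h2]
    exact (Real.summable_pow_div_factorial lam).mul_left _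
  refine Summable.of_nonneg_of_le (fun k => ?_) (fun k => ?_) h1
  · exact mul_nonneg (by positivity) (mul_nonneg (by positivity) (conf_nonneg k))
  · exact mul_le_mul_of_nonneg_left (mul_le_of_le_one_right (by positivity) (conf_le_one k))
      (by positivity)

theorem A_const (hconf : S_CONF) (k : ℕ) (lam : ℝ) (h : 0 ≤ lam) :
    A (vol n) (far n r) k (fun _ => ENNReal.ofReal lam) =
      ENNReal.ofReal (lam ^ k * conf n r k) := by
  have h1 := A_smul (μ := vol n) (far_adm n r) (ENNReal.ofReal lam) k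
    (φ := fun _ => 1) measurable_const
  simp only [mul_one] at h1
  rw [h1, hconf, ENNReal.ofReal_mul (by positivity), ENNReal.ofReal_pow h]

theorem Z_const (hconf : S_CONF) (lam : ℝ) (h : 0 ≤ lam) :
    Z (vol n) (far n r) (fun _ => ENNReal.ofReal lam) = ENNReal.ofReal (Zr n r lam) := by
  unfold Z Zr
  rw [ENNReal.ofReal_tsum_of_nonneg (fun k => mul_nonneg (by positivity) (conf_nonneg k))
    (summable_Z lam h)]
  refine tsum_congr fun k => ?_
  rw [A_const hconf k lam h, ← ENNReal.ofReal_natCast, ← ENNReal.ofReal_div_of_pos (by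
    exact_mod_cast k.factorial_pos)]
  congr 1
  ring

theorem Mn_series (hconf : S_CONF) (lam : ℝ) (h : 0 ≤ lam) :
    Mn (vol n) (far n r) (fun _ => ENNReal.ofReal lam) =
      ENNReal.ofReal (∑' k : ℕ, k * (lam ^ k / k.factorial * conf n r k)) := by
  rw [Mn_eq (far_adm n r) measurable_const, ENNReal.ofReal_tsum_of_nonneg
    (fun k => mul_nonneg (by positivity) (mul_nonneg (by positivity) (conf_nonneg k)))
    (summable_M lam h), tsum_eq_zero_add' (f := fun k : ℕ =>
      ENNReal.ofReal (k * (lam ^ k / k.factorial * conf n r k))) ENNReal.summable]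
  simp only [Nat.cast_zero, zero_mul, ENNReal.ofReal_zero, zero_add]
  refine tsum_congr fun k => ?_
  rw [A_const hconf (k + 1) lam h, ← ENNReal.ofReal_natCast, ← ENNReal.ofReal_div_of_pos (by
    exact_mod_cast k.factorial_pos)]
  congr 1
  rw [Nat.factorial_succ]
  push_cast
  have : (k.factorial : ℝ) ≠ 0 := by exact_mod_cast k.factorial_ne_zero
  field_simp

theorem Zr_ge_one (hconf : S_CONF) (lam : ℝ) (h : 0 ≤ lam) : 1 ≤ Zr n r lam := by
  have h1 := one_le_Z (μ := vol n) (F := far n r) (fun _ => ENNReal.ofReal lam)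
  rw [Z_const hconf lam h, ENNReal.one_le_ofReal] at h1
  exact h1

/-- everything at one activity -/
theorem at_lam (hconf : S_CONF) (lam : ℝ) (h : 0 < lam) :
    ∃ w1 : ℝ, 1 ≤ w1 ∧ w1 ≤ Zr n r lam ∧ Z1 n r (ENNReal.ofReal lam) = ENNReal.ofReal w1 ∧
      meanr n r lam = lam * w1 / Zr n r lam := by
  have hF := far_adm n r
  have h1 : Z1 n r (ENNReal.ofReal lam) ≤ Z (vol n) (far n r) (fun _ => ENNReal.ofReal lam) :=
    Z_mono fun y => mul_le_of_le_one_right (by simp) (hF.le_one 0 y)
  rw [Z_const hconf lam h.le] at h1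
  have hne : Z1 n r (ENNReal.ofReal lam) ≠ ∞ := (h1.trans_lt ENNReal.ofReal_lt_top).ne
  have hZ := Zr_ge_one (n := n) (r := r) hconf lam h.le
  refine ⟨(Z1 n r (ENNReal.ofReal lam)).toReal, ?_, ?_, (ENNReal.ofReal_toReal hne).symm, ?_⟩
  · have h2 : 1 ≤ Z1 n r (ENNReal.ofReal lam) := one_le_Z _
    have := ENNReal.toReal_mono hne h2
    simpa using this
  · have := ENNReal.toReal_mono ENNReal.ofReal_ne_top h1
    rwa [ENNReal.toReal_ofReal (by linarith)] at this
  · unfold meanr
    congr 1
    have h3 := Mn_const (n := n) (r := r) (ENNReal.ofReal lam)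
    rw [Mn_series hconf lam h.le] at h3
    have h4 := congrArg ENNReal.toReal h3
    rw [ENNReal.toReal_ofReal, ENNReal.toReal_mul, ENNReal.toReal_ofReal h.le] at h4
    · exact h4
    · exact tsum_nonneg fun k => mul_nonneg (by positivity)
        (mul_nonneg (by positivity) (conf_nonneg k))

theorem conv_gas (hconf : S_CONF) (lam lam' : ℝ) (h : 0 < lam) (h' : 0 < lam') :
    Real.log (lam' / lam) * meanr n r lam ≤ Real.log (Zr n r lam') - Real.log (Zr n r lam) := by
  have e1 : ∀ l : ℝ, (fun k : ℕ => l ^ k / (k.factorial : ℝ) * conf n r k) =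
      fun k : ℕ => l ^ k * (conf n r k / k.factorial) := by
    intro l; funext k; ring
  have hc : ∀ k : ℕ, 0 ≤ conf n r k / (k.factorial : ℝ) := fun k =>
    div_nonneg (conf_nonneg k) (by positivity)
  have s1 := summable_Z (n := n) (r := r) lam h.le
  have s2 := summable_M (n := n) (r := r) lam h.le
  have s3 := summable_Z (n := n) (r := r) lam' h'.le
  have hp : 0 < Zr n r lam := lt_of_lt_of_le one_pos (Zr_ge_one hconf lam h.le)
  unfold Zr at hp
  unfold meanr Zr
  have e2 : ∀ k : ℕ, (k : ℝ) * (lam ^ k / (k.factorial : ℝ) * conf n r k) =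
      k * (lam ^ k * (conf n r k / k.factorial)) := by intro k; ring
  simp only [e2] at s2 ⊢
  rw [e1] at s1 s3 hp
  simp only [e1]
  exact conv _ hc lam lam' h h' s1 s2 s3 hp

end Pool.Agent.N549.HG
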