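import Pool.Agent.N549.HG.Gas

/-!
# Hard spheres: the gas on `χ + φ` as a sum over the configurations on `χ`
-/

set_option autoImplicit false

namespace Pool.Agent.N549.HG

open MeasureTheory Set Finset
open scoped ENNReal NNReal

variable {Ω : Type} [MeasurableSpace Ω] {μ : Measure Ω} {F : Ω → Ω → ℝ≥0∞}

theorem nat_mul_div (m : ℕ) (hm : m ≠ 0) (x y : ℝ≥0∞) (_ : y ≠ 0) (_ : y ≠ ∞) :
    (m : ℝ≥0∞) * (x / ((m : ℝ≥0∞) * y)) = x / y := by
  have h0 : (m : ℝ≥0∞) ≠ 0 := by exact_mod_cast hm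
  have h1 : (m : ℝ≥0∞) ≠ ∞ := ENNReal.natCast_ne_top m
  rw [ENNReal.div_eq_inv_mul, ENNReal.mul_inv (Or.inl h0) (Or.inl h1), ENNReal.div_eq_inv_mul,
    ← mul_assoc, ← mul_assoc, ENNReal.mul_inv_cancel h0 h1, one_mul]

theorem fac_ne (k : ℕ) : (k.factorial : ℝ≥0∞) ≠ 0 := by
  exact_mod_cast k.factorial_ne_zero

theorem fac_top (k : ℕ) : (k.factorial : ℝ≥0∞) ≠ ∞ := ENNReal.natCast_ne_top _

theorem C_div [SFinite μ] (hF : Adm F) {Ψ : (Ω → ℝ≥0∞) → ℝ≥0∞} (h : Nice Ψ) (c : ℝ≥0∞)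
    (j : ℕ) (χ φ : Ω → ℝ≥0∞) (hχ : Measurable χ) (hφ : Measurable φ) :
    C μ F (fun ψ => Ψ ψ / c) j χ φ = C μ F Ψ j χ φ / c := by
  have h1 := C_const_mul (μ := μ) hF h c⁻¹ j χ φ hχ hφ
  simp only [ENNReal.div_eq_inv_mul]
  exact h1

/-- the terms of the double series -/
noncomputable def Tm (μ : Measure Ω) (F : Ω → Ω → ℝ≥0∞) (χ φ : Ω → ℝ≥0∞) (p : ℕ × ℕ) : ℝ≥0∞ :=
  C μ F (A μ F p.2) p.1 χ φ / ((p.1.factorial : ℝ≥0∞) * (p.2.factorial : ℝ≥0∞))

theorem split_A [SFinite μ] (hF : Adm F) (k : ℕ) (χ φ : Ω → ℝ≥0∞) (hχ : Measurable χ)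
    (hφ : Measurable φ) : A μ F k (fun y => χ y + φ y) / (k.factorial : ℝ≥0∞) =
      ∑ p ∈ Finset.HasAntidiagonal.antidiagonal k, Tm μ F χ φ p := by
  induction k generalizing χ φ with
  | zero => simp [Tm, C, A]
  | succ k ih =>
    have hk0 : ((k + 1 : ℕ) : ℝ≥0∞) ≠ 0 := by exact_mod_cast Nat.succ_ne_zero k
    have hk1 : ((k + 1 : ℕ) : ℝ≥0∞) ≠ ∞ := ENNReal.natCast_ne_top _
    refine (ENNReal.mul_right_inj hk0 hk1).1 ?_
    -- the left side
    have h1 : ((k + 1 : ℕ) : ℝ≥0∞) * (A μ F (k + 1) (fun y => χ y + φ y) /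
        ((k + 1).factorial : ℝ≥0∞)) = A μ F (k + 1) (fun y => χ y + φ y) /
          (k.factorial : ℝ≥0∞) := by
      rw [Nat.factorial_succ, Nat.cast_mul]
      exact nat_mul_div (k + 1) (Nat.succ_ne_zero k) _ _ (fac_ne k) (fac_top k)
    have h2 : A μ F (k + 1) (fun y => χ y + φ y) / (k.factorial : ℝ≥0∞) =
        ∫⁻ u, (χ u + φ u) * ∑ p ∈ Finset.HasAntidiagonal.antidiagonal k,
          Tm μ F (fun y => χ y * F u y) (fun y => φ y * F u y) p ∂μ := by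
      simp only [A]
      rw [ENNReal.div_eq_inv_mul, ← lintegral_const_mul']
      · refine lintegral_congr fun u => ?_
        rw [← ih _ _ (meas_mul hF hχ u) (meas_mul hF hφ u)]
        simp only [add_mul]
        rw [ENNReal.div_eq_inv_mul]
        ring
      · exact ENNReal.inv_ne_top.2 (fac_ne k)
    have hm : ∀ (ψ : Ω → ℝ≥0∞) (hψ : Measurable ψ) (p : ℕ × ℕ), Measurable fun u =>
        ψ u * Tm μ F (fun y => χ y * F u y) (fun y => φ y * F u y) p := by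
      intro ψ hψ p
      have := C_meas (μ := μ) hF (nice_A (μ := μ) hF p.2) p.1 hχ hφ
      exact hψ.mul (this.div_const _)
    have h3 : ∫⁻ u, (χ u + φ u) * ∑ p ∈ Finset.HasAntidiagonal.antidiagonal k,
          Tm μ F (fun y => χ y * F u y) (fun y => φ y * F u y) p ∂μ =
        (∑ p ∈ Finset.HasAntidiagonal.antidiagonal k, ∫⁻ u, χ u *
          Tm μ F (fun y => χ y * F u y) (fun y => φ y * F u y) p ∂μ) +
        ∑ p ∈ Finset.HasAntidiagonal.antidiagonal k, ∫⁻ u, φ u *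
          Tm μ F (fun y => χ y * F u y) (fun y => φ y * F u y) p ∂μ := by
      rw [← lintegral_finsetSum _ fun p _ => hm χ hχ p, ← lintegral_finsetSum _ fun p _ =>
        hm φ hφ p, ← lintegral_add_left]
      · refine lintegral_congr fun u => ?_
        rw [add_mul, Finset.mul_sum, Finset.mul_sum]
      · exact Finset.measurable_sum _ fun p _ => hm χ hχ p
    have h4 : ∀ p : ℕ × ℕ, ∫⁻ u, χ u *
          Tm μ F (fun y => χ y * F u y) (fun y => φ y * F u y) p ∂μ =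
        ((p.1 + 1 : ℕ) : ℝ≥0∞) * Tm μ F χ φ (p.1 + 1, p.2) := by
      intro p
      simp only [Tm]
      rw [Nat.factorial_succ, Nat.cast_mul, mul_assoc, nat_mul_div (p.1 + 1)
        (Nat.succ_ne_zero _) _ _ (mul_ne_zero (fac_ne _) (fac_ne _))
        (ENNReal.mul_ne_top (fac_top _) (fac_top _)), ENNReal.div_eq_inv_mul]
      simp only [C]
      rw [← lintegral_const_mul']
      · refine lintegral_congr fun u => ?_
        rw [ENNReal.div_eq_inv_mul]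
        ring
      · exact ENNReal.inv_ne_top.2 (mul_ne_zero (fac_ne _) (fac_ne _))
    have h5 : ∀ p : ℕ × ℕ, ∫⁻ u, φ u *
          Tm μ F (fun y => χ y * F u y) (fun y => φ y * F u y) p ∂μ =
        ((p.2 + 1 : ℕ) : ℝ≥0∞) * Tm μ F χ φ (p.1, p.2 + 1) := by
      intro p
      have h6 := C_swap (μ := μ) hF (nice_A (μ := μ) hF p.2) p.1 χ φ hχ hφ
      simp only [Tm]
      rw [Nat.factorial_succ, Nat.cast_mul, mul_left_comm, nat_mul_div (p.2 + 1)
        (Nat.succ_ne_zero _) _ _ (mul_ne_zero (fac_ne _) (fac_ne _))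
        (ENNReal.mul_ne_top (fac_top _) (fac_top _)), ENNReal.div_eq_inv_mul]
      have h7 : (fun ψ : Ω → ℝ≥0∞ => ∫⁻ u, ψ u * A μ F p.2 (fun y => ψ y * F u y) ∂μ) =
          A μ F (p.2 + 1) := by
        funext ψ; rfl
      rw [h7] at h6
      rw [← h6, ← lintegral_const_mul']
      · refine lintegral_congr fun u => ?_
        rw [ENNReal.div_eq_inv_mul]
        ring
      · exact ENNReal.inv_ne_top.2 (mul_ne_zero (fac_ne _) (fac_ne _))
    rw [h1, h2, h3]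
    simp only [h4, h5]
    have h8 : ((k + 1 : ℕ) : ℝ≥0∞) * ∑ p ∈ Finset.HasAntidiagonal.antidiagonal (k + 1), Tm μ F χ φ p =
        (∑ p ∈ Finset.HasAntidiagonal.antidiagonal (k + 1), (p.1 : ℝ≥0∞) * Tm μ F χ φ p) +
        ∑ p ∈ Finset.HasAntidiagonal.antidiagonal (k + 1), (p.2 : ℝ≥0∞) * Tm μ F χ φ p := by
      rw [← Finset.sum_add_distrib, Finset.mul_sum]
      refine Finset.sum_congr rfl fun p hp => ?_
      rw [Finset.HasAntidiagonal.mem_antidiagonal] at hp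
      rw [← add_mul, ← hp, Nat.cast_add]
    rw [h8, Finset.Nat.sum_antidiagonal_succ
      (f := fun p : ℕ × ℕ => (p.1 : ℝ≥0∞) * Tm μ F χ φ p), Finset.Nat.sum_antidiagonal_succ'
      (f := fun p : ℕ × ℕ => (p.2 : ℝ≥0∞) * Tm μ F χ φ p)]
    simp only [Nat.cast_zero, zero_mul, zero_add]

theorem tsum_antidiag (f : ℕ × ℕ → ℝ≥0∞) :
    ∑' k : ℕ, ∑ p ∈ Finset.HasAntidiagonal.antidiagonal k, f p = ∑' j : ℕ, ∑' l : ℕ, f (j, l) := by
  rw [← ENNReal.tsum_prod, ← Finset.HasAntidiagonal.sigmaAntidiagonalEquivProd.tsum_eq, ENNReal.tsum_sigma']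
  refine tsum_congr fun k => ?_
  rw [tsum_fintype, ← Finset.sum_coe_sort]
  rfl

theorem split_Z [SFinite μ] (hF : Adm F) (χ φ : Ω → ℝ≥0∞) (hχ : Measurable χ)
    (hφ : Measurable φ) : Z μ F (fun y => χ y + φ y) = Ext μ F (Z μ F) χ φ := by
  simp only [Z, Ext]
  rw [tsum_congr fun k => split_A (μ := μ) hF k χ φ hχ hφ, tsum_antidiag]
  refine tsum_congr fun j => ?_
  have h1 := C_tsum (μ := μ) hF (fun k => nice_div (nice_A (μ := μ) hF k) (k.factorial : ℝ≥0∞)) j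
    χ φ hχ hφ
  have h2 : C μ F (Z μ F) j χ φ = ∑' l : ℕ, C μ F (A μ F l) j χ φ / (l.factorial : ℝ≥0∞) := by
    refine h1.trans (tsum_congr fun l => ?_)
    exact C_div (μ := μ) hF (nice_A (μ := μ) hF l) _ j χ φ hχ hφ
  change _ = C μ F (Z μ F) j χ φ / (j.factorial : ℝ≥0∞)
  rw [h2, ENNReal.div_eq_inv_mul, ← ENNReal.tsum_mul_left]
  refine tsum_congr fun l => ?_
  simp only [Tm]
  rw [ENNReal.div_eq_inv_mul, ENNReal.div_eq_inv_mul, ENNReal.mul_inv (Or.inl (fac_ne j))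
    (Or.inl (fac_top j)), mul_assoc]

theorem split_one (χ φ : Ω → ℝ≥0∞) : Z μ F χ = Ext μ F (fun _ => 1) χ φ := by
  simp only [Z, Ext, C_one]

theorem Ext_swap [SFinite μ] (hF : Adm F) {Ψ : (Ω → ℝ≥0∞) → ℝ≥0∞} (h : Nice Ψ)
    (χ φ : Ω → ℝ≥0∞) (hχ : Measurable χ) (hφ : Measurable φ) :
    ∫⁻ u, φ u * Ext μ F Ψ (fun y => χ y * F u y) (fun y => φ y * F u y) ∂μ =
      Ext μ F (fun ψ => ∫⁻ u, ψ u * Ψ (fun y => ψ y * F u y) ∂μ) χ φ := by
  simp only [Ext]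
  have h1 : ∀ u : Ω, φ u * ∑' j : ℕ, C μ F Ψ j (fun y => χ y * F u y) (fun y => φ y * F u y) /
      (j.factorial : ℝ≥0∞) = ∑' j : ℕ, ((j.factorial : ℝ≥0∞)⁻¹ * (φ u *
        C μ F Ψ j (fun y => χ y * F u y) (fun y => φ y * F u y))) := by
    intro u
    rw [← ENNReal.tsum_mul_left]
    refine tsum_congr fun j => ?_
    rw [ENNReal.div_eq_inv_mul]
    ring
  simp only [h1]
  have h2 : ∀ j : ℕ, Measurable fun u => φ u *
      C μ F Ψ j (fun y => χ y * F u y) (fun y => φ y * F u y) := fun j =>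
    hφ.mul (C_meas (μ := μ) hF h j hχ hφ)
  rw [lintegral_tsum fun j => ((h2 j).const_mul _).aemeasurable]
  refine tsum_congr fun j => ?_
  rw [lintegral_const_mul _ (h2 j), C_swap (μ := μ) hF h j χ φ hχ hφ, ENNReal.div_eq_inv_mul]

theorem split_mean [SFinite μ] (hF : Adm F) (χ φ : Ω → ℝ≥0∞) (hχ : Measurable χ)
    (hφ : Measurable φ) : ∫⁻ u, φ u * Z μ F (fun y => (χ y + φ y) * F u y) ∂μ =
      Ext μ F (fun ψ => ∫⁻ u, ψ u * Z μ F (fun y => ψ y * F u y) ∂μ) χ φ := by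
  rw [← Ext_swap (μ := μ) hF (nice_Z (μ := μ) hF) χ φ hχ hφ]
  refine lintegral_congr fun u => ?_
  rw [← split_Z (μ := μ) hF _ _ (meas_mul hF hχ u) (meas_mul hF hφ u)]
  simp only [add_mul]

theorem split : S_SPLIT := fun _ _ _ _ _ hF χ φ hχ hφ =>
  ⟨nice_Z hF, split_Z hF χ φ hχ hφ, split_one χ φ, split_mean hF χ φ hχ hφ⟩

end Pool.Agent.N549.HG
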