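import Pool.Agent.N549.HG.Def

/-!
# Hard spheres on the torus: statements of the parts (project HG)
-/

set_option autoImplicit false

namespace Pool.Agent.N549.HG

open MeasureTheory Set Finset
open scoped ENNReal NNReal

/-! ### The Fourier transform of the ball -/

/-- HG/POS -/
def S_POS : Prop := ∀ (n : ℕ) (t : ℝ), 0 ≤ t → t ≤ (n : ℝ) / 2 → 0 ≤ In n t

/-- HG/OSC -/
def S_OSC : Prop := ∀ (n : ℕ) (t : ℝ), (n : ℝ) / 2 ≤ t →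
  |In n t| ≤ (Real.pi + 2) * Real.exp (-(3 / 20) * n)

/-- HG/SLICE -/
def S_SLICE : Prop := ∀ (n : ℕ), 1 ≤ n → ∀ (r : ℝ), 0 < r → ∀ (ξ : EuclideanSpace ℝ (Fin n)),
  ∫ x in Metric.ball (0 : EuclideanSpace ℝ (Fin n)) r, Real.cos (inner ℝ ξ x) =
    ballVol n r * (In n (r * ‖ξ‖) / In n 0)

/-- HG/TORUS: the ball in the torus -/
def S_TORUS : Prop := ∀ (n : ℕ), 1 ≤ n → ∀ (r : ℝ), 0 < r → r ≤ 1 / 2 →
  (∀ v : Torus n, vol n {y | sqd y v < r ^ 2} = ENNReal.ofReal (ballVol n r)) ∧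
  ∀ k : Fin n → ℤ,
    (∫ y in {y : Torus n | sqd y 0 < r ^ 2}, (∏ i, fourier (k i) (y i) : ℂ) ∂(vol n)).re =
    ∫ x in Metric.ball (0 : EuclideanSpace ℝ (Fin n)) r,
      Real.cos (inner ℝ ((2 * Real.pi) • (WithLp.toLp 2 fun i => (k i : ℝ))) x)

/-- HG/SUP: supersaturation from Fourier coefficients -/
def S_SUP : Prop := ∀ (n : ℕ) (N : Set (Torus n)), MeasurableSet N → (∀ y, -y ∈ N ↔ y ∈ N) →
  ∀ (D κ : ℝ), 0 ≤ D → 0 ≤ κ → (vol n).real N = D →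
  (∀ k : Fin n → ℤ, k ≠ 0 →
    -(κ * D) ≤ (∫ y in N, (∏ i, fourier (k i) (y i) : ℂ) ∂(vol n)).re) →
  ∀ K : Set (Torus n), MeasurableSet K →
    D * ((vol n).real K ^ 2 - κ * (vol n).real K) ≤
      ∫ x in K, (vol n).real (K ∩ {y | y - x ∈ N}) ∂(vol n)

/-- HG/LOC: pairs of near points of a subset of a ball -/
def S_LOC : Prop := ∀ (n : ℕ), 1 ≤ n → ∀ (r : ℝ), 0 < r → r ≤ 1 / 4 → ∀ (v : Torus n)
  (T : Set (Torus n)), MeasurableSet T → T ⊆ {y | sqd y v < r ^ 2} →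
  ∫⁻ u in T, vol n (T ∩ {y | sqd y u < r ^ 2}) ∂(vol n) ≤
    ENNReal.ofReal (2 * (Real.sqrt 3 / 2) ^ n * ballVol n r) * vol n T

/-- HG/CONT: the container recursion.  `z K` stands for the partition function of the set `K` with
activity `lam`. -/
def S_CONT : Prop := ∀ (Ω : Type) [MeasurableSpace Ω] (μ : Measure Ω) [IsProbabilityMeasure μ]
  (N : Ω → Set Ω), (∀ u, MeasurableSet (N u)) →
  (∀ K : Set Ω, MeasurableSet K → Measurable fun u => μ.real (K ∩ N u)) →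
  (∀ m : ℕ, 1 ≤ m → ∃ Q : Fin m → Set Ω, (∀ i, MeasurableSet (Q i)) ∧ (⋃ i, Q i) = univ ∧
    ∀ i, μ.real (Q i) ≤ 1 / m) →
  ∀ (D κ lam : ℝ), 0 < D → 0 ≤ κ → 0 < lam → κ * (lam * D) ≤ 1 / 4 →
  (∀ K : Set Ω, MeasurableSet K →
    D * (μ.real K ^ 2 - κ * μ.real K) ≤ ∫ x in K, μ.real (K ∩ N x) ∂μ) →
  ∀ z : Set Ω → ℝ, (∀ K, MeasurableSet K → z K ≤ Real.exp (lam * μ.real K)) →
  (∀ K, MeasurableSet K → 0 < z K) →
  (∀ K K', MeasurableSet K → MeasurableSet K' → K' ⊆ K → z K' ≤ z K) →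
  (∀ K, MeasurableSet K → ∀ B ⊆ K, MeasurableSet B → ∀ b : ℝ, (∀ u ∈ B, z (K \ N u) ≤ b) →
    z K ≤ z (K \ B) + lam * μ.real B * b) →
  z univ ≤ Real.exp ((Real.log (1 + lam * D) ^ 2 / 2 + 2 * Real.log (1 + lam * D) + 1) / D)

/-! ### The gas -/

section gas

/-- the properties of the weights of the pairs -/
structure Adm {Ω : Type} [MeasurableSpace Ω] (F : Ω → Ω → ℝ≥0∞) : Prop where
  meas : Measurable (Function.uncurry F)
  symm : ∀ x y, F x y = F y x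
  le_one : ∀ x y, F x y ≤ 1

/-- HG/SPLIT: the gas on `χ + φ` as a sum over the configurations on `χ` -/
def S_SPLIT : Prop := ∀ (Ω : Type) [MeasurableSpace Ω] (μ : Measure Ω) [SFinite μ]
  (F : Ω → Ω → ℝ≥0∞), Adm F → ∀ χ φ : Ω → ℝ≥0∞, Measurable χ → Measurable φ →
  Nice (Z μ F) ∧
  Z μ F (fun y => χ y + φ y) = Ext μ F (Z μ F) χ φ ∧
  Z μ F χ = Ext μ F (fun _ => 1) χ φ ∧
  ∫⁻ u, φ u * Z μ F (fun y => (χ y + φ y) * F u y) ∂μ =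
    Ext μ F (fun ψ => ∫⁻ u, ψ u * Z μ F (fun y => ψ y * F u y) ∂μ) χ φ

end gas

end Pool.Agent.N549.HG
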