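import Pool.Agent.N549.HG.Ser
import Pool.Agent.H818R2.Defs

/-!
# Hard spheres on the torus: statements of the second round (project HG)
-/

set_option autoImplicit false

namespace Pool.Agent.N549.HG

open MeasureTheory Set Finset
open scoped ENNReal NNReal

/-- HG/OSC2: the sharp bound for the Fourier transform of the ball beyond its first zero -/
def S_OSC2 : Prop := ∀ (n : ℕ) (t : ℝ), (n : ℝ) / 2 ≤ t →
  |In n t| ≤ 2 * Real.pi * Real.exp (-((1 - Real.log 2) / 2) * n)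

/-- HG/CONT2: the sharp container recursion.  `z K` stands for the partition function of the set `K`
with activity `lam`, where `lam * D = w * exp w`. -/
def S_CONT2 : Prop := ∀ (Ω : Type) [MeasurableSpace Ω] (μ : Measure Ω) [IsProbabilityMeasure μ]
  (N : Ω → Set Ω), (∀ u, MeasurableSet (N u)) →
  (∀ K : Set Ω, MeasurableSet K → Measurable fun u => μ.real (K ∩ N u)) →
  (∀ m : ℕ, 1 ≤ m → ∃ Q : Fin m → Set Ω, (∀ i, MeasurableSet (Q i)) ∧ (⋃ i, Q i) = univ ∧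
    ∀ i, μ.real (Q i) ≤ 1 / m) →
  ∀ (D κ lam w : ℝ), 0 < D → 0 ≤ κ → 0 < w → lam * D = w * Real.exp w →
  (∀ K : Set Ω, MeasurableSet K →
    D * (μ.real K ^ 2 - κ * μ.real K) ≤ ∫ x in K, μ.real (K ∩ N x) ∂μ) →
  ∀ z : Set Ω → ℝ, (∀ K, MeasurableSet K → z K ≤ Real.exp (lam * μ.real K)) →
  (∀ K, MeasurableSet K → 0 < z K) →
  (∀ K K', MeasurableSet K → MeasurableSet K' → K' ⊆ K → z K' ≤ z K) →
  (∀ K, MeasurableSet K → ∀ B ⊆ K, MeasurableSet B → ∀ b : ℝ, (∀ u ∈ B, z (K \ N u) ≤ b) →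
    z K ≤ z (K \ B) + lam * μ.real B * b) →
  z univ ≤ Real.exp ((w + w ^ 2 / 2 + κ * (lam * D)) / D)

/-- HG/LOC2: few pairs of near points in small subsets of a ball -/
def S_LOC2 : Prop := ∀ (n : ℕ), 1 ≤ n → ∀ (r : ℝ), 0 < r → r ≤ 1 / 4 → ∀ (v : Torus n)
  (T : Set (Torus n)), MeasurableSet T → T ⊆ {y | sqd y v < r ^ 2} →
  (∫⁻ u in T, vol n (T ∩ {y | sqd y u < r ^ 2}) ∂(vol n)) ^ 2 ≤
    ENNReal.ofReal (4 * ballVol n r) * vol n T ^ 2 *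
      (vol n T * ENNReal.ofReal (Real.sqrt 0.7045 ^ n) +
        ENNReal.ofReal (3 * ballVol n r * Real.sqrt 0.54 ^ n))

/-- HG/ASM2: the asymptotics.  `y w` is the mean number of points times the volume `D` of the ball,
`p w` is `D` times the logarithm of the partition function, at the activity `w * exp w / D`. -/
def S_ASM2 : Prop := ∀ ε : ℝ, 0 < ε → ∃ ε₁ : ℝ, 0 < ε₁ ∧ ∃ n₀ : ℕ, ∀ n : ℕ, n₀ ≤ n →
  ∀ y p : ℝ → ℝ,
  (∀ w, 0 < w → 0 < y w) →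
  (∀ w, 0 < w → 0 ≤ p w) →
  (∀ w, 0 < w → w * Real.exp w ≤ Real.exp ((1 - Real.log 2) / 2 * n) → (1 - ε₁) * w ≤ y w) →
  (∀ w, 0 < w → p w ≤ w + w ^ 2 / 2 +
    Real.pi * (n + 1) * Real.exp (-((1 - Real.log 2) / 2) * n) * (w * Real.exp w)) →
  (∀ a b, 0 < a → a ≤ b → (Real.log (b / a) + (b - a)) * y a ≤ p b - p a ∧
    p b - p a ≤ (Real.log (b / a) + (b - a)) * y b) →
  ∀ w, 0 < w → w * Real.exp w ≤ Real.exp (((1 - Real.log 2) / 2 - ε) * n) →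
    |y w - w| ≤ ε * w ∧ |p w - (w + w ^ 2 / 2)| ≤ ε * (w + w ^ 2 / 2)

/-- HG/CANON: from the partition function to its coefficients -/
def S_CANON : Prop := ∀ ε : ℝ, 0 < ε → ∃ ε₁ : ℝ, 0 < ε₁ ∧ ∃ D₀ : ℝ, 0 < D₀ ∧
  ∀ D X : ℝ, 0 < D → D ≤ D₀ → ∀ P : ℕ → ℝ, Antitone P → (∀ k, 0 ≤ P k ∧ P k ≤ 1) →
  (∀ w, 0 < w → w ≤ X →
    (1 - ε₁) * (w + w ^ 2 / 2) ≤
      D * Real.log (∑' k : ℕ, (w * Real.exp w / D) ^ k / k.factorial * P k) ∧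
    D * Real.log (∑' k : ℕ, (w * Real.exp w / D) ^ k / k.factorial * P k) ≤
      (1 + ε₁) * (w + w ^ 2 / 2)) →
  ∀ k : ℕ, ε ≤ k * D → (1 + ε) * (k * D) ≤ X →
    0 < P k ∧ |Real.log (P k) + k ^ 2 * D / 2| ≤ ε * (k ^ 2 * D)

/-- HG/LINK: a packing gives many configurations -/
def S_LINK : Prop := ∀ (n : ℕ), 1 ≤ n → ∀ r ρ : ℝ, 0 < r → 0 < ρ → ρ ≤ 1 / 2 →
  ∀ (N : ℕ) (c : Fin N → Torus n), (∀ i j, i ≠ j → (r + 2 * ρ) ^ 2 ≤ sqd (c i) (c j)) →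
  (N.factorial : ℝ) * ballVol n ρ ^ N ≤ conf n r N

/-- HG/PER: a packing of the torus gives a periodic packing of the space -/
def S_PER : Prop := ∀ (n : ℕ), 1 ≤ n → ∀ r : ℝ, 0 < r → r ≤ 1 →
  ∀ (N : ℕ) (c : Fin N → Torus n), (∀ i j, i ≠ j → r ^ 2 ≤ sqd (c i) (c j)) →
  (N : ℝ) * ballVol n (r / 2) ≤ Pool.Agent.H818R2.rho n

/-- HG/TP: packings of the torus by small balls nearly as dense as packings of the space -/
def S_TP : Prop := ∀ (n : ℕ), 1 ≤ n → ∀ c : ℝ, c < Pool.Agent.H818R2.rho n →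
  ∃ r₀ : ℝ, 0 < r₀ ∧ ∀ r : ℝ, 0 < r → r ≤ r₀ →
  ∃ (N : ℕ) (x : Fin N → Torus n), (∀ i j, i ≠ j → r ^ 2 ≤ sqd (x i) (x j)) ∧
    c ≤ (N : ℝ) * ballVol n (r / 2)

end Pool.Agent.N549.HG
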