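import Pool.Agent.N549.HG.Main

/-!
# Hard spheres: statements for the thermodynamic limit (project HG, third round)
-/

set_option autoImplicit false

namespace Pool.Agent.N549.HG

open MeasureTheory Set Finset
open scoped ENNReal NNReal

/-- The volume of the configurations of `N` labelled points of the cube `[0, L]^d` with mutual
distances at least `b`. -/
noncomputable def boxVol (d : ℕ) (b L : ℝ) (N : ℕ) : ℝ :=
  (volume {x : Fin N → Fin d → ℝ | (∀ i k, x i k ∈ Set.Icc (0 : ℝ) L) ∧
    ∀ i j, i ≠ j → b ^ 2 ≤ ∑ k, (x i k - x j k) ^ 2}).toReal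

/-- HG/FREE: the cube with free boundary and the torus -/
def S_FREE : Prop := ∀ (d N : ℕ) (b L : ℝ), 1 ≤ d → 0 < b → 0 < L →
  L ^ (d * N) * conf d (b / L) N ≤ boxVol d b L N ∧
  boxVol d b L N ≤ (L + b) ^ (d * N) * conf d (b / (L + b)) N

end Pool.Agent.N549.HG
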