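import Pool.Agent.N549.HG.Stm4

/-!
# Hard spheres: statements for the thermodynamic limit, continued (project HG, third round)
-/

set_option autoImplicit false

namespace Pool.Agent.N549.HG

open MeasureTheory Set Finset
open scoped ENNReal NNReal

/-- The volume of the configurations of `k` labelled points of the region `R` with mutual
distances at least `b`. -/
noncomputable def regVol (d : ℕ) (b : ℝ) (R : Set (Fin d → ℝ)) (k : ℕ) : ℝ :=
  (volume {x : Fin k → Fin d → ℝ | (∀ i, x i ∈ R) ∧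
    ∀ i j, i ≠ j → b ^ 2 ≤ ∑ m, (x i m - x j m) ^ 2}).toReal

/-- HG/REG: regions between two cubes -/
def S_REG : Prop := ∀ (d k : ℕ) (b L : ℝ) (R : Set (Fin d → ℝ)), 0 < b → 2 * b < L →
  MeasurableSet R → (∀ x, (∀ m, x m ∈ Icc b (L - b)) → x ∈ R) →
  (∀ x ∈ R, ∀ m, x m ∈ Icc (0 : ℝ) L) →
  boxVol d b (L - 2 * b) k ≤ regVol d b R k ∧ regVol d b R k ≤ boxVol d b L k

/-- HG/LOWD: one more point at low density -/
def S_LOWD : Prop := ∀ (n k : ℕ) (r : ℝ), 1 ≤ n → 0 < r → r ≤ 1 / 4 → k * ballVol n r ≤ 1 / 2 →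
  (1 - k * ballVol n r) * conf n r k ≤ conf n r (k + 1) ∧
  conf n r (k + 1) ≤ (1 - k * ballVol n r + 2 * (k * ballVol n r) ^ 2) * conf n r k

end Pool.Agent.N549.HG
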