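import Pool.Agent.N549.HG.Thermo0
import Pool.Agent.N97.HG.Free

/-!
# Hard spheres: the thermodynamic limit (project HG)
-/

set_option autoImplicit false

namespace Pool.Agent.N549.HG

open MeasureTheory Set Finset Filter Topology
open scoped ENNReal NNReal

theorem ballVol_div (d : ℕ) {b L : ℝ} (hL : 0 < L) : ballVol d (b / L) = ballVol d b / L ^ d := by
  have h := Pool.Agent.N342.HG.ballVol_scale d (c := L⁻¹) (by positivity) b
  rw [div_eq_inv_mul, h, inv_pow]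
  ring

/-- the free energy per particle of `N` spheres of diameter `b` in the cube of side `L` -/
noncomputable def fe (d : ℕ) (b L : ℝ) (N : ℕ) : ℝ :=
  -(Real.log ((N.factorial : ℝ)⁻¹ * boxVol d b L N)) / N

/-- explicit bounds for the free energy -/
theorem fe_bounds (ε : ℝ) {d N : ℕ} {b L : ℝ} (hd : 1 ≤ d) (hb : 0 < b) (hL : 0 < L) (hN : 1 ≤ N)
    (h1 : 0 < conf d (b / L) N)
    (h2 : |Real.log (conf d (b / L) N) + N ^ 2 * ballVol d (b / L) / 2| ≤
      ε * (N ^ 2 * ballVol d (b / L)))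
    (h3 : 0 < conf d (b / (L + b)) N)
    (h4 : |Real.log (conf d (b / (L + b)) N) + N ^ 2 * ballVol d (b / (L + b)) / 2| ≤
      ε * (N ^ 2 * ballVol d (b / (L + b)))) :
    0 < boxVol d b L N ∧
    fe d b L N ≤ Real.log (N / L ^ d) - 1 + (1 / 2 + ε) * (N / L ^ d * ballVol d b) +
      (Real.log N + 1) / N ∧
    Real.log (N / (L + b) ^ d) - 1 + (1 / 2 - ε) * (N / (L + b) ^ d * ballVol d b) ≤
      fe d b L N := by
  obtain ⟨f1, f2⟩ := Pool.Agent.N97.HG.free d N b L hd hb hL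
  have hLb : 0 < L + b := by linarith
  have hN0 : (0 : ℝ) < N := by exact_mod_cast hN
  have hpos : 0 < L ^ (d * N) * conf d (b / L) N := by positivity
  have hbox : 0 < boxVol d b L N := lt_of_lt_of_le hpos f1
  have g1 := Real.log_le_log hpos f1
  have g2 := Real.log_le_log hbox f2
  rw [Real.log_mul (by positivity) h1.ne', Real.log_pow] at g1
  rw [Real.log_mul (by positivity) h3.ne', Real.log_pow] at g2
  rw [ballVol_div d hL] at h2
  rw [ballVol_div d hLb] at h4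
  have u1 := Pool.Agent.N424.HG.log_fact_up N hN
  have u2 := Pool.Agent.N424.HG.log_fact_low N hN
  have hfe : fe d b L N = (Real.log N.factorial - Real.log (boxVol d b L N)) / N := by
    unfold fe
    rw [Real.log_mul (by positivity) hbox.ne', Real.log_inv]
    ring
  refine ⟨hbox, ?_, ?_⟩
  · rw [hfe, div_le_iff₀ hN0, Real.log_div hN0.ne' (by positivity), Real.log_pow]
    have e : (Real.log N - d * Real.log L - 1 + (1 / 2 + ε) * (N / L ^ d * ballVol d b) +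
        (Real.log N + 1) / N) * N = (N + 1) * Real.log N - N + 1 - N * (d * Real.log L) +
        (1 / 2 + ε) * (N ^ 2 * (ballVol d b / L ^ d)) := by
      field_simp
      ring
    rw [e]
    push_cast at g1
    have := (abs_le.1 h2).1
    linarith
  · rw [hfe, le_div_iff₀ hN0, Real.log_div hN0.ne' (by positivity), Real.log_pow]
    have e : (Real.log N - d * Real.log (L + b) - 1 +
        (1 / 2 - ε) * (N / (L + b) ^ d * ballVol d b)) * N =
        N * Real.log N - N - N * (d * Real.log (L + b)) +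
        (1 / 2 - ε) * (N ^ 2 * (ballVol d b / (L + b) ^ d)) := by
      field_simp
      ring
    rw [e]
    push_cast at g2
    have := (abs_le.1 h4).2
    linarith

/-- **The free energy in high dimension.** -/
theorem free_energy (hlow : S_LOWD) (ε : ℝ) (hε : 0 < ε) : ∃ d₀ : ℕ, ∀ d : ℕ, d₀ ≤ d →
    ∀ b ρ : ℝ, 0 < b → 0 < ρ → ρ * ballVol d b ≤ ((1 - Real.log 2) / 2 - ε) * d →
    ∀ (N : ℕ → ℕ) (L : ℕ → ℝ), Tendsto L atTop atTop →
      Tendsto (fun j => (N j : ℝ) / L j ^ d) atTop (𝓝 ρ) →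
      ∀ᶠ j in atTop, 0 < boxVol d b (L j) (N j) ∧
        |fe d b (L j) (N j) - (Real.log ρ - 1 + ρ * ballVol d b / 2)| ≤
          ε * (ρ * ballVol d b) := by
  obtain ⟨n₀, k₀, h⟩ := canon_all hlow (ε / 2) (by positivity)
  refine ⟨max n₀ 1, fun d hd b ρ hb hρ hρX N L hL hNL => ?_⟩
  have hd1 : 1 ≤ d := (le_max_right _ _).trans hd
  have hd0 : (0 : ℝ) < d := by exact_mod_cast hd1
  have hdn : n₀ ≤ d := (le_max_left _ _).trans hd
  set V := ballVol d b with hV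
  have hV0 : 0 < V := ballVol_pos hb
  -- the sequences
  have hLb : Tendsto (fun j => L j + b) atTop atTop := tendsto_atTop_add_const_right _ _ hL
  have hLd : Tendsto (fun j => L j ^ d) atTop atTop := (tendsto_pow_atTop (by omega)).comp hL
  have hN : Tendsto (fun j => (N j : ℝ)) atTop atTop := by
    have h1 := hNL.pos_mul_atTop hρ hLd
    refine h1.congr' ?_
    filter_upwards [hL.eventually_gt_atTop 0] with j hj
    field_simp
  have hratio : Tendsto (fun j => L j / (L j + b)) atTop (𝓝 1) := by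
    have h1 : Tendsto (fun j => 1 - b / (L j + b)) atTop (𝓝 (1 - 0)) :=
      tendsto_const_nhds.sub (hLb.const_div_atTop b)
    rw [sub_zero] at h1
    refine h1.congr' ?_
    filter_upwards [hL.eventually_gt_atTop 0] with j hj
    have : L j + b ≠ 0 := by positivity
    field_simp
    ring
  have hNL' : Tendsto (fun j => (N j : ℝ) / (L j + b) ^ d) atTop (𝓝 ρ) := by
    have h1 := hNL.mul (hratio.pow d)
    rw [one_pow, mul_one] at h1
    refine h1.congr' ?_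
    filter_upwards [hL.eventually_gt_atTop 0] with j hj
    have : L j + b ≠ 0 := by positivity
    rw [div_pow]
    field_simp
  have hlogN : Tendsto (fun j => (Real.log (N j) + 1) / N j) atTop (𝓝 0) := by
    have h1 : Tendsto (fun x : ℝ => Real.log x / x) atTop (𝓝 0) := by
      have := Real.tendsto_pow_log_div_mul_add_atTop 1 0 1 one_ne_zero
      simpa using this
    have h2 : Tendsto (fun x : ℝ => 1 / x) atTop (𝓝 0) := by
      simpa using tendsto_inv_atTop_zero (𝕜 := ℝ)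
    have h3 := (h1.add h2).comp hN
    rw [add_zero] at h3
    refine h3.congr fun j => ?_
    simp only [Function.comp]
    ring
  -- limits of the bounds
  have hup : Tendsto (fun j => Real.log ((N j : ℝ) / L j ^ d) - 1 +
      (1 / 2 + ε / 2) * ((N j : ℝ) / L j ^ d * V) + (Real.log (N j) + 1) / N j) atTop
      (𝓝 (Real.log ρ - 1 + (1 / 2 + ε / 2) * (ρ * V) + 0)) :=
    (((hNL.log hρ.ne').sub_const 1).add ((hNL.mul_const V).const_mul _)).add hlogN
  have hlo : Tendsto (fun j => Real.log ((N j : ℝ) / (L j + b) ^ d) - 1 +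
      (1 / 2 - ε / 2) * ((N j : ℝ) / (L j + b) ^ d * V)) atTop
      (𝓝 (Real.log ρ - 1 + (1 / 2 - ε / 2) * (ρ * V))) :=
    ((hNL'.log hρ.ne').sub_const 1).add ((hNL'.mul_const V).const_mul _)
  have hρV : 0 < ρ * V := by positivity
  have hXlt : ρ * V < ((1 - Real.log 2) / 2 - ε / 2) * d := by nlinarith
  filter_upwards [hL.eventually_gt_atTop 0, hL.eventually_ge_atTop (4 * b),
    hN.eventually_ge_atTop ((max k₀ 1 : ℕ) : ℝ),
    (hNL.mul_const V).eventually_lt_const hXlt, (hNL'.mul_const V).eventually_lt_const hXlt,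
    hup.eventually_lt_const (show Real.log ρ - 1 + (1 / 2 + ε / 2) * (ρ * V) + 0 <
      Real.log ρ - 1 + ρ * V / 2 + ε * (ρ * V) by nlinarith),
    hlo.eventually_const_lt (show Real.log ρ - 1 + ρ * V / 2 - ε * (ρ * V) <
      Real.log ρ - 1 + (1 / 2 - ε / 2) * (ρ * V) by nlinarith)] with j c1 c2 c3 c4 c5 c6 c7
  have c3' : max k₀ 1 ≤ N j := by exact_mod_cast c3
  have hk : k₀ ≤ N j := (le_max_left _ _).trans c3'
  have hN1 : 1 ≤ N j := (le_max_right _ _).trans c3'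
  have hLb0 : 0 < L j + b := by linarith
  have q1 : b / L j ≤ 1 / 4 := by rw [div_le_iff₀ c1]; linarith
  have q2 : b / (L j + b) ≤ 1 / 4 := by rw [div_le_iff₀ hLb0]; linarith
  obtain ⟨h1, h2⟩ := h d hdn (b / L j) (by positivity) q1 (N j) hk (by
    rw [ballVol_div d c1, ← hV]
    have e : (N j : ℝ) * (V / L j ^ d) = N j / L j ^ d * V := by ring
    rw [e]; exact c4.le)
  obtain ⟨h3, h4⟩ := h d hdn (b / (L j + b)) (by positivity) q2 (N j) hk (by
    rw [ballVol_div d hLb0, ← hV]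
    have e : (N j : ℝ) * (V / (L j + b) ^ d) = N j / (L j + b) ^ d * V := by ring
    rw [e]; exact c5.le)
  obtain ⟨h5, h6, h7⟩ := fe_bounds (ε / 2) hd1 hb c1 hN1 h1 h2 h3 h4
  refine ⟨h5, ?_⟩
  rw [abs_le]
  constructor <;> linarith

/-- **No first order transition with a macroscopic density jump.** -/
theorem no_jump {V δ ρ₁ ρ₂ α β : ℝ} (hV : 0 < V) (hδ : 0 < δ) (h1 : 0 < ρ₁) (h12 : ρ₁ ≤ ρ₂)
    (F : ℝ → ℝ) (hF : ∀ ρ ∈ Icc ρ₁ ρ₂,
      |F ρ - (Real.log ρ - 1 + ρ * V / 2)| ≤ δ ^ 2 / 16 * (ρ * V))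
    (haff : ∀ ρ ∈ Icc ρ₁ ρ₂, ρ * F ρ = α + β * ρ) : ρ₂ - ρ₁ ≤ δ * ρ₂ := by
  have h2 : 0 < ρ₂ := lt_of_lt_of_le h1 h12
  set m := (ρ₁ + ρ₂) / 2 with hm
  have hm0 : 0 < m := by positivity
  have m1 : ρ₁ ∈ Icc ρ₁ ρ₂ := ⟨le_rfl, h12⟩
  have m2 : ρ₂ ∈ Icc ρ₁ ρ₂ := ⟨h12, le_rfl⟩
  have m3 : m ∈ Icc ρ₁ ρ₂ := ⟨by rw [hm]; linarith, by rw [hm]; linarith⟩
  set h : ℝ → ℝ := fun ρ => ρ * Real.log ρ - ρ + ρ ^ 2 * V / 2 with hh
  have key : ∀ ρ ∈ Icc ρ₁ ρ₂, |α + β * ρ - h ρ| ≤ δ ^ 2 / 16 * (ρ₂ ^ 2 * V) := by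
    intro ρ hρ
    have hρ0 : 0 < ρ := lt_of_lt_of_le h1 hρ.1
    rw [← haff ρ hρ]
    have e : ρ * F ρ - h ρ = ρ * (F ρ - (Real.log ρ - 1 + ρ * V / 2)) := by rw [hh]; ring
    rw [e, abs_mul, abs_of_pos hρ0]
    calc ρ * |F ρ - (Real.log ρ - 1 + ρ * V / 2)| ≤ ρ * (δ ^ 2 / 16 * (ρ * V)) :=
          mul_le_mul_of_nonneg_left (hF ρ hρ) hρ0.le
      _ = δ ^ 2 / 16 * (ρ ^ 2 * V) := by ring
      _ ≤ δ ^ 2 / 16 * (ρ₂ ^ 2 * V) := by
          have := pow_le_pow_left₀ hρ0.le hρ.2 2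
          gcongr
  have k1 := abs_le.1 (key _ m1)
  have k2 := abs_le.1 (key _ m2)
  have k3 := abs_le.1 (key _ m3)
  -- midpoint convexity of `x log x`
  have hconv : m * Real.log m ≤ (ρ₁ * Real.log ρ₁ + ρ₂ * Real.log ρ₂) / 2 := by
    have hc := Real.convexOn_mul_log.2 (mem_Ici.2 h1.le) (mem_Ici.2 h2.le)
      (show (0 : ℝ) ≤ 1 / 2 by norm_num) (show (0 : ℝ) ≤ 1 / 2 by norm_num) (by norm_num)
    simp only [smul_eq_mul] at hc
    have e : (1 / 2 : ℝ) * ρ₁ + 1 / 2 * ρ₂ = m := by rw [hm]; ring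
    rw [e] at hc
    linarith
  have h5 : (ρ₂ - ρ₁) ^ 2 * V / 4 ≤ h ρ₁ + h ρ₂ - 2 * h m := by
    have e : h ρ₁ + h ρ₂ - 2 * h m = (ρ₁ * Real.log ρ₁ + ρ₂ * Real.log ρ₂ - 2 * (m * Real.log m)) +
        (ρ₂ - ρ₁) ^ 2 * V / 4 := by
      simp only [hh]
      rw [hm]
      ring
    rw [e]
    linarith
  have h6 : h ρ₁ + h ρ₂ - 2 * h m ≤ 4 * (δ ^ 2 / 16 * (ρ₂ ^ 2 * V)) := by
    have e : α + β * ρ₁ + (α + β * ρ₂) - 2 * (α + β * m) = 0 := by rw [hm]; ring
    linarith [k1.1, k1.2, k2.1, k2.2, k3.1, k3.2]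
  have h7 : (ρ₂ - ρ₁) ^ 2 * V ≤ (δ * ρ₂) ^ 2 * V := by nlinarith
  have h8 := le_of_mul_le_mul_right h7 hV
  exact abs_le_of_sq_le_sq' h8 (by positivity) |>.2

end Pool.Agent.N549.HG
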