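import Pool.Agent.N549.HG.Stm5

/-!
# Hard spheres: low densities, and the mean number from the pressure (project HG)
-/

set_option autoImplicit false

namespace Pool.Agent.N549.HG

open MeasureTheory Set Finset Filter Topology
open scoped ENNReal NNReal

variable {n : ℕ} {r : ℝ}

theorem log_one_sub_ge {x : ℝ} (h0 : 0 ≤ x) (h1 : x ≤ 1 / 2) : -x - x ^ 2 ≤ Real.log (1 - x) := by
  rw [Real.le_log_iff_exp_le (by linarith)]
  have h2 : 1 + (x + x ^ 2) + (x + x ^ 2) ^ 2 / 2 ≤ Real.exp (x + x ^ 2) :=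
    Real.quadratic_le_exp_of_nonneg (by positivity)
  have h4 : 1 ≤ (1 - x) * (1 + (x + x ^ 2) + (x + x ^ 2) ^ 2 / 2) := by
    have e : (1 - x) * (1 + (x + x ^ 2) + (x + x ^ 2) ^ 2 / 2) =
        1 + x ^ 2 / 2 * ((1 - 2 * x) + x * (1 - x - x ^ 2)) := by ring
    rw [e]
    have : 0 ≤ x ^ 2 / 2 * ((1 - 2 * x) + x * (1 - x - x ^ 2)) := by
      refine mul_nonneg (by positivity) (add_nonneg (by linarith) (mul_nonneg h0 ?_))
      nlinarith
    linarith
  have h5 : Real.exp (-x - x ^ 2) * Real.exp (x + x ^ 2) = 1 := by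
    rw [← Real.exp_add]; ring_nf; exact Real.exp_zero
  have h6 : 1 ≤ (1 - x) * Real.exp (x + x ^ 2) :=
    h4.trans (mul_le_mul_of_nonneg_left h2 (by linarith))
  have h7 := Real.exp_pos (x + x ^ 2)
  have h8 : Real.exp (-x - x ^ 2) * Real.exp (x + x ^ 2) ≤ (1 - x) * Real.exp (x + x ^ 2) := by
    rw [h5]; exact h6
  exact le_of_mul_le_mul_right h8 h7

theorem low_bounds (hlow : S_LOWD) (hn : 1 ≤ n) (hr : 0 < r) (hr4 : r ≤ 1 / 4) (k : ℕ)
    (hk : k * ballVol n r ≤ 1 / 2) : 0 < conf n r k ∧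
    -(k ^ 2 * ballVol n r / 2) - k ^ 3 * ballVol n r ^ 2 ≤ Real.log (conf n r k) ∧
    Real.log (conf n r k) ≤ -(k * (k - 1) * ballVol n r / 2) + 2 * (k ^ 3 * ballVol n r ^ 2) := by
  have hD := ballVol_pos (n := n) hr
  induction k with
  | zero =>
    have h0 : conf n r 0 = 1 := by
      unfold conf
      have : {x : Fin 0 → Torus n | ∀ i j, i < j → r ^ 2 ≤ sqd (x i) (x j)} = univ := by
        ext x; simp
      rw [this]
      simp
    rw [h0]; simp
  | succ k ih =>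
    push_cast at hk
    set D := ballVol n r with hDd
    have hk0 : (0 : ℝ) ≤ k := Nat.cast_nonneg k
    have hk1 : k * D ≤ 1 / 2 := by nlinarith
    obtain ⟨h1, h2, h3⟩ := ih hk1
    obtain ⟨h4, h5⟩ := hlow n k r hn hr hr4 hk1
    rw [← hDd] at h4 h5
    have hkD : 0 ≤ k * D := by positivity
    have h6 : 0 < (1 - k * D) * conf n r k := mul_pos (by linarith) h1
    have h7 : 0 < conf n r (k + 1) := lt_of_lt_of_le h6 h4
    have h8 := Real.log_le_log h6 h4
    have h9 := Real.log_le_log h7 h5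
    have h10 : 0 < 1 - k * D + 2 * (k * D) ^ 2 := by nlinarith
    rw [Real.log_mul (by linarith) h1.ne'] at h8
    rw [Real.log_mul h10.ne' h1.ne'] at h9
    have h11 := log_one_sub_ge hkD hk1
    have h12 := Real.log_le_sub_one_of_pos h10
    refine ⟨h7, ?_, ?_⟩
    · push_cast
      have e1 : ((k : ℝ) + 1) ^ 2 * D / 2 = k ^ 2 * D / 2 + k * D + D / 2 := by ring
      have e2 : ((k : ℝ) + 1) ^ 3 * D ^ 2 = k ^ 3 * D ^ 2 + (k * D) ^ 2 +
        (2 * k ^ 2 + 3 * k + 1) * D ^ 2 := by ring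
      have e3 : 0 ≤ (2 * (k : ℝ) ^ 2 + 3 * k + 1) * D ^ 2 := by positivity
      rw [e1, e2]
      linarith
    · push_cast
      have e1 : ((k : ℝ) + 1) * (k + 1 - 1) * D / 2 = k * (k - 1) * D / 2 + k * D := by ring
      have e2 : ((k : ℝ) + 1) ^ 3 * D ^ 2 = k ^ 3 * D ^ 2 + (k * D) ^ 2 +
        (2 * k ^ 2 + 3 * k + 1) * D ^ 2 := by ring
      have e3 : 0 ≤ (2 * (k : ℝ) ^ 2 + 3 * k + 1) * D ^ 2 := by positivity
      rw [e1, e2]
      linarith

/-- the number of configurations at all densities -/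
theorem canon_all (hlow : S_LOWD) (ε : ℝ) (hε : 0 < ε) : ∃ n₀ k₀ : ℕ, ∀ n : ℕ, n₀ ≤ n →
    ∀ r : ℝ, 0 < r → r ≤ 1 / 4 → ∀ k : ℕ, k₀ ≤ k →
      k * ballVol n r ≤ ((1 - Real.log 2) / 2 - ε) * n →
      0 < conf n r k ∧ |Real.log (conf n r k) + k ^ 2 * ballVol n r / 2| ≤
        ε * (k ^ 2 * ballVol n r) := by
  set ε₁ := min ε (min (ε / 4) (1 / 2)) with hε₁
  have hε₁0 : 0 < ε₁ := by positivity
  have a1 : ε₁ ≤ ε := min_le_left _ _
  have a2 : ε₁ ≤ ε / 4 := (min_le_right _ _).trans (min_le_left _ _)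
  have a3 : ε₁ ≤ 1 / 2 := (min_le_right _ _).trans (min_le_right _ _)
  obtain ⟨n₁, h1⟩ := canon_torus cont2 ε₁ hε₁0
  obtain ⟨k₁, hk₁⟩ := exists_nat_ge (1 / ε)
  refine ⟨max n₁ 1, max k₁ 1, fun n hn r hr hr4 k hk hkD => ?_⟩
  have hn1 : 1 ≤ n := (le_max_right _ _).trans hn
  have hD := ballVol_pos (n := n) hr
  have hk0 : (0 : ℝ) < k := by
    have : 1 ≤ k := (le_max_right _ _).trans hk
    exact_mod_cast this
  rcases le_total ε₁ (k * ballVol n r) with h | h
  · obtain ⟨h2, h3⟩ := h1 n ((le_max_left _ _).trans hn) r hr hr4 k h (hkD.trans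
      (mul_le_mul_of_nonneg_right (by linarith) (Nat.cast_nonneg n)))
    exact ⟨h2, h3.trans (mul_le_mul_of_nonneg_right a1 (by positivity))⟩
  · obtain ⟨h2, h3, h4⟩ := low_bounds hlow hn1 hr hr4 k (h.trans a3)
    refine ⟨h2, ?_⟩
    set D := ballVol n r with hDd
    have hkε : 1 ≤ ε * k := by
      have : 1 / ε ≤ k := hk₁.trans (by exact_mod_cast (le_max_left _ _).trans hk)
      rw [div_le_iff₀ hε] at this
      linarith
    have h5 : (k : ℝ) ^ 3 * D ^ 2 ≤ ε / 4 * (k ^ 2 * D) := by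
      have : (k : ℝ) ^ 3 * D ^ 2 = (k * D) * (k ^ 2 * D) := by ring
      rw [this]
      exact mul_le_mul_of_nonneg_right (h.trans a2) (by positivity)
    have h6 : (k : ℝ) * D / 2 ≤ ε / 2 * (k ^ 2 * D) := by
      have : ε / 2 * ((k : ℝ) ^ 2 * D) = (ε * k) * (k * D / 2) := by ring
      rw [this]
      have h7 : 0 ≤ (k : ℝ) * D / 2 := by positivity
      nlinarith
    have h8 : 0 ≤ ε * ((k : ℝ) ^ 2 * D) := by positivity
    rw [abs_le]
    constructor
    · linarith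
    · have : (k : ℝ) * (k - 1) * D / 2 = k ^ 2 * D / 2 - k * D / 2 := by ring
      rw [this] at h4
      linarith

/-! ### The mean number from the pressure -/

theorem P_step {a b : ℝ} (ha : 0 < a) (hab : a ≤ b) :
    a * (Real.log (b / a) + (b - a)) ≤ (b + b ^ 2 / 2) - (a + a ^ 2 / 2) ∧
    (b + b ^ 2 / 2) - (a + a ^ 2 / 2) ≤ b * (Real.log (b / a) + (b - a)) := by
  have hb : 0 < b := lt_of_lt_of_le ha hab
  have h1 := Real.log_le_sub_one_of_pos (div_pos hb ha)
  have h2 := Real.one_sub_inv_le_log_of_pos (div_pos hb ha)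
  rw [inv_div] at h2
  have h3 : a * (b / a) = b := by field_simp
  have h4 : b * (a / b) = a := by field_simp
  constructor
  · have : a * Real.log (b / a) ≤ a * (b / a - 1) := mul_le_mul_of_nonneg_left h1 ha.le
    nlinarith
  · have : b * (1 - a / b) ≤ b * Real.log (b / a) := mul_le_mul_of_nonneg_left h2 hb.le
    nlinarith

/-- upper bound for the mean number -/
theorem step_up {w η ε₁ y b T pw pb Pw Pb : ℝ} (hw : 0 < w) (hη0 : 0 < η) (hη1 : η ≤ 1 / 4)
    (hε₁ : ε₁ = η ^ 2 / 8) (hb : b = (1 + η) * w) (hPw : Pw = w + w ^ 2 / 2)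
    (hPb : Pb = b + b ^ 2 / 2) (hT : T = Real.log (1 + η) + η * w)
    (hpw : |pw - Pw| ≤ ε₁ * Pw) (hpb : |pb - Pb| ≤ ε₁ * Pb)
    (hc : T * y ≤ pb - pw) (hP : Pb - Pw ≤ b * T) : y ≤ w + 2 * η * w := by
  have lb : η / 2 ≤ Real.log (1 + η) := by
    have h1 := Real.le_log_one_add_of_nonneg hη0.le
    refine le_trans ?_ h1
    rw [div_le_div_iff₀ (by norm_num) (by linarith)]
    nlinarith
  have hT1 : η / 2 * (1 + w) ≤ T := by rw [hT]; nlinarith
  have hT0 : 0 < T := lt_of_lt_of_le (by positivity) hT1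
  have hε0 : 0 ≤ ε₁ := by rw [hε₁]; positivity
  have hPs : Pw + Pb ≤ 4 * (w + w ^ 2) := by
    have h2 : b ≤ 5 / 4 * w := by rw [hb]; nlinarith
    have h3 : 0 < b := by rw [hb]; positivity
    have h4 : b ^ 2 ≤ (5 / 4 * w) ^ 2 := pow_le_pow_left₀ h3.le h2 2
    rw [hPw, hPb]
    nlinarith [mul_pos hw hw]
  have h5 : T * y ≤ b * T + ε₁ * (4 * (w + w ^ 2)) := by
    have h6 := abs_le.1 hpw
    have h7 := abs_le.1 hpb
    have h8 := mul_le_mul_of_nonneg_left hPs hε0
    have h9 : ε₁ * (Pw + Pb) = ε₁ * Pw + ε₁ * Pb := by ring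
    linarith [h6.1, h7.2]
  have h2 : ε₁ * (4 * (w + w ^ 2)) ≤ (η * w) * T := by
    have e : ε₁ * (4 * (w + w ^ 2)) = (η * w) * (η / 2 * (1 + w)) := by rw [hε₁]; ring
    rw [e]
    exact mul_le_mul_of_nonneg_left hT1 (by positivity)
  have h3 : T * y ≤ T * (b + η * w) := by linarith
  have h4 := le_of_mul_le_mul_left h3 hT0
  have h5 : b = w + η * w := by rw [hb]; ring
  linarith

/-- lower bound for the mean number -/
theorem step_low {w η ε₁ y a T pw pa Pw Pa : ℝ} (hw : 0 < w) (hη0 : 0 < η) (hη1 : η ≤ 1 / 4)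
    (hε₁ : ε₁ = η ^ 2 / 8) (ha : a = (1 - η) * w) (hPw : Pw = w + w ^ 2 / 2)
    (hPa : Pa = a + a ^ 2 / 2) (hT : T = -Real.log (1 - η) + η * w)
    (hpw : |pw - Pw| ≤ ε₁ * Pw) (hpa : |pa - Pa| ≤ ε₁ * Pa)
    (hc : -T * y ≤ pa - pw) (hP : a * T ≤ Pw - Pa) : w - 2 * η * w ≤ y := by
  have la : η ≤ -Real.log (1 - η) := by
    have := Real.log_le_sub_one_of_pos (show 0 < 1 - η by linarith)
    linarith
  have hT1 : η * (1 + w) ≤ T := by rw [hT]; nlinarith
  have hT0 : 0 < T := lt_of_lt_of_le (by positivity) hT1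
  have hε0 : 0 ≤ ε₁ := by rw [hε₁]; positivity
  have haw : a ≤ w := by rw [ha]; nlinarith
  have ha0 : 0 < a := by rw [ha]; exact mul_pos (by linarith) hw
  have hPs : Pw + Pa ≤ 4 * (w + w ^ 2) := by
    have h4 : a ^ 2 ≤ w ^ 2 := pow_le_pow_left₀ ha0.le haw 2
    rw [hPw, hPa]
    nlinarith [mul_pos hw hw]
  have h5 : a * T - ε₁ * (4 * (w + w ^ 2)) ≤ T * y := by
    have h6 := abs_le.1 hpw
    have h7 := abs_le.1 hpa
    have h8 := mul_le_mul_of_nonneg_left hPs hε0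
    have h9 : ε₁ * (Pw + Pa) = ε₁ * Pw + ε₁ * Pa := by ring
    linarith [h6.1, h7.2]
  have h2 : ε₁ * (4 * (w + w ^ 2)) ≤ (η * w) * T := by
    have e : ε₁ * (4 * (w + w ^ 2)) = (η * w) * (η / 2 * (1 + w)) := by rw [hε₁]; ring
    rw [e]
    refine mul_le_mul_of_nonneg_left (le_trans ?_ hT1) (by positivity)
    nlinarith
  have h3 : T * (a - η * w) ≤ T * y := by linarith
  have h4 := le_of_mul_le_mul_left h3 hT0
  have h5 : a = w - η * w := by rw [ha]; ring
  linarith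

/-- The mean number from the pressure: `y w` and `p w` are `D` times the mean number and `D` times
the logarithm of the partition function at the activity `w e^w / D`. -/
theorem mean_of_pressure (ε : ℝ) (hε : 0 < ε) : ∃ ε₁ : ℝ, 0 < ε₁ ∧ ε₁ ≤ ε ∧ ∃ n₀ : ℕ,
    ∀ n : ℕ, n₀ ≤ n → ∀ y p : ℝ → ℝ,
    (∀ w, 0 < w → w * Real.exp w ≤ Real.exp (((1 - Real.log 2) / 2 - ε₁) * n) →
      |p w - (w + w ^ 2 / 2)| ≤ ε₁ * (w + w ^ 2 / 2)) →
    (∀ a b, 0 < a → 0 < b → (Real.log (b / a) + (b - a)) * y a ≤ p b - p a) →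
    ∀ w, 0 < w → w * Real.exp w ≤ Real.exp (((1 - Real.log 2) / 2 - ε) * n) →
      |y w - w| ≤ ε * w ∧ |p w - (w + w ^ 2 / 2)| ≤ ε * (w + w ^ 2 / 2) := by
  set X := (1 - Real.log 2) / 2 with hX
  have hlog2 := Real.log_two_gt_d9
  have hX1 : X < 1 / 2 := by rw [hX]; linarith
  set η := min (ε / 4) (1 / 4) with hη
  have hη0 : 0 < η := by positivity
  have a1 : η ≤ ε / 4 := min_le_left _ _
  have a2 : η ≤ 1 / 4 := min_le_right _ _
  set ε₁ := η ^ 2 / 8 with hε₁
  have hε₁0 : 0 < ε₁ := by positivity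
  have b1 : ε₁ ≤ η / 32 := by rw [hε₁]; nlinarith
  have b2 : ε₁ ≤ ε := by linarith
  obtain ⟨n₁, hn₁⟩ := exists_nat_ge (2 / ε)
  refine ⟨ε₁, hε₁0, b2, n₁, fun n hn y p hp hc w hw hwX => ?_⟩
  have hnε : 2 ≤ ε * n := by
    have : 2 / ε ≤ n := hn₁.trans (by exact_mod_cast hn)
    rw [div_le_iff₀ hε] at this
    linarith
  have hn0 : (0 : ℝ) ≤ n := Nat.cast_nonneg n
  -- the allowed range
  have hw1 : w * Real.exp w ≤ Real.exp ((X - ε₁) * n) := hwX.trans (Real.exp_le_exp.2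
    (mul_le_mul_of_nonneg_right (by linarith) hn0))
  have hb0 : 0 < (1 + η) * w := by positivity
  have ha0 : 0 < (1 - η) * w := mul_pos (by linarith) hw
  have hwb : w ≤ (1 + η) * w := by nlinarith
  have haw : (1 - η) * w ≤ w := by nlinarith
  have haX : (1 - η) * w * Real.exp ((1 - η) * w) ≤ Real.exp ((X - ε₁) * n) := le_trans
    (mul_le_mul haw (Real.exp_le_exp.2 haw) (Real.exp_pos _).le hw.le) hw1
  have hbX : (1 + η) * w * Real.exp ((1 + η) * w) ≤ Real.exp ((X - ε₁) * n) := by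
    have h1 : (1 + η) * w * Real.exp ((1 + η) * w) =
        w * Real.exp w * ((1 + η) * Real.exp (η * w)) := by
      have : (1 + η) * w = w + η * w := by ring
      rw [this, Real.exp_add]
      ring
    have h2 : 1 + η ≤ Real.exp η := by have := Real.add_one_le_exp η; linarith
    have h3 : η * w ≤ η + η * n := by
      rcases le_total w 1 with h | h
      · nlinarith
      · have h4 : Real.exp w ≤ Real.exp ((X - ε) * n) := by
          refine le_trans ?_ hwX
          nlinarith [Real.exp_pos w]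
        have h5 := Real.exp_le_exp.1 h4
        have h6 : w ≤ n := by nlinarith
        nlinarith
    calc (1 + η) * w * Real.exp ((1 + η) * w) =
        w * Real.exp w * ((1 + η) * Real.exp (η * w)) := h1
      _ ≤ Real.exp ((X - ε) * n) * (Real.exp η * Real.exp (η + η * n)) := by
          gcongr
      _ = Real.exp ((X - ε) * n + (η + (η + η * n))) := by rw [← Real.exp_add, ← Real.exp_add]
      _ ≤ Real.exp ((X - ε₁) * n) := by
          apply Real.exp_le_exp.2
          have h7 : η * n ≤ ε / 4 * n := mul_le_mul_of_nonneg_right a1 hn0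
          have h8 : ε₁ * n ≤ ε / 4 * n := mul_le_mul_of_nonneg_right (by linarith) hn0
          nlinarith
  have pw := hp w hw hw1
  have pa := hp _ ha0 haX
  have pb := hp _ hb0 hbX
  have cb := hc w _ hw hb0
  have ca := hc w _ hw ha0
  have sb := P_step hw hwb
  have sa := P_step ha0 haw
  have eb : (1 + η) * w / w = 1 + η := by field_simp
  have ea : (1 - η) * w / w = 1 - η := by field_simp
  have ea' : Real.log (w / ((1 - η) * w)) = -Real.log (1 - η) := by
    rw [← inv_div, Real.log_inv, ea]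
  rw [eb] at cb sb
  rw [ea] at ca
  rw [ea'] at sa
  have hbw : (1 + η) * w - w = η * w := by ring
  have hwa : w - (1 - η) * w = η * w := by ring
  have haw' : (1 - η) * w - w = -(η * w) := by ring
  rw [hbw] at cb sb
  rw [hwa] at sa
  rw [haw'] at ca
  have up := step_up hw hη0 a2 rfl rfl rfl rfl rfl pw pb cb sb.2
  have lo := step_low hw hη0 a2 rfl rfl rfl rfl rfl pw pa (by
    have : -(-Real.log (1 - η) + η * w) * y w = (Real.log (1 - η) + -(η * w)) * y w := by ring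
    rw [this]; exact ca) sa.1
  have hηw : 2 * η * w ≤ ε * w := mul_le_mul_of_nonneg_right (by linarith) hw.le
  refine ⟨?_, ?_⟩
  · rw [abs_le]
    constructor <;> linarith
  · exact pw.trans (mul_le_mul_of_nonneg_right b2 (by positivity))

end Pool.Agent.N549.HG
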