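import Pool.Agent.N549.HG.Thermo

/-!
# Hard spheres in a large region with arbitrary boundary condition (project HG)
-/

set_option autoImplicit false

namespace Pool.Agent.N549.HG

open MeasureTheory Set Finset Filter Topology
open scoped ENNReal NNReal

/-- the partition function of the region `R` -/
noncomputable def ZReg (d : ℕ) (b : ℝ) (R : Set (Fin d → ℝ)) (lam : ℝ) : ℝ :=
  ∑' k : ℕ, lam ^ k / k.factorial * regVol d b R k

/-- the mean number of spheres in the region `R` -/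
noncomputable def mReg (d : ℕ) (b : ℝ) (R : Set (Fin d → ℝ)) (lam : ℝ) : ℝ :=
  (∑' k : ℕ, k * (lam ^ k / k.factorial * regVol d b R k)) / ZReg d b R lam

variable {d : ℕ} {b L : ℝ} {R : Set (Fin d → ℝ)}

theorem regVol_nonneg (k : ℕ) : 0 ≤ regVol d b R k := ENNReal.toReal_nonneg

theorem pow_scale {lam L' : ℝ} (k : ℕ) (x : ℝ) :
    lam ^ k / (k.factorial : ℝ) * (L' ^ (d * k) * x) =
      (lam * L' ^ d) ^ k / k.factorial * x := by
  rw [mul_pow, pow_mul]; ring

/-- bounds for the coefficients -/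
theorem reg_bounds (hreg : S_REG) (hd : 1 ≤ d) (hb : 0 < b) (hL : 2 * b < L)
    (hR : MeasurableSet R) (hR1 : ∀ x, (∀ m, x m ∈ Icc b (L - b)) → x ∈ R)
    (hR2 : ∀ x ∈ R, ∀ m, x m ∈ Icc (0 : ℝ) L) (k : ℕ) :
    (L - 2 * b) ^ (d * k) * conf d (b / (L - 2 * b)) k ≤ regVol d b R k ∧
    regVol d b R k ≤ (L + b) ^ (d * k) * conf d (b / (L + b)) k := by
  obtain ⟨h1, h2⟩ := hreg d k b L R hb hL hR hR1 hR2
  have h3 := (Pool.Agent.N97.HG.free d k b (L - 2 * b) hd hb (by linarith)).1
  have h4 := (Pool.Agent.N97.HG.free d k b L hd hb (by linarith)).2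
  exact ⟨h3.trans h1, h2.trans h4⟩

theorem reg_summable (hreg : S_REG) (hd : 1 ≤ d) (hb : 0 < b) (hL : 2 * b < L)
    (hR : MeasurableSet R) (hR1 : ∀ x, (∀ m, x m ∈ Icc b (L - b)) → x ∈ R)
    (hR2 : ∀ x ∈ R, ∀ m, x m ∈ Icc (0 : ℝ) L) {lam : ℝ} (hlam : 0 ≤ lam) :
    Summable (fun k : ℕ => lam ^ k / k.factorial * regVol d b R k) ∧
    Summable (fun k : ℕ => k * (lam ^ k / k.factorial * regVol d b R k)) := by
  have hLb : 0 < L + b := by linarith
  have h1 := summable_Z (n := d) (r := b / (L + b)) (lam * (L + b) ^ d) (by positivity)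
  have h2 := summable_M (n := d) (r := b / (L + b)) (lam * (L + b) ^ d) (by positivity)
  have h3 : ∀ k : ℕ, lam ^ k / (k.factorial : ℝ) * regVol d b R k ≤
      (lam * (L + b) ^ d) ^ k / k.factorial * conf d (b / (L + b)) k := fun k => by
    rw [← pow_scale]
    exact mul_le_mul_of_nonneg_left (reg_bounds hreg hd hb hL hR hR1 hR2 k).2 (by positivity)
  exact ⟨Summable.of_nonneg_of_le (fun k => mul_nonneg (by positivity) (regVol_nonneg k)) h3 h1,
    Summable.of_nonneg_of_le (fun k => mul_nonneg (by positivity) (mul_nonneg (by positivity)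
      (regVol_nonneg k))) (fun k => mul_le_mul_of_nonneg_left (h3 k) (by positivity)) h2⟩

/-- the partition function lies between two partition functions of the torus -/
theorem ZReg_bounds (hreg : S_REG) (hd : 1 ≤ d) (hb : 0 < b) (hL : 2 * b < L)
    (hR : MeasurableSet R) (hR1 : ∀ x, (∀ m, x m ∈ Icc b (L - b)) → x ∈ R)
    (hR2 : ∀ x ∈ R, ∀ m, x m ∈ Icc (0 : ℝ) L) {lam : ℝ} (hlam : 0 ≤ lam) :
    Zr d (b / (L - 2 * b)) (lam * (L - 2 * b) ^ d) ≤ ZReg d b R lam ∧
    ZReg d b R lam ≤ Zr d (b / (L + b)) (lam * (L + b) ^ d) := by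
  have hLb : 0 < L + b := by linarith
  have hL2 : 0 < L - 2 * b := by linarith
  have h0 := (reg_summable hreg hd hb hL hR hR1 hR2 hlam).1
  have h1 := summable_Z (n := d) (r := b / (L + b)) (lam * (L + b) ^ d) (by positivity)
  have h2 := summable_Z (n := d) (r := b / (L - 2 * b)) (lam * (L - 2 * b) ^ d) (by positivity)
  constructor
  · refine Summable.tsum_le_tsum (fun k => ?_) h2 h0
    rw [← pow_scale]
    exact mul_le_mul_of_nonneg_left (reg_bounds hreg hd hb hL hR hR1 hR2 k).1 (by positivity)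
  · refine Summable.tsum_le_tsum (fun k => ?_) h0 h1
    rw [← pow_scale]
    exact mul_le_mul_of_nonneg_left (reg_bounds hreg hd hb hL hR hR1 hR2 k).2 (by positivity)

theorem act_scale {L' s : ℝ} (hL' : 0 < L') (hb : 0 < b) :
    act d b s * L' ^ d = act d (b / L') s := by
  have := ballVol_pos (n := d) hb
  unfold act
  rw [ballVol_div d hL']
  field_simp

/-- **Arbitrary boundary conditions.** -/
theorem grand (hreg : S_REG) (ε : ℝ) (hε : 0 < ε) : ∃ d₀ : ℕ, ∀ d : ℕ, d₀ ≤ d →
    ∀ b : ℝ, 0 < b → ∃ L₀ : ℝ, ∀ L : ℝ, L₀ ≤ L → ∀ R : Set (Fin d → ℝ), MeasurableSet R →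
    (∀ x, (∀ m, x m ∈ Icc b (L - b)) → x ∈ R) → (∀ x ∈ R, ∀ m, x m ∈ Icc (0 : ℝ) L) →
    ∀ s : ℝ, 0 < s → s * Real.exp s ≤ Real.exp (((1 - Real.log 2) / 2 - ε) * d) →
      |ballVol d b / L ^ d * mReg d b R (act d b s) - s| ≤ ε * s ∧
      |ballVol d b / L ^ d * Real.log (ZReg d b R (act d b s)) - (s + s ^ 2 / 2)| ≤
        ε * (s + s ^ 2 / 2) := by
  obtain ⟨ε₁, hε₁, hε₁ε, n₁, h1⟩ := mean_of_pressure ε hε
  set ε₂ := min ε₁ 1 with hε₂
  have hε₂0 : 0 < ε₂ := by positivity
  have a1 : ε₂ ≤ ε₁ := min_le_left _ _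
  have a2 : ε₂ ≤ 1 := min_le_right _ _
  obtain ⟨n₂, h2⟩ := state2 cont2 (ε₂ / 2) (by positivity)
  refine ⟨max (max n₁ n₂) 1, fun d hd b hb => ?_⟩
  have hd1 : 1 ≤ d := (le_max_right _ _).trans hd
  have hdn1 : n₁ ≤ d := ((le_max_left _ _).trans (le_max_left _ _)).trans hd
  have hdn2 : n₂ ≤ d := ((le_max_right _ _).trans (le_max_left _ _)).trans hd
  have hd0 : (0 : ℝ) ≤ d := Nat.cast_nonneg d
  set V := ballVol d b with hV
  have hV0 : 0 < V := ballVol_pos hb
  -- ratios
  have t0 : Tendsto (fun L : ℝ => b / L) atTop (𝓝 0) := tendsto_id.const_div_atTop b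
  have t1 : Tendsto (fun L : ℝ => (1 + b / L) ^ d) atTop (𝓝 1) := by
    have := (t0.const_add 1).pow d
    simpa using this
  have t2 : Tendsto (fun L : ℝ => (1 - 2 * (b / L)) ^ d) atTop (𝓝 1) := by
    have := (((t0.const_mul 2).const_sub 1)).pow d
    simpa using this
  obtain ⟨L₁, hL₁⟩ := Filter.eventually_atTop.1
    (((t1.eventually_le_const (show (1 : ℝ) < 1 + ε₂ / 4 by linarith)).and
      (t2.eventually_const_le (show 1 - ε₂ / 4 < (1 : ℝ) by linarith))).and
      ((eventually_ge_atTop (6 * b)).and (eventually_gt_atTop 0)))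
  refine ⟨L₁, fun L hL R hR hR1 hR2 => ?_⟩
  obtain ⟨⟨c1, c2⟩, c3, c4⟩ := hL₁ L hL
  have hL2b : 2 * b < L := by linarith
  have hLb : 0 < L + b := by linarith
  have hLm : 0 < L - 2 * b := by linarith
  have hLd : 0 < L ^ d := by positivity
  have hact : ∀ w : ℝ, 0 < w → 0 < act d b w := fun w hw => act_pos hb hw
  have hconf : S_CONF := Pool.Agent.N364.HG.conf_eq
  have hZ1 : ∀ w : ℝ, 0 < w → 1 ≤ ZReg d b R (act d b w) := fun w hw => by
    refine le_trans ?_ (ZReg_bounds hreg hd1 hb hL2b hR hR1 hR2 (hact w hw).le).1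
    exact Zr_ge_one hconf _ (by have := hact w hw; positivity)
  refine h1 d hdn1 (fun s => V / L ^ d * mReg d b R (act d b s))
    (fun s => V / L ^ d * Real.log (ZReg d b R (act d b s))) ?_ ?_
  · intro w hw hwX
    obtain ⟨z1, z2⟩ := ZReg_bounds hreg hd1 hb hL2b hR hR1 hR2 (hact w hw).le
    rw [act_scale hLm hb] at z1
    rw [act_scale hLb hb] at z2
    have hwX2 : w * Real.exp w ≤ Real.exp (((1 - Real.log 2) / 2 - ε₂ / 2) * d) :=
      hwX.trans (Real.exp_le_exp.2 (mul_le_mul_of_nonneg_right (by linarith) hd0))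
    have q1 : b / (L - 2 * b) ≤ 1 / 4 := by rw [div_le_iff₀ hLm]; linarith
    have q2 : b / (L + b) ≤ 1 / 4 := by rw [div_le_iff₀ hLb]; linarith
    have s1 := (h2 d hdn2 (b / (L - 2 * b)) (by positivity) q1 w hw hwX2).2
    have s2 := (h2 d hdn2 (b / (L + b)) (by positivity) q2 w hw hwX2).2
    rw [ballVol_div d hLm, ← hV] at s1
    rw [ballVol_div d hLb, ← hV] at s2
    have p1 : 1 ≤ Zr d (b / (L - 2 * b)) (act d (b / (L - 2 * b)) w) :=
      Zr_ge_one hconf _ (act_pos (by positivity) hw).le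
    have hZ := hZ1 w hw
    have l1 := Real.log_le_log (by linarith) z1
    have l2 := Real.log_le_log (by linarith) z2
    set P := w + w ^ 2 / 2 with hP
    have hP0 : 0 < P := by positivity
    set Y := Real.log (ZReg d b R (act d b w)) with hY
    set Y1 := Real.log (Zr d (b / (L - 2 * b)) (act d (b / (L - 2 * b)) w)) with hY1
    set Y2 := Real.log (Zr d (b / (L + b)) (act d (b / (L + b)) w)) with hY2
    have r1 : (L - 2 * b) ^ d = (1 - 2 * (b / L)) ^ d * L ^ d := by
      rw [← mul_pow]; congr 1; field_simp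
    have r2 : (L + b) ^ d = (1 + b / L) ^ d * L ^ d := by
      rw [← mul_pow]; congr 1; field_simp
    have k1 : (1 - ε₂ / 2) * P ≤ V / (L - 2 * b) ^ d * Y1 := by linarith [(abs_le.1 s1).1]
    have k2 : V / (L + b) ^ d * Y2 ≤ (1 + ε₂ / 2) * P := by linarith [(abs_le.1 s2).2]
    have m1 : (1 - ε₂ / 4) * ((1 - ε₂ / 2) * P) ≤ V / L ^ d * Y := by
      calc (1 - ε₂ / 4) * ((1 - ε₂ / 2) * P)
          ≤ (1 - 2 * (b / L)) ^ d * ((1 - ε₂ / 2) * P) :=
            mul_le_mul_of_nonneg_right c2 (mul_nonneg (by linarith) hP0.le)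
        _ ≤ (1 - 2 * (b / L)) ^ d * (V / (L - 2 * b) ^ d * Y1) := by
            refine mul_le_mul_of_nonneg_left k1 ?_
            have : 0 ≤ 1 - 2 * (b / L) := by
              have : b / L ≤ 1 / 6 := by rw [div_le_iff₀ c4]; linarith
              linarith
            positivity
        _ = V / L ^ d * Y1 := by
            rw [r1]
            have : (1 - 2 * (b / L)) ^ d ≠ 0 := by
              have : b / L ≤ 1 / 6 := by rw [div_le_iff₀ c4]; linarith
              have h3 : 0 < 1 - 2 * (b / L) := by linarith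
              positivity
            field_simp
        _ ≤ V / L ^ d * Y := mul_le_mul_of_nonneg_left l1 (by positivity)
    have m2 : V / L ^ d * Y ≤ (1 + ε₂ / 4) * ((1 + ε₂ / 2) * P) := by
      calc V / L ^ d * Y ≤ V / L ^ d * Y2 := mul_le_mul_of_nonneg_left l2 (by positivity)
        _ = (1 + b / L) ^ d * (V / (L + b) ^ d * Y2) := by
            rw [r2]
            have : (1 + b / L) ^ d ≠ 0 := by positivity
            field_simp
        _ ≤ (1 + b / L) ^ d * ((1 + ε₂ / 2) * P) :=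
            mul_le_mul_of_nonneg_left k2 (by positivity)
        _ ≤ (1 + ε₂ / 4) * ((1 + ε₂ / 2) * P) :=
            mul_le_mul_of_nonneg_right c1 (by positivity)
    have m3 : ε₂ * P ≤ ε₁ * P := mul_le_mul_of_nonneg_right a1 hP0.le
    have m4 : ε₂ ^ 2 * P ≤ ε₂ * P := mul_le_mul_of_nonneg_right (by nlinarith) hP0.le
    have m5 : 0 ≤ ε₂ * P := by positivity
    have m6 : 0 ≤ ε₂ ^ 2 * P := by positivity
    have m7 : (1 - ε₂ / 4) * ((1 - ε₂ / 2) * P) = P - 3 / 4 * (ε₂ * P) + ε₂ ^ 2 * P / 8 := by ring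
    have m8 : (1 + ε₂ / 4) * ((1 + ε₂ / 2) * P) = P + 3 / 4 * (ε₂ * P) + ε₂ ^ 2 * P / 8 := by ring
    rw [m7] at m1
    rw [m8] at m2
    exact abs_le.2 ⟨by linarith, by linarith⟩
  · intro w w' hw hw'
    have e1 : Real.log (act d b w' / act d b w) = Real.log (w' / w) + (w' - w) := by
      have : act d b w' / act d b w = w' / w * Real.exp (w' - w) := by
        have hV1 : ballVol d b ≠ 0 := hV0.ne'
        unfold act
        rw [Real.exp_sub]
        field_simp
      rw [this, Real.log_mul (by positivity) (Real.exp_pos _).ne', Real.log_exp]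
    have e2 : ∀ l : ℝ, (fun k : ℕ => l ^ k / (k.factorial : ℝ) * regVol d b R k) =
        fun k : ℕ => l ^ k * (regVol d b R k / k.factorial) := by
      intro l; funext k; ring
    have e3 : ∀ k : ℕ, (k : ℝ) * (act d b w ^ k / (k.factorial : ℝ) * regVol d b R k) =
        k * (act d b w ^ k * (regVol d b R k / k.factorial)) := by intro k; ring
    obtain ⟨s1, s2⟩ := reg_summable hreg hd1 hb hL2b hR hR1 hR2 (hact w hw).le
    obtain ⟨s3, -⟩ := reg_summable hreg hd1 hb hL2b hR hR1 hR2 (hact w' hw').le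
    have hp : 0 < ZReg d b R (act d b w) := lt_of_lt_of_le one_pos (hZ1 w hw)
    unfold ZReg at hp
    simp only [e3] at s2
    rw [e2] at s1 s3 hp
    have hc := conv (fun k => regVol d b R k / k.factorial)
      (fun k => div_nonneg (regVol_nonneg k) (by positivity)) _ _ (hact w hw) (hact w' hw')
      s1 s2 s3 hp
    rw [e1] at hc
    have e4 : mReg d b R (act d b w) = (∑' k : ℕ, k * (act d b w ^ k *
        (regVol d b R k / k.factorial))) / ∑' k : ℕ, act d b w ^ k *
        (regVol d b R k / k.factorial) := by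
      unfold mReg ZReg
      simp only [e3]
      rw [e2]
    have e5 : ∀ u, ZReg d b R (act d b u) = ∑' k : ℕ, act d b u ^ k *
        (regVol d b R k / k.factorial) := fun u => by
      unfold ZReg
      rw [e2]
    show (Real.log (w' / w) + (w' - w)) * (V / L ^ d * mReg d b R (act d b w)) ≤
      V / L ^ d * Real.log (ZReg d b R (act d b w')) -
        V / L ^ d * Real.log (ZReg d b R (act d b w))
    rw [e4, e5 w, e5 w', ← mul_sub, mul_left_comm]
    exact mul_le_mul_of_nonneg_left hc (by positivity)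

end Pool.Agent.N549.HG
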