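import Pool.Agent.N549.HG.App
import Pool.Agent.N130.HG.Sup
import Pool.Agent.N130.HG.Pos
import Pool.Agent.N227.HG.Cont
import Pool.Agent.N519.HG.Slice
import Pool.Agent.N887.HG.Osc

/-!
# Hard spheres on the torus: the upper bound for the partition function
-/

set_option autoImplicit false

namespace Pool.Agent.N549.HG

open MeasureTheory Set Finset
open scoped ENNReal NNReal

variable {n : ℕ} {r : ℝ}

theorem half_ge (n : ℕ) : 1 / ((n : ℝ) + 1) ≤ ∫ φ in (0 : ℝ)..(Real.pi / 2), Real.cos φ ^ n := by
  have h1 : ∫ φ in (0 : ℝ)..(Real.pi / 2), Real.cos φ ^ n * Real.sin φ = 1 / ((n : ℝ) + 1) := by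
    have hd : ∀ x ∈ Set.uIcc (0 : ℝ) (Real.pi / 2),
        HasDerivAt (fun φ => -(Real.cos φ ^ (n + 1) / ((n : ℝ) + 1)))
          (Real.cos x ^ n * Real.sin x) x := by
      intro x _
      have h2 := ((Real.hasDerivAt_cos x).pow (n + 1)).div_const ((n : ℝ) + 1)
      have h3 := h2.neg
      refine h3.congr_deriv ?_
      have : ((n : ℝ) + 1) ≠ 0 := by positivity
      push_cast
      field_simp
    rw [intervalIntegral.integral_eq_sub_of_hasDerivAt hd
      ((by fun_prop : Continuous fun φ : ℝ => Real.cos φ ^ n * Real.sin φ).intervalIntegrable _ _)]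
    simp
  rw [← h1]
  refine intervalIntegral.integral_mono_on (by positivity)
    ((by fun_prop : Continuous fun φ : ℝ => Real.cos φ ^ n * Real.sin φ).intervalIntegrable _ _)
    ((by fun_prop : Continuous fun φ : ℝ => Real.cos φ ^ n).intervalIntegrable _ _) ?_
  intro x hx
  have hc : 0 ≤ Real.cos x := Real.cos_nonneg_of_mem_Icc ⟨by linarith [hx.1, Real.pi_pos], hx.2⟩
  exact mul_le_of_le_one_right (pow_nonneg hc n) (Real.sin_le_one x)

theorem In_zero_ge (n : ℕ) : 2 / ((n : ℝ) + 1) ≤ In n 0 := by
  have h0 : In n 0 = ∫ φ in (-(Real.pi / 2))..(Real.pi / 2), Real.cos φ ^ n := by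
    unfold In; simp
  have hi : ∀ a b : ℝ, IntervalIntegrable (fun φ : ℝ => Real.cos φ ^ n) volume a b := fun a b =>
    (by fun_prop : Continuous fun φ : ℝ => Real.cos φ ^ n).intervalIntegrable _ _
  rw [h0, ← intervalIntegral.integral_add_adjacent_intervals (hi _ 0) (hi 0 _)]
  have h1 : ∫ φ in (-(Real.pi / 2))..(0 : ℝ), Real.cos φ ^ n =
      ∫ φ in (0 : ℝ)..(Real.pi / 2), Real.cos φ ^ n := by
    have := intervalIntegral.integral_comp_neg (a := 0) (b := Real.pi / 2)
      (fun φ : ℝ => Real.cos φ ^ n)
    simp only [Real.cos_neg, neg_zero] at this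
    exact this.symm
  rw [h1]
  have := half_ge n
  have h2 : 2 / ((n : ℝ) + 1) = 1 / ((n : ℝ) + 1) + 1 / ((n : ℝ) + 1) := by ring
  linarith

theorem In_zero_pos (n : ℕ) : 0 < In n 0 := lt_of_lt_of_le (by positivity) (In_zero_ge n)

/-- the Fourier transform of the ball is not very negative -/
theorem ratio_ge (n : ℕ) (t : ℝ) (ht : 0 ≤ t) :
    -(4 * (n + 1) * Real.exp (-(3 / 20) * n)) ≤ In n t / In n 0 := by
  have h0 := In_zero_pos n
  have he : 0 < Real.exp (-(3 / 20) * (n : ℝ)) := Real.exp_pos _
  rw [le_div_iff₀ h0]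
  by_cases h : t ≤ (n : ℝ) / 2
  · have h1 := Pool.Agent.N130.HG.pos n t ht h
    have h2 : 0 ≤ 4 * ((n : ℝ) + 1) * Real.exp (-(3 / 20) * n) * In n 0 := by positivity
    linarith
  · have h1 := Pool.Agent.N887.HG.Osc.osc n t (not_le.1 h).le
    have h2 : -((Real.pi + 2) * Real.exp (-(3 / 20) * n)) ≤ In n t := by
      have := neg_abs_le (In n t); linarith
    have h3 : (Real.pi + 2) * Real.exp (-(3 / 20) * n) ≤
        4 * ((n : ℝ) + 1) * Real.exp (-(3 / 20) * n) * In n 0 := by
      have h4 := In_zero_ge n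
      have h5 : (8 : ℝ) ≤ 4 * ((n : ℝ) + 1) * In n 0 := by
        have h6 : 4 * ((n : ℝ) + 1) * (2 / ((n : ℝ) + 1)) = 8 := by field_simp; norm_num
        calc (8 : ℝ) = 4 * ((n : ℝ) + 1) * (2 / ((n : ℝ) + 1)) := h6.symm
          _ ≤ _ := by gcongr
      have h7 : Real.pi + 2 ≤ 8 := by linarith [Real.pi_le_four]
      calc (Real.pi + 2) * Real.exp (-(3 / 20) * n) ≤ (4 * ((n : ℝ) + 1) * In n 0) *
            Real.exp (-(3 / 20) * n) := by gcongr; linarith
        _ = _ := by ring
    linarith

theorem ballVol_pos (hr : 0 < r) : 0 < ballVol n r := by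
  unfold ballVol
  exact ENNReal.toReal_pos (Metric.measure_ball_pos _ _ hr).ne' measure_ball_lt_top.ne

theorem near_eq (x : Torus n) : {y : Torus n | y - x ∈ near n r 0} = near n r x := by
  ext y
  simp only [near, Set.mem_ofPred_eq]
  rw [show sqd (y - x) 0 = sqd y x by simp [sqd]]

/-- supersaturation for the ball -/
theorem sup_ball (hn : 1 ≤ n) (hr : 0 < r) (hr2 : r ≤ 1 / 2) (K : Set (Torus n))
    (hK : MeasurableSet K) :
    ballVol n r * ((vol n).real K ^ 2 -
      (4 * (n + 1) * Real.exp (-(3 / 20) * n)) * (vol n).real K) ≤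
      ∫ x in K, (vol n).real (K ∩ near n r x) ∂(vol n) := by
  obtain ⟨hT1, hT2⟩ := Pool.Agent.N457.HG.Torus.torus n hn r hr hr2
  have h := Pool.Agent.N130.HG.sup n (near n r 0) (meas_near 0)
    (fun y => by simp [near, sqd]) (ballVol n r)
    (4 * (n + 1) * Real.exp (-(3 / 20) * n)) (ballVol_pos hr).le (by positivity) (by
      have h1 := hT1 0
      rw [measureReal_def]
      unfold near
      rw [h1, ENNReal.toReal_ofReal (ballVol_pos hr).le]) (by
      intro k _
      unfold near
      rw [hT2 k, Pool.Agent.N519.HG.slice n hn r hr]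
      have h2 := ratio_ge n (r * ‖(2 * Real.pi) • (WithLp.toLp 2 fun i => (k i : ℝ) :
        EuclideanSpace ℝ (Fin n))‖) (by positivity)
      have h3 := mul_le_mul_of_nonneg_left h2 (ballVol_pos (n := n) hr).le
      linarith) K hK
  simpa only [near_eq] using h

theorem meas_inter (K : Set (Torus n)) (hK : MeasurableSet K) :
    Measurable fun u => (vol n).real (K ∩ near n r u) := by
  have h1 : MeasurableSet {p : Torus n × Torus n | p.2 ∈ K ∧ sqd p.2 p.1 < r ^ 2} := by
    have h2 : Measurable fun p : Torus n × Torus n => sqd p.2 p.1 :=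
      ((Pool.Agent.N342.HG.cont_sqd n).comp continuous_swap).measurable
    exact (measurable_snd hK).inter (measurableSet_lt h2 measurable_const)
  have h3 := measurable_measure_prodMk_left (ν := vol n) h1
  exact h3.ennreal_toReal

/-- **The upper bound on the torus.** -/
theorem up_torus (hcells : S_CELLS) (hn : 1 ≤ n) (hr : 0 < r) (hr2 : r ≤ 1 / 2) (lam : ℝ)
    (hlam : 0 < lam) (w : ℝ)
    (hw : Z (vol n) (far n r) (fun _ => ENNReal.ofReal lam) = ENNReal.ofReal w) (hw0 : 1 ≤ w)
    (hκ : 4 * (n + 1) * Real.exp (-(3 / 20) * n) * (lam * ballVol n r) ≤ 1 / 4) :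
    w ≤ Real.exp ((Real.log (1 + lam * ballVol n r) ^ 2 / 2 +
      2 * Real.log (1 + lam * ballVol n r) + 1) / ballVol n r) := by
  have hF := far_adm n r
  set c : ℝ≥0∞ := ENNReal.ofReal lam with hc
  set z : Set (Torus n) → ℝ := fun K => (Z (vol n) (far n r) (K.indicator fun _ => c)).toReal
    with hz
  have hle : ∀ K : Set (Torus n), MeasurableSet K →
      Z (vol n) (far n r) (K.indicator fun _ => c) ≤
        ENNReal.ofReal (Real.exp (lam * (vol n).real K)) := by
    intro K hK
    refine Z_le_exp hF _ _ (by positivity) ?_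
    rw [lintegral_indicator_const hK, ENNReal.ofReal_mul hlam.le, measureReal_def,
      ENNReal.ofReal_toReal (measure_ne_top _ _)]
  have hfin : ∀ K : Set (Torus n), MeasurableSet K →
      Z (vol n) (far n r) (K.indicator fun _ => c) ≠ ∞ := fun K hK =>
    ((hle K hK).trans_lt ENNReal.ofReal_lt_top).ne
  have hmono : ∀ K K' : Set (Torus n), K' ⊆ K →
      Z (vol n) (far n r) (K'.indicator fun _ => c) ≤
        Z (vol n) (far n r) (K.indicator fun _ => c) := fun K K' h =>
    Z_mono fun y => Set.indicator_le_indicator_of_subset h (fun _ => by simp) y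
  have key := Pool.Agent.N227.HG.cont (Torus n) (vol n) (fun u => near n r u)
    (fun u => meas_near u) (fun K hK => meas_inter K hK) (hcells n hn) (ballVol n r)
    (4 * (n + 1) * Real.exp (-(3 / 20) * n)) lam (ballVol_pos hr) (by positivity) hlam hκ
    (fun K hK => sup_ball hn hr hr2 K hK) z ?_ ?_ ?_ ?_
  · have h1 : z univ = w := by
      simp only [hz, Set.indicator_univ]
      rw [hw, ENNReal.toReal_ofReal (by linarith)]
    rwa [h1] at key
  · intro K hK
    have := ENNReal.toReal_mono ENNReal.ofReal_ne_top (hle K hK)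
    rwa [ENNReal.toReal_ofReal (Real.exp_pos _).le] at this
  · intro K hK
    exact ENNReal.toReal_pos (lt_of_lt_of_le one_pos (one_le_Z _)).ne' (hfin K hK)
  · intro K K' hK _ h
    exact ENNReal.toReal_mono (hfin K hK) (hmono K K' h)
  · intro K hK B hBK hB b hb
    have h1 := Z_add_le (μ := vol n) hF (measurable_const.indicator (hK.diff hB) :
      Measurable ((K \ B).indicator fun _ => c)) (measurable_const.indicator hB :
      Measurable (B.indicator fun _ => c))
    have h2 : ∀ y, (K \ B).indicator (fun _ => c) y + B.indicator (fun _ => c) y =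
        K.indicator (fun _ => c) y := by
      intro y
      by_cases hyB : y ∈ B
      · simp [hyB, hBK hyB]
      · by_cases hyK : y ∈ K <;> simp [hyB, hyK]
    simp only [h2] at h1
    have h3 : ∫⁻ u, B.indicator (fun _ => c) u *
        Z (vol n) (far n r) (fun y => K.indicator (fun _ => c) y * far n r u y) ∂(vol n) ≤
        ENNReal.ofReal (lam * (vol n).real B * b) := by
      by_cases hBe : B = ∅
      · rw [hBe]; simp
      · obtain ⟨u₀, hu₀⟩ := Set.nonempty_iff_ne_empty.2 hBe
        have hb0 : 0 ≤ b := ENNReal.toReal_nonneg.trans (hb u₀ hu₀)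
        calc ∫⁻ u, B.indicator (fun _ => c) u *
              Z (vol n) (far n r) (fun y => K.indicator (fun _ => c) y * far n r u y) ∂(vol n)
            ≤ ∫⁻ u, B.indicator (fun _ => c) u * ENNReal.ofReal b ∂(vol n) := by
              refine lintegral_mono fun u => ?_
              by_cases hu : u ∈ B
              · refine mul_le_mul' le_rfl ?_
                rw [mul_far]
                have h4 := hb u hu
                rw [← ENNReal.ofReal_toReal (hfin (K \ near n r u) (hK.diff (meas_near u)))]
                exact ENNReal.ofReal_le_ofReal h4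
              · simp [hu]
          _ = ENNReal.ofReal (lam * (vol n).real B * b) := by
              rw [lintegral_mul_const _ (measurable_const.indicator hB),
                lintegral_indicator_const hB, ENNReal.ofReal_mul (by positivity),
                ENNReal.ofReal_mul hlam.le, measureReal_def,
                ENNReal.ofReal_toReal (measure_ne_top _ _)]
    have h5 := h1.trans (add_le_add le_rfl h3)
    have h6 := ENNReal.toReal_mono (ENNReal.add_ne_top.2 ⟨hfin _ (hK.diff hB),
      ENNReal.ofReal_ne_top⟩) h5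
    rw [ENNReal.toReal_add (hfin _ (hK.diff hB)) ENNReal.ofReal_ne_top] at h6
    have h7 : (ENNReal.ofReal (lam * (vol n).real B * b)).toReal = lam * (vol n).real B * b := by
      by_cases hBe : B = ∅
      · rw [hBe]; simp
      · obtain ⟨u₀, hu₀⟩ := Set.nonempty_iff_ne_empty.2 hBe
        have hb0 : 0 ≤ b := ENNReal.toReal_nonneg.trans (hb u₀ hu₀)
        exact ENNReal.toReal_ofReal (by positivity)
    rw [h7] at h6
    exact h6

end Pool.Agent.N549.HG
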