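import Pool.Agent.N549.HG.Low3
import Pool.Agent.N603.HG.Osc2
import Pool.Agent.N756.HG.Loc2
import Pool.Agent.N490.HG.Asm2
import Pool.Agent.N82.HG.Cells
import Pool.Agent.N364.HG.Conf

/-!
# Hard spheres on the torus: the sharp upper bound
-/

set_option autoImplicit false

namespace Pool.Agent.N549.HG

open MeasureTheory Set Finset Filter Topology
open scoped ENNReal NNReal

variable {n : ℕ} {r : ℝ}

/-- the spectral constant -/
noncomputable def kap (n : ℕ) : ℝ :=
  Real.pi * (n + 1) * Real.exp (-((1 - Real.log 2) / 2) * n)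

theorem kap_nonneg (n : ℕ) : 0 ≤ kap n := by unfold kap; positivity

theorem ratio_ge2 (n : ℕ) (t : ℝ) (ht : 0 ≤ t) : -(kap n) ≤ In n t / In n 0 := by
  have h0 := In_zero_pos n
  have he : 0 < Real.exp (-((1 - Real.log 2) / 2) * (n : ℝ)) := Real.exp_pos _
  rw [le_div_iff₀ h0]
  by_cases h : t ≤ (n : ℝ) / 2
  · have h1 := Pool.Agent.N130.HG.pos n t ht h
    have h2 : 0 ≤ kap n * In n 0 := mul_nonneg (kap_nonneg n) h0.le
    linarith
  · have h1 := Pool.Agent.N603.HG.Osc2.osc2 n t (not_le.1 h).le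
    have h2 : -(2 * Real.pi * Real.exp (-((1 - Real.log 2) / 2) * n)) ≤ In n t := by
      have := neg_abs_le (In n t); linarith
    have h3 : 2 * Real.pi * Real.exp (-((1 - Real.log 2) / 2) * n) ≤ kap n * In n 0 := by
      have h4 := In_zero_ge n
      unfold kap
      calc 2 * Real.pi * Real.exp (-((1 - Real.log 2) / 2) * n) =
            Real.pi * (n + 1) * Real.exp (-((1 - Real.log 2) / 2) * n) * (2 / ((n : ℝ) + 1)) := by
              field_simp
        _ ≤ _ := by gcongr
    linarith

/-- supersaturation for the ball, sharp constant -/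
theorem sup_ball2 (hn : 1 ≤ n) (hr : 0 < r) (hr2 : r ≤ 1 / 2) (K : Set (Torus n))
    (hK : MeasurableSet K) :
    ballVol n r * ((vol n).real K ^ 2 - kap n * (vol n).real K) ≤
      ∫ x in K, (vol n).real (K ∩ near n r x) ∂(vol n) := by
  obtain ⟨hT1, hT2⟩ := Pool.Agent.N457.HG.Torus.torus n hn r hr hr2
  have h := Pool.Agent.N130.HG.sup n (near n r 0) (meas_near 0)
    (fun y => by simp [near, sqd]) (ballVol n r) (kap n) (ballVol_pos hr).le (kap_nonneg n) (by
      have h1 := hT1 0
      rw [measureReal_def]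
      unfold near
      rw [h1, ENNReal.toReal_ofReal (ballVol_pos hr).le]) (by
      intro k _
      unfold near
      rw [hT2 k, Pool.Agent.N519.HG.slice n hn r hr]
      have h2 := ratio_ge2 n (r * ‖(2 * Real.pi) • (WithLp.toLp 2 fun i => (k i : ℝ) :
        EuclideanSpace ℝ (Fin n))‖) (by positivity)
      have h3 := mul_le_mul_of_nonneg_left h2 (ballVol_pos (n := n) hr).le
      linarith) K hK
  simpa only [near_eq] using h

/-- **The sharp upper bound on the torus.** -/
theorem up_torus2 (hcont : S_CONT2) (hn : 1 ≤ n) (hr : 0 < r) (hr2 : r ≤ 1 / 2) (lam s : ℝ)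
    (hlam : 0 < lam) (hs : 0 < s) (hls : lam * ballVol n r = s * Real.exp s) (w : ℝ)
    (hw : Z (vol n) (far n r) (fun _ => ENNReal.ofReal lam) = ENNReal.ofReal w) (hw0 : 1 ≤ w) :
    w ≤ Real.exp ((s + s ^ 2 / 2 + kap n * (lam * ballVol n r)) / ballVol n r) := by
  have hF := far_adm n r
  set c : ℝ≥0∞ := ENNReal.ofReal lam with hc
  set z : Set (Torus n) → ℝ := fun K => (Z (vol n) (far n r) (K.indicator fun _ => c)).toReal
    with hz
  have hle : ∀ K : Set (Torus n), MeasurableSet K →
      Z (vol n) (far n r) (K.indicator fun _ => c) ≤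
        ENNReal.ofReal (Real.exp (lam * (vol n).real K)) := by
    intro K hK
    refine Z_le_exp hF _ _ (by positivity) ?_
    rw [lintegral_indicator_const hK, ENNReal.ofReal_mul hlam.le, measureReal_def,
      ENNReal.ofReal_toReal (measure_ne_top _ _)]
  have hfin : ∀ K : Set (Torus n), MeasurableSet K →
      Z (vol n) (far n r) (K.indicator fun _ => c) ≠ ∞ := fun K hK =>
    ((hle K hK).trans_lt ENNReal.ofReal_lt_top).ne
  have hmono : ∀ K K' : Set (Torus n), K' ⊆ K →
      Z (vol n) (far n r) (K'.indicator fun _ => c) ≤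
        Z (vol n) (far n r) (K.indicator fun _ => c) := fun K K' h =>
    Z_mono fun y => Set.indicator_le_indicator_of_subset h (fun _ => by simp) y
  have key := hcont (Torus n) (vol n) (fun u => near n r u)
    (fun u => meas_near u) (fun K hK => meas_inter K hK)
    (Pool.Agent.N82.HG.cells n hn) (ballVol n r)
    (kap n) lam s (ballVol_pos hr) (kap_nonneg n) hs hls
    (fun K hK => sup_ball2 hn hr hr2 K hK) z ?_ ?_ ?_ ?_
  · have h1 : z univ = w := by
      simp only [hz, Set.indicator_univ]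
      rw [hw, ENNReal.toReal_ofReal (by linarith)]
    rwa [h1] at key
  · intro K hK
    have := ENNReal.toReal_mono ENNReal.ofReal_ne_top (hle K hK)
    rwa [ENNReal.toReal_ofReal (Real.exp_pos _).le] at this
  · intro K hK
    exact ENNReal.toReal_pos (lt_of_lt_of_le one_pos (one_le_Z _)).ne' (hfin K hK)
  · intro K K' hK _ h
    exact ENNReal.toReal_mono (hfin K hK) (hmono K K' h)
  · intro K hK B hBK hB b hb
    have h1 := Z_add_le (μ := vol n) hF (measurable_const.indicator (hK.diff hB) :
      Measurable ((K \ B).indicator fun _ => c)) (measurable_const.indicator hB :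
      Measurable (B.indicator fun _ => c))
    have h2 : ∀ y, (K \ B).indicator (fun _ => c) y + B.indicator (fun _ => c) y =
        K.indicator (fun _ => c) y := by
      intro y
      by_cases hyB : y ∈ B
      · simp [hyB, hBK hyB]
      · by_cases hyK : y ∈ K <;> simp [hyB, hyK]
    simp only [h2] at h1
    have h3 : ∫⁻ u, B.indicator (fun _ => c) u *
        Z (vol n) (far n r) (fun y => K.indicator (fun _ => c) y * far n r u y) ∂(vol n) ≤
        ENNReal.ofReal (lam * (vol n).real B * b) := by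
      by_cases hBe : B = ∅
      · rw [hBe]; simp
      · obtain ⟨u₀, hu₀⟩ := Set.nonempty_iff_ne_empty.2 hBe
        have hb0 : 0 ≤ b := ENNReal.toReal_nonneg.trans (hb u₀ hu₀)
        calc ∫⁻ u, B.indicator (fun _ => c) u *
              Z (vol n) (far n r) (fun y => K.indicator (fun _ => c) y * far n r u y) ∂(vol n)
            ≤ ∫⁻ u, B.indicator (fun _ => c) u * ENNReal.ofReal b ∂(vol n) := by
              refine lintegral_mono fun u => ?_
              by_cases hu : u ∈ B
              · refine mul_le_mul' le_rfl ?_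
                rw [mul_far]
                have h4 := hb u hu
                rw [← ENNReal.ofReal_toReal (hfin (K \ near n r u) (hK.diff (meas_near u)))]
                exact ENNReal.ofReal_le_ofReal h4
              · simp [hu]
          _ = ENNReal.ofReal (lam * (vol n).real B * b) := by
              rw [lintegral_mul_const _ (measurable_const.indicator hB),
                lintegral_indicator_const hB, ENNReal.ofReal_mul (by positivity),
                ENNReal.ofReal_mul hlam.le, measureReal_def,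
                ENNReal.ofReal_toReal (measure_ne_top _ _)]
    have h5 := h1.trans (add_le_add le_rfl h3)
    have h6 := ENNReal.toReal_mono (ENNReal.add_ne_top.2 ⟨hfin _ (hK.diff hB),
      ENNReal.ofReal_ne_top⟩) h5
    rw [ENNReal.toReal_add (hfin _ (hK.diff hB)) ENNReal.ofReal_ne_top] at h6
    have h7 : (ENNReal.ofReal (lam * (vol n).real B * b)).toReal = lam * (vol n).real B * b := by
      by_cases hBe : B = ∅
      · rw [hBe]; simp
      · obtain ⟨u₀, hu₀⟩ := Set.nonempty_iff_ne_empty.2 hBe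
        have hb0 : 0 ≤ b := ENNReal.toReal_nonneg.trans (hb u₀ hu₀)
        exact ENNReal.toReal_ofReal (by positivity)
    rw [h7] at h6
    exact h6

/-- the activity `s e^s / D` -/
noncomputable def act (n : ℕ) (r s : ℝ) : ℝ := s * Real.exp s / ballVol n r

theorem act_pos (hr : 0 < r) {s : ℝ} (hs : 0 < s) : 0 < act n r s := by
  have := ballVol_pos (n := n) hr
  unfold act; positivity

theorem act_mul (hr : 0 < r) (s : ℝ) : act n r s * ballVol n r = s * Real.exp s := by
  have := ballVol_pos (n := n) hr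
  unfold act; field_simp

/-- **Explicit upper bound for the pressure.** -/
theorem pressure_le (hcont : S_CONT2) (hn : 1 ≤ n) (hr : 0 < r) (hr2 : r ≤ 1 / 2) (s : ℝ)
    (hs : 0 < s) : ballVol n r * Real.log (Zr n r (act n r s)) ≤
      s + s ^ 2 / 2 + kap n * (s * Real.exp s) := by
  have hconf : S_CONF := Pool.Agent.N364.HG.conf_eq
  have hD := ballVol_pos (n := n) hr
  have hl := act_pos (n := n) hr hs
  have hZ := Zr_ge_one (n := n) (r := r) hconf _ hl.le
  have hup := up_torus2 hcont hn hr hr2 _ s hl hs (act_mul hr s) _ (Z_const hconf _ hl.le) hZ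
  rw [act_mul hr] at hup
  have h5 := Real.log_le_log (by linarith) hup
  rw [Real.log_exp] at h5
  have h6 := mul_le_mul_of_nonneg_left h5 hD.le
  calc ballVol n r * Real.log (Zr n r (act n r s)) ≤ _ := h6
    _ = _ := by field_simp

theorem rho1_lt : Real.exp ((1 - Real.log 2) / 2 + 1 / 100) * Real.sqrt 0.7045 < 1 := by
  have h0 : 0 ≤ Real.exp ((1 - Real.log 2) / 2 + 1 / 100) * Real.sqrt 0.7045 := by positivity
  have h1 : (Real.exp ((1 - Real.log 2) / 2 + 1 / 100) * Real.sqrt 0.7045) ^ 2 < 1 ^ 2 := by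
    rw [mul_pow, Real.sq_sqrt (by norm_num), ← Real.exp_nat_mul]
    have e : ((2 : ℕ) : ℝ) * ((1 - Real.log 2) / 2 + 1 / 100) = 1 + 1 / 50 - Real.log 2 := by
      push_cast; ring
    rw [e, Real.exp_sub, Real.exp_add, Real.exp_log (by norm_num)]
    have h2 := Real.exp_one_lt_d9
    have h3 : Real.exp (1 / 50) ≤ 1 / (1 - 1 / 50) := by
      rw [le_div_iff₀ (by norm_num)]
      have h4 := Real.add_one_le_exp (-(1 / 50 : ℝ))
      have h5 : Real.exp (1 / 50) * Real.exp (-(1 / 50)) = 1 := by rw [← Real.exp_add]; simp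
      nlinarith [Real.exp_pos (1 / 50 : ℝ)]
    have h4 : Real.exp 1 * Real.exp (1 / 50) ≤ 2.7182818286 * (1 / (1 - 1 / 50)) :=
      mul_le_mul h2.le h3 (Real.exp_pos _).le (by norm_num)
    norm_num at h4 ⊢
    nlinarith
  exact lt_of_pow_lt_pow_left₀ 2 (by norm_num) h1

theorem rho2_lt : Real.exp (1 - Real.log 2) * Real.sqrt 0.54 < 1 := by
  have h1 : (Real.exp (1 - Real.log 2) * Real.sqrt 0.54) ^ 2 < 1 ^ 2 := by
    rw [mul_pow, Real.sq_sqrt (by norm_num), Real.exp_sub, Real.exp_log (by norm_num), div_pow]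
    have h2 := Real.exp_one_lt_d9
    have h3 := Real.exp_pos 1
    have h4 : Real.exp 1 ^ 2 ≤ 2.7182818286 ^ 2 := pow_le_pow_left₀ h3.le h2.le 2
    norm_num at h4 ⊢
    nlinarith
  exact lt_of_pow_lt_pow_left₀ 2 (by norm_num) h1

/-- large `n` -/
theorem exists_large (ε : ℝ) (hε : 0 < ε) : ∃ n₀ : ℕ, ∀ n : ℕ, n₀ ≤ n →
    ∃ M δ : ℝ, 1 ≤ M ∧ 0 ≤ δ ∧ δ ≤ 1 / 2 ∧ δ ≤ ε ∧
      ∀ L : ℝ, 0 < L → L ≤ Real.exp ((1 - Real.log 2) / 2 * n) →
        4 * L * (M * Real.sqrt 0.7045 ^ n + 3 * L * Real.sqrt 0.54 ^ n) ≤ δ ^ 2 ∧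
        (1 + Real.log (1 + L)) * Real.log L ≤ M / 12 - 1 := by
  set δ := min (1 / 2) ε with hδ
  have hδ0 : 0 < δ := lt_min (by norm_num) hε
  set ρ1 := Real.exp ((1 - Real.log 2) / 2 + 1 / 100) * Real.sqrt 0.7045 with hρ1
  set ρ2 := Real.exp (1 - Real.log 2) * Real.sqrt 0.54 with hρ2
  have t1 : Tendsto (fun n : ℕ => ρ1 ^ n) atTop (𝓝 0) :=
    tendsto_pow_atTop_nhds_zero_of_lt_one (by positivity) rho1_lt
  have t2 : Tendsto (fun n : ℕ => ρ2 ^ n) atTop (𝓝 0) :=
    tendsto_pow_atTop_nhds_zero_of_lt_one (by positivity) rho2_lt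
  have t3 : Tendsto (fun n : ℕ => 4 * ρ1 ^ n + 12 * ρ2 ^ n) atTop (𝓝 0) := by
    simpa using (t1.const_mul 4).add (t2.const_mul 12)
  obtain ⟨n₁, hn₁⟩ := Filter.eventually_atTop.1
    (t3.eventually_le_const (show (0 : ℝ) < δ ^ 2 by positivity))
  refine ⟨max n₁ 1000000000, fun n hn => ⟨Real.exp (n / 100), δ, ?_, hδ0.le, min_le_left _ _,
    min_le_right _ _, fun L hL hLX => ⟨?_, ?_⟩⟩⟩
  · exact Real.one_le_exp (by positivity)
  · have h1 := hn₁ n ((le_max_left _ _).trans hn)
    refine le_trans ?_ h1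
    have e1 : ρ1 ^ n = Real.exp ((1 - Real.log 2) / 2 * n) *
        (Real.exp (n / 100) * Real.sqrt 0.7045 ^ n) := by
      rw [hρ1, mul_pow, ← Real.exp_nat_mul, ← mul_assoc, ← Real.exp_add]
      congr 2; ring
    have e2 : ρ2 ^ n = Real.exp ((1 - Real.log 2) / 2 * n) *
        (Real.exp ((1 - Real.log 2) / 2 * n) * Real.sqrt 0.54 ^ n) := by
      rw [hρ2, mul_pow, ← Real.exp_nat_mul, ← mul_assoc, ← Real.exp_add]
      congr 2; ring
    rw [e1, e2]
    have h2 : L * (Real.exp (n / 100) * Real.sqrt 0.7045 ^ n) ≤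
        Real.exp ((1 - Real.log 2) / 2 * n) * (Real.exp (n / 100) * Real.sqrt 0.7045 ^ n) :=
      mul_le_mul_of_nonneg_right hLX (by positivity)
    have h3 : L * (L * Real.sqrt 0.54 ^ n) ≤ Real.exp ((1 - Real.log 2) / 2 * n) *
        (Real.exp ((1 - Real.log 2) / 2 * n) * Real.sqrt 0.54 ^ n) :=
      mul_le_mul hLX (mul_le_mul_of_nonneg_right hLX (by positivity)) (by positivity)
        (by positivity)
    nlinarith
  · have hn9 : (1000000000 : ℝ) ≤ n := by exact_mod_cast (le_max_right _ _).trans hn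
    have hM : (n : ℝ) ^ 3 / 6000000 ≤ Real.exp (n / 100) := by
      have h1 := Real.pow_div_factorial_le_exp ((n : ℝ) / 100) (by positivity) 3
      have h2 : ((n : ℝ) / 100) ^ 3 / (Nat.factorial 3 : ℕ) = (n : ℝ) ^ 3 / 6000000 := by
        norm_num [Nat.factorial]
        ring
      rwa [h2] at h1
    have hbig : ((n : ℝ) + 2) * n ≤ Real.exp (n / 100) / 12 - 1 := by
      nlinarith [mul_nonneg (by linarith : (0 : ℝ) ≤ n) (by linarith : (0 : ℝ) ≤ n),
        mul_le_mul_of_nonneg_right hn9 (by positivity : (0 : ℝ) ≤ (n : ℝ) ^ 2)]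
    by_cases hl : Real.log L ≤ 0
    · have h1 : 0 ≤ Real.log (1 + L) := Real.log_nonneg (by linarith)
      have h2 : (1 + Real.log (1 + L)) * Real.log L ≤ 0 :=
        mul_nonpos_of_nonneg_of_nonpos (by linarith) hl
      nlinarith
    · push Not at hl
      have hL1 : 1 < L := by
        by_contra h
        have := Real.log_nonpos hL.le (not_lt.1 h)
        linarith
      have hlog2 := Real.log_two_gt_d9
      have h1 : Real.log L ≤ n := by
        have h2 := Real.log_le_log hL hLX
        rw [Real.log_exp] at h2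
        nlinarith
      have h2 : Real.log (1 + L) ≤ n + 1 := by
        have h3 : Real.log (1 + L) ≤ Real.log (2 * L) := Real.log_le_log (by linarith) (by linarith)
        rw [Real.log_mul (by norm_num) hL.ne'] at h3
        have := Real.log_two_lt_d9
        linarith
      calc (1 + Real.log (1 + L)) * Real.log L ≤ (n + 2) * n :=
            mul_le_mul (by linarith) h1 hl.le (by positivity)
        _ ≤ _ := hbig

/-- **The lower bound for the density.** -/
theorem density_ge (ε : ℝ) (hε : 0 < ε) : ∃ n₀ : ℕ, ∀ n : ℕ, n₀ ≤ n → ∀ r : ℝ, 0 < r →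
    r ≤ 1 / 4 → ∀ s : ℝ, 0 < s → s * Real.exp s ≤ Real.exp ((1 - Real.log 2) / 2 * n) →
      (1 - ε) * s ≤ ballVol n r * meanr n r (act n r s) := by
  obtain ⟨n₀, h⟩ := exists_large ε hε
  refine ⟨max n₀ 1, fun n hn r hr hr4 s hs hsX => ?_⟩
  have hn1 : 1 ≤ n := (le_max_right _ _).trans hn
  obtain ⟨M, δ, hM, hδ, hδ1, hδε, hL⟩ := h n ((le_max_left _ _).trans hn)
  have hconf : S_CONF := Pool.Agent.N364.HG.conf_eq
  have hD := ballVol_pos (n := n) hr
  have hl := act_pos (n := n) hr hs
  obtain ⟨w1, h1, h2, h3, h4⟩ := at_lam (n := n) (r := r) hconf _ hl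
  have hZ := Zr_ge_one (n := n) (r := r) hconf _ hl.le
  have hw1 : 0 < w1 := by linarith
  have hw : 0 < Zr n r (act n r s) := by linarith
  obtain ⟨hL1, hL2⟩ := hL (s * Real.exp s) (by positivity) hsX
  have key := low_torus2 (Pool.Agent.N756.HG.loc2 Pool.Agent.N457.HG.Torus.torus)
    Pool.Agent.N82.HG.cells hn1 hr hr4 _ M δ _ w1 hl hM hδ hδ1
    (by rw [act_mul hr]; exact hL1) (by rw [act_mul hr]; exact hL2)
    (Z_const hconf _ hl.le) h3 hZ h1
  rw [act_mul hr] at key
  have e2 : ballVol n r * meanr n r (act n r s) = s * Real.exp s * w1 / Zr n r (act n r s) := by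
    rw [h4, ← act_mul (n := n) hr s]; ring
  rw [e2]
  set y := s * Real.exp s * w1 / Zr n r (act n r s) with hy
  have hy0 : 0 < y := by rw [hy]; positivity
  have e3 : Zr n r (act n r s) / w1 = s * Real.exp s / y := by
    rw [hy]; field_simp
  rw [e3] at key
  by_contra hcon
  push Not at hcon
  have h5 : y < (1 - δ) * s := lt_of_lt_of_le hcon (by nlinarith)
  have h6 : y < s := by nlinarith
  have h7 : s < Real.log (s * Real.exp s / y) := by
    rw [Real.lt_log_iff_exp_lt (by positivity), lt_div_iff₀ hy0]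
    calc Real.exp s * y < Real.exp s * s := mul_lt_mul_of_pos_left h6 (Real.exp_pos s)
      _ = s * Real.exp s := by ring
  have h8 : (1 - δ) * s < (1 - δ) * Real.log (s * Real.exp s / y) :=
    mul_lt_mul_of_pos_left h7 (by linarith)
  linarith

/-- **The equation of state**, uniformly in the density. -/
theorem state2 (hcont : S_CONT2) (ε : ℝ) (hε : 0 < ε) : ∃ n₀ : ℕ, ∀ n : ℕ, n₀ ≤ n →
    ∀ r : ℝ, 0 < r → r ≤ 1 / 4 → ∀ s : ℝ, 0 < s →
      s * Real.exp s ≤ Real.exp (((1 - Real.log 2) / 2 - ε) * n) →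
      |ballVol n r * meanr n r (act n r s) - s| ≤ ε * s ∧
      |ballVol n r * Real.log (Zr n r (act n r s)) - (s + s ^ 2 / 2)| ≤ ε * (s + s ^ 2 / 2) := by
  obtain ⟨ε₁, hε₁, n₁, h⟩ := Pool.Agent.N490.HG.asm2 ε hε
  obtain ⟨n₂, h2⟩ := density_ge ε₁ hε₁
  refine ⟨max (max n₁ n₂) 1, fun n hn r hr hr4 => ?_⟩
  have hn1 : 1 ≤ n := (le_max_right _ _).trans hn
  have hnn1 : n₁ ≤ n := ((le_max_left _ _).trans (le_max_left _ _)).trans hn
  have hnn2 : n₂ ≤ n := ((le_max_right _ _).trans (le_max_left _ _)).trans hn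
  have hconf : S_CONF := Pool.Agent.N364.HG.conf_eq
  have hD := ballVol_pos (n := n) hr
  refine h n hnn1 (fun s => ballVol n r * meanr n r (act n r s))
    (fun s => ballVol n r * Real.log (Zr n r (act n r s))) ?_ ?_ ?_ ?_ ?_
  · intro s hs
    obtain ⟨w1, h1, h2, h3, h4⟩ := at_lam (n := n) (r := r) hconf _ (act_pos hr hs)
    have hZ := Zr_ge_one (n := n) (r := r) hconf _ (act_pos (n := n) hr hs).le
    have := act_pos (n := n) hr hs
    show 0 < ballVol n r * meanr n r (act n r s)
    rw [h4]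
    positivity
  · intro s hs
    have hZ := Zr_ge_one (n := n) (r := r) hconf _ (act_pos (n := n) hr hs).le
    exact mul_nonneg hD.le (Real.log_nonneg hZ)
  · intro s hs hsX
    exact h2 n hnn2 r hr hr4 s hs hsX
  · intro s hs
    exact pressure_le hcont hn1 hr (by linarith) s hs
  · intro a b ha hab
    have hb : 0 < b := lt_of_lt_of_le ha hab
    have hA := act_pos (n := n) hr ha
    have hB := act_pos (n := n) hr hb
    have e1 : Real.log (act n r b / act n r a) = Real.log (b / a) + (b - a) := by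
      have : act n r b / act n r a = b / a * Real.exp (b - a) := by
        unfold act
        rw [Real.exp_sub]
        field_simp
      rw [this, Real.log_mul (by positivity) (Real.exp_pos _).ne', Real.log_exp]
    have e2 : Real.log (act n r a / act n r b) = -(Real.log (b / a) + (b - a)) := by
      rw [← e1, ← Real.log_inv, inv_div]
    have c1 := conv_gas (n := n) (r := r) hconf _ _ hA hB
    have c2 := conv_gas (n := n) (r := r) hconf _ _ hB hA
    rw [e1] at c1
    rw [e2] at c2
    constructor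
    · have := mul_le_mul_of_nonneg_left c1 hD.le
      show (Real.log (b / a) + (b - a)) * (ballVol n r * meanr n r (act n r a)) ≤
        ballVol n r * Real.log (Zr n r (act n r b)) - ballVol n r * Real.log (Zr n r (act n r a))
      linarith
    · have := mul_le_mul_of_nonneg_left c2 hD.le
      show ballVol n r * Real.log (Zr n r (act n r b)) -
        ballVol n r * Real.log (Zr n r (act n r a)) ≤
        (Real.log (b / a) + (b - a)) * (ballVol n r * meanr n r (act n r b))
      linarith

end Pool.Agent.N549.HG
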